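import Pool.Agent.Lib.MP_f82811_pr.HT.Bnd

/-!
# Consequences of the bounds: finite sums
-/

set_option autoImplicit false

namespace Pool.Agent.Lib.MP_f82811_pr.HT

open Finset

variable {V : Type*} [Fintype V] [DecidableEq V]

section Num

variable {A F : V → V → ℝ} {x X : V → ℝ} {r δ m : ℝ}

/-- The row sums of the second differences, with an arbitrary nonnegative weight `y`. -/
theorem sum_second (hA : Coup A) (hδ0 : 0 ≤ δ)
    (hX : ∀ i, 0 ≤ X i) (hF0 : ∀ i k, 0 ≤ F i k) (hFd : ∀ i, F i i = 0)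
    (h2 : ∀ i k, i ≠ k → (1 + r) * F i k ≤
      ∑ v, (A v k * F i v + A v i * F k v + 2 * δ * A v i * A v k * X v))
    {y : V → ℝ} (hy : ∀ i, 0 ≤ y i) (i : V) :
    (1 + r) * ∑ k, y k * F i k ≤
      ∑ v, F i v * ∑ k, A v k * y k + ∑ v, A v i * ∑ k, y k * F k v +
        2 * δ * ∑ v, A v i * X v * ∑ k, A v k * y k := by
  have h3 : ∀ k, (1 + r) * (y k * F i k) ≤
      y k * ∑ v, (A v k * F i v + A v i * F k v + 2 * δ * A v i * A v k * X v) := by
    intro k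
    have e0 : (1 + r) * (y k * F i k) = y k * ((1 + r) * F i k) := by ring
    rw [e0]
    refine mul_le_mul_of_nonneg_left ?_ (hy k)
    by_cases hik : i = k
    · subst hik
      rw [hFd, mul_zero]
      refine Finset.sum_nonneg fun v _ => ?_
      have e1 := mul_nonneg (hA.nonneg v i) (hF0 i v)
      have e3 : 0 ≤ 2 * δ * A v i * A v i * X v :=
        mul_nonneg (mul_nonneg (mul_nonneg (by linarith) (hA.nonneg _ _)) (hA.nonneg _ _))
          (hX v)
      linarith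
    · exact h2 i k hik
  rw [Finset.mul_sum]
  refine (Finset.sum_le_sum fun k _ => h3 k).trans (le_of_eq ?_)
  simp only [Finset.mul_sum]
  rw [Finset.sum_comm]
  have e1 : ∀ a b c : V → V → ℝ, (∑ v, ∑ k, a v k) + (∑ v, ∑ k, b v k) + (∑ v, ∑ k, c v k) =
      ∑ v, ∑ k, (a v k + b v k + c v k) := by
    intro a b c
    simp only [Finset.sum_add_distrib]
  rw [e1]
  refine Finset.sum_congr rfl fun v _ => Finset.sum_congr rfl fun k _ => ?_
  ring

/-- The row sums of the second differences are at most `m` times the smallest slope. -/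
theorem num_eps (hA : Coup A)
    (hδ0 : 0 ≤ δ) (hδ1 : δ < 1) (hrow : ∀ v, ∑ u, A v u ≤ δ) (hr0 : 0 ≤ r) (hr : r ≤ δ)
    (hm0 : 0 ≤ m) (hm : ((1 + 4 * δ ^ 2) * m + 2 * δ ^ 2) * δ ≤ m * (1 - δ ^ 2))
    (hδ2 : (1 + 4 * δ ^ 2) * δ < 1 - δ)
    (hx : ∀ i, 0 ≤ x i) (hX : ∀ i, 0 ≤ X i)
    (hF0 : ∀ i k, 0 ≤ F i k) (hFs : ∀ i k, F i k = F k i) (hFd : ∀ i, F i i = 0)
    (hosc : ∀ i, X i ≤ x i + 2 * ∑ k, F i k)
    (hH : ∀ i, (1 - δ ^ 2) * ∑ v, A v i * x v ≤ r * x i)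
    (h2 : ∀ i k, i ≠ k → (1 + r) * F i k ≤
      ∑ v, (A v k * F i v + A v i * F k v + 2 * δ * A v i * A v k * X v)) (i : V) :
    ∑ k, F i k ≤ m * x i := by
  have hq : 0 < 1 - δ ^ 2 := by nlinarith
  -- the linear inequality for the row sums
  have h3 : ∀ i, (1 + r - δ) * ∑ k, F i k ≤
      (1 + 4 * δ ^ 2) * ∑ v, A v i * ∑ k, F v k + 2 * δ ^ 2 * ∑ v, A v i * x v := by
    intro i
    have h4 := sum_second hA hδ0 hX hF0 hFd h2 (y := fun _ => 1) (fun _ => zero_le_one) i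
    simp only [one_mul, mul_one] at h4
    have h5 : ∑ v, F i v * ∑ k, A v k ≤ δ * ∑ k, F i k := by
      rw [Finset.mul_sum]
      refine Finset.sum_le_sum fun v _ => ?_
      rw [mul_comm]
      exact mul_le_mul_of_nonneg_right (hrow v) (hF0 _ _)
    have h6 : ∑ v, A v i * ∑ k, F k v = ∑ v, A v i * ∑ k, F v k :=
      Finset.sum_congr rfl fun v _ => by
        rw [Finset.sum_congr rfl fun k _ => hFs k v]
    have h7 : ∑ v, A v i * X v * ∑ k, A v k ≤
        δ * ∑ v, A v i * x v + 2 * δ * ∑ v, A v i * ∑ k, F v k := by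
      rw [Finset.mul_sum, Finset.mul_sum, ← Finset.sum_add_distrib]
      refine Finset.sum_le_sum fun v _ => ?_
      have e1 : A v i * X v * ∑ k, A v k ≤ A v i * X v * δ :=
        mul_le_mul_of_nonneg_left (hrow v) (mul_nonneg (hA.nonneg _ _) (hX v))
      have e2 : A v i * X v ≤ A v i * (x v + 2 * ∑ k, F v k) :=
        mul_le_mul_of_nonneg_left (hosc v) (hA.nonneg _ _)
      have e3 := mul_le_mul_of_nonneg_right e2 hδ0
      calc _ ≤ _ := e1
        _ ≤ _ := e3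
        _ = _ := by ring
    have h8 := mul_le_mul_of_nonneg_left h7 (show (0 : ℝ) ≤ 2 * δ by linarith)
    rw [h6] at h4
    calc (1 + r - δ) * ∑ k, F i k = (1 + r) * ∑ k, F i k - δ * ∑ k, F i k := by ring
      _ ≤ ∑ v, A v i * ∑ k, F v k + 2 * δ * ∑ v, A v i * X v * ∑ k, A v k := by linarith
      _ ≤ ∑ v, A v i * ∑ k, F v k + 2 * δ * (δ * ∑ v, A v i * x v +
          2 * δ * ∑ v, A v i * ∑ k, F v k) := by linarith
      _ = _ := by ring
  -- comparison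
  obtain ⟨j, -, hj⟩ := Finset.exists_max_image Finset.univ
    (fun i => ∑ k, F i k - m * x i) ⟨i, Finset.mem_univ i⟩
  have hj0 : ∑ k, F j k - m * x j ≤ 0 := by
    by_contra hcon
    push Not at hcon
    set P := ∑ k, F j k - m * x j with hP
    have h4 : ∑ v, A v j * ∑ k, F v k ≤ δ * P + m * ∑ v, A v j * x v := by
      calc ∑ v, A v j * ∑ k, F v k ≤ ∑ v, (A j v * P + m * (A v j * x v)) := by
            refine Finset.sum_le_sum fun v _ => ?_
            have e1 := hj v (Finset.mem_univ v)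
            have e2 : ∑ k, F v k ≤ P + m * x v := by linarith
            rw [hA.symm j v]
            calc A v j * ∑ k, F v k ≤ A v j * (P + m * x v) :=
                  mul_le_mul_of_nonneg_left e2 (hA.nonneg _ _)
              _ = _ := by ring
        _ = (∑ v, A j v) * P + m * ∑ v, A v j * x v := by
            rw [Finset.sum_add_distrib, Finset.sum_mul, Finset.mul_sum]
        _ ≤ δ * P + m * ∑ v, A v j * x v := by
            have := mul_le_mul_of_nonneg_right (hrow j) hcon.le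
            linarith
    have h5 := h3 j
    have h6 : ∑ k, F j k = P + m * x j := by rw [hP]; ring
    rw [h6] at h5
    have h7 := hH j
    set T := ∑ v, A v j * x v with hT
    have h8 : (1 + 4 * δ ^ 2) * ∑ v, A v j * ∑ k, F v k ≤
        (1 + 4 * δ ^ 2) * (δ * P + m * T) := mul_le_mul_of_nonneg_left h4 (by positivity)
    have h9 : (1 + r - δ) * (P + m * x j) ≤
        (1 + 4 * δ ^ 2) * δ * P + ((1 + 4 * δ ^ 2) * m + 2 * δ ^ 2) * T := by
      calc _ ≤ _ := h5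
        _ ≤ (1 + 4 * δ ^ 2) * (δ * P + m * T) + 2 * δ ^ 2 * T := by linarith
        _ = _ := by ring
    have hc : 0 ≤ (1 + 4 * δ ^ 2) * m + 2 * δ ^ 2 := by positivity
    have h10 := mul_le_mul_of_nonneg_left h7 hc
    have h11 := mul_le_mul_of_nonneg_left h9 hq.le
    -- ((1+4δ²)m+2δ²) r ≤ (1-δ²) m (1+r-δ)
    have h12 : ((1 + 4 * δ ^ 2) * m + 2 * δ ^ 2) * r ≤ (1 - δ ^ 2) * m * (1 + r - δ) := by
      have e1 : 0 ≤ (1 + 4 * δ ^ 2) * m + 2 * δ ^ 2 - (1 - δ ^ 2) * m := by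
        have : 0 ≤ δ ^ 2 * m := by positivity
        nlinarith [sq_nonneg δ]
      have e2 := mul_le_mul_of_nonneg_left hr e1
      nlinarith
    have h13 := mul_le_mul_of_nonneg_right h12 (hx j)
    have h14 : (1 - δ ^ 2) * ((1 + r - δ) * P) ≤ (1 - δ ^ 2) * ((1 + 4 * δ ^ 2) * δ * P) := by
      have e1 : (1 - δ ^ 2) * ((1 + r - δ) * (P + m * x j)) =
        (1 - δ ^ 2) * ((1 + r - δ) * P) + (1 - δ ^ 2) * m * (1 + r - δ) * x j := by ring
      have e2 : (1 - δ ^ 2) * ((1 + 4 * δ ^ 2) * δ * P +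
          ((1 + 4 * δ ^ 2) * m + 2 * δ ^ 2) * T) =
        (1 - δ ^ 2) * ((1 + 4 * δ ^ 2) * δ * P) +
          ((1 + 4 * δ ^ 2) * m + 2 * δ ^ 2) * ((1 - δ ^ 2) * T) := by ring
      have e3 : ((1 + 4 * δ ^ 2) * m + 2 * δ ^ 2) * (r * x j) =
        ((1 + 4 * δ ^ 2) * m + 2 * δ ^ 2) * r * x j := by ring
      rw [e1, e2] at h11
      rw [e3] at h10
      linarith
    have h15 := le_of_mul_le_mul_left h14 hq
    have h16 := le_of_mul_le_mul_right h15 hcon
    linarith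
  have h4 := hj i (Finset.mem_univ i)
  linarith

/-- The weighted sum of the second differences. -/
theorem num_Y (hA : Coup A)
    (hδ0 : 0 ≤ δ) (hδ1 : δ < 1) (hrow : ∀ v, ∑ u, A v u ≤ δ) (hr : r ≤ δ)
    (hx : ∀ i, 0 ≤ x i) (hX : ∀ i, 0 ≤ X i)
    (hF0 : ∀ i k, 0 ≤ F i k) (hFs : ∀ i k, F i k = F k i) (hFd : ∀ i, F i i = 0)
    (hXx : ∀ i, X i ≤ (1 + 2 * m) * x i)
    (hH : ∀ i, (1 - δ ^ 2) * ∑ v, A v i * x v ≤ r * x i)
    (h2 : ∀ i k, i ≠ k → (1 + r) * F i k ≤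
      ∑ v, (A v k * F i v + A v i * F k v + 2 * δ * A v i * A v k * X v)) :
    ((1 - δ ^ 2) * (1 - δ) - δ ^ 3) * ∑ i, ∑ k, x k * F i k ≤
      2 * δ ^ 2 * (1 + 2 * m) * (1 - δ ^ 2) * ∑ i, ∑ k, A i k * x i * x k := by
  have hq : 0 < 1 - δ ^ 2 := by nlinarith
  set Y := ∑ i, ∑ k, x k * F i k with hY
  set S := ∑ i, ∑ k, A i k * x i * x k with hS
  have hY0 : 0 ≤ Y :=
    Finset.sum_nonneg fun i _ => Finset.sum_nonneg fun k _ => mul_nonneg (hx _) (hF0 _ _)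
  have h3 : (1 + r) * Y ≤ ∑ i, ∑ v, F i v * ∑ k, A v k * x k +
      ∑ i, ∑ v, A v i * ∑ k, x k * F k v +
      2 * δ * ∑ i, ∑ v, A v i * X v * ∑ k, A v k * x k := by
    rw [hY, Finset.mul_sum, Finset.mul_sum (s := Finset.univ) (a := 2 * δ),
      ← Finset.sum_add_distrib, ← Finset.sum_add_distrib]
    exact Finset.sum_le_sum fun i _ => sum_second hA hδ0 hX hF0 hFd h2 hx i
  -- first term
  have h4 : (1 - δ ^ 2) * ∑ i, ∑ v, F i v * ∑ k, A v k * x k ≤ r * Y := by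
    rw [hY, Finset.mul_sum, Finset.mul_sum]
    refine Finset.sum_le_sum fun i _ => ?_
    rw [Finset.mul_sum, Finset.mul_sum]
    refine Finset.sum_le_sum fun v _ => ?_
    have e1 := hH v
    have e2 : ∑ k, A v k * x k = ∑ k, A k v * x k :=
      Finset.sum_congr rfl fun k _ => by rw [hA.symm]
    rw [e2]
    have e3 := mul_le_mul_of_nonneg_left e1 (hF0 i v)
    calc (1 - δ ^ 2) * (F i v * ∑ k, A k v * x k) =
        F i v * ((1 - δ ^ 2) * ∑ k, A k v * x k) := by ring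
      _ ≤ _ := e3
      _ = _ := by ring
  -- second term
  have h5 : ∑ i, ∑ v, A v i * ∑ k, x k * F k v ≤ δ * Y := by
    rw [Finset.sum_comm]
    have e1 : ∀ v, ∑ i, A v i * ∑ k, x k * F k v ≤ δ * ∑ k, x k * F v k := by
      intro v
      rw [← Finset.sum_mul]
      have e2 : ∑ k, x k * F k v = ∑ k, x k * F v k :=
        Finset.sum_congr rfl fun k _ => by rw [hFs]
      rw [e2]
      exact mul_le_mul_of_nonneg_right (hrow v)
        (Finset.sum_nonneg fun k _ => mul_nonneg (hx _) (hF0 _ _))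
    rw [hY, Finset.mul_sum]
    exact Finset.sum_le_sum fun v _ => e1 v
  -- third term
  have h6 : ∑ i, ∑ v, A v i * X v * ∑ k, A v k * x k ≤ δ * (1 + 2 * m) * S := by
    rw [Finset.sum_comm]
    have e1 : ∀ v, ∑ i, A v i * X v * ∑ k, A v k * x k ≤
        δ * (1 + 2 * m) * ∑ k, A v k * x v * x k := by
      intro v
      have e0 : 0 ≤ ∑ k, A v k * x k :=
        Finset.sum_nonneg fun k _ => mul_nonneg (hA.nonneg _ _) (hx _)
      rw [← Finset.sum_mul, ← Finset.sum_mul]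
      have e2 : (∑ i, A v i) * X v ≤ δ * ((1 + 2 * m) * x v) :=
        mul_le_mul (hrow v) (hXx v) (hX v) hδ0
      have e3 := mul_le_mul_of_nonneg_right e2 e0
      refine e3.trans (le_of_eq ?_)
      have e4 : ∑ k, A v k * x v * x k = x v * ∑ k, A v k * x k := by
        rw [Finset.mul_sum]
        exact Finset.sum_congr rfl fun k _ => by ring
      rw [e4]
      ring
    rw [hS, Finset.mul_sum]
    exact Finset.sum_le_sum fun v _ => e1 v
  have h7 : (1 - δ ^ 2) * ((1 + r) * Y) ≤ r * Y + (1 - δ ^ 2) * (δ * Y) +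
      (1 - δ ^ 2) * (2 * δ * (δ * (1 + 2 * m) * S)) := by
    have e1 := mul_le_mul_of_nonneg_left h3 hq.le
    have e2 := mul_le_mul_of_nonneg_left h5 hq.le
    have e3 := mul_le_mul_of_nonneg_left
      (mul_le_mul_of_nonneg_left h6 (show (0 : ℝ) ≤ 2 * δ by linarith)) hq.le
    calc _ ≤ _ := e1
      _ = (1 - δ ^ 2) * (∑ i, ∑ v, F i v * ∑ k, A v k * x k) +
        (1 - δ ^ 2) * (∑ i, ∑ v, A v i * ∑ k, x k * F k v) +
        (1 - δ ^ 2) * (2 * δ * ∑ i, ∑ v, A v i * X v * ∑ k, A v k * x k) := by ring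
      _ ≤ _ := by linarith
  have h8 : r * δ ^ 2 * Y ≤ δ ^ 3 * Y := by
    have e1 : r * δ ^ 2 ≤ δ * δ ^ 2 := mul_le_mul_of_nonneg_right hr (sq_nonneg _)
    have e2 := mul_le_mul_of_nonneg_right e1 hY0
    calc _ ≤ _ := e2
      _ = _ := by ring
  nlinarith [h7, h8]

end Num

/-- **The bounds.** -/
theorem bounds {A : V → V → ℝ} {f : (V → Bool) → ℝ} {lam δ m : ℝ} (hA : Coup A)
    (hδ0 : 0 ≤ δ) (hδ1 : δ < 1) (hrow : ∀ v, ∑ u, A v u ≤ δ) (hf : Monotone f)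
    (h : Eig A f lam) (hne : ∃ i, XX f i ≠ 0)
    (hm0 : 0 ≤ m) (hm : ((1 + 4 * δ ^ 2) * m + 2 * δ ^ 2) * δ ≤ m * (1 - δ ^ 2))
    (hδ2 : (1 + 4 * δ ^ 2) * δ < 1 - δ) :
    lam ≤ 1 ∧ 1 - lam ≤ δ ∧
      (∀ i, ∑ k, FF f i k ≤ m * xx f i) ∧ (∀ i, XX f i ≤ (1 + 2 * m) * xx f i) ∧
      ((1 - δ ^ 2) * (1 - δ) - δ ^ 3) * ∑ i, ∑ k, xx f k * FF f i k ≤
        2 * δ ^ 2 * (1 + 2 * m) * (1 - δ ^ 2) * ∑ i, ∑ k, A i k * xx f i * xx f k := by
  obtain ⟨hl1, hl2⟩ := lam_bounds hA hδ1 hrow hf h hne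
  have hosc : ∀ i, XX f i ≤ xx f i + 2 * ∑ k, FF f i k := by
    intro i
    obtain ⟨σ, hσ⟩ := exists_hi (D i f)
    obtain ⟨τ, hτ⟩ := exists_lo (D i f)
    have h1 := osc_le (g := D i f) (B := FF f i) (fun v σ => abs_DD_le f i v σ) σ τ
    rw [hσ, hτ] at h1
    unfold XX xx
    linarith
  have h2 : ∀ i k, i ≠ k → (1 + (1 - lam)) * FF f i k ≤
      ∑ v, (A v k * FF f i v + A v i * FF f k v + 2 * δ * A v i * A v k * XX f v) := by
    intro i k hik
    have e := second hA hrow hf h hik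
    have e' : (1 + (1 - lam)) * FF f i k = (2 - lam) * FF f i k := by ring
    rw [e']
    exact e
  have hH : ∀ i, (1 - δ ^ 2) * ∑ v, A v i * xx f v ≤ (1 - lam) * xx f i :=
    fun i => harnack hA hrow hf h i
  have h3 : ∀ i, ∑ k, FF f i k ≤ m * xx f i := fun i =>
    num_eps hA hδ0 hδ1 hrow (by linarith) hl2 hm0 hm hδ2 (xx_nonneg hf) (XX_nonneg hf)
      (FF_nonneg f) (FF_symm f) (FF_self f) hosc hH h2 i
  have h4 : ∀ i, XX f i ≤ (1 + 2 * m) * xx f i := fun i => by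
    have e1 := hosc i
    have e2 := h3 i
    linarith
  exact ⟨hl1, hl2, h3, h4, num_Y hA hδ0 hδ1 hrow hl2 (xx_nonneg hf)
    (XX_nonneg hf) (FF_nonneg f) (FF_symm f) (FF_self f) h4 hH h2⟩

/-- The bounds for row sums at most `1/3`: `m = 2/11` and `y = 16/33`. -/
theorem bounds_third {A : V → V → ℝ} {f : (V → Bool) → ℝ} {lam : ℝ} (hA : Coup A)
    (hrow : ∀ v, ∑ u, A v u ≤ 1 / 3) (hf : Monotone f)
    (h : Eig A f lam) (hne : ∃ i, XX f i ≠ 0) :
    lam ≤ 1 ∧ 1 - lam ≤ 1 / 3 ∧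
      (∀ i, ∑ k, FF f i k ≤ 2 / 11 * xx f i) ∧ (∀ i, XX f i ≤ 15 / 11 * xx f i) ∧
      ∑ i, ∑ k, xx f k * FF f i k ≤ 16 / 33 * ∑ i, ∑ k, A i k * xx f i * xx f k := by
  obtain ⟨h1, h2, h3, h4, h5⟩ := bounds (m := 2 / 11) hA (by norm_num) (by norm_num) hrow hf h
    hne (by norm_num) (by norm_num) (by norm_num)
  refine ⟨h1, h2, h3, fun i => ?_, ?_⟩
  · have := h4 i
    norm_num at this
    exact this
  · norm_num at h5
    linarith

end Pool.Agent.Lib.MP_f82811_pr.HT
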