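import Pool.Agent.Lib.MP_f82811_pr.HT.Low
import Pool.Agent.Lib.MP_f82811_pr.HT.Num

/-!
# High temperature: a single pair
-/

set_option autoImplicit false

namespace Pool.Agent.Lib.MP_f82811_pr.HT

open Finset

variable {V : Type*} [Fintype V] [DecidableEq V]

/-- The matrix of the single pair `{i, j}`. -/
def pairMat (i j : V) (u v : V) : ℝ := if (u = i ∧ v = j) ∨ (u = j ∧ v = i) then 1 else 0

omit [Fintype V] in
theorem coup_pairMat {i j : V} (hij : i ≠ j) : Coup (pairMat i j) := by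
  refine ⟨fun u v => ?_, fun u v => ?_, fun v => ?_⟩
  · unfold pairMat
    congr 1
    apply propext
    constructor
    · rintro (⟨h1, h2⟩ | ⟨h1, h2⟩)
      · exact Or.inr ⟨h2, h1⟩
      · exact Or.inl ⟨h2, h1⟩
    · rintro (⟨h1, h2⟩ | ⟨h1, h2⟩)
      · exact Or.inr ⟨h2, h1⟩
      · exact Or.inl ⟨h2, h1⟩
  · unfold pairMat
    split_ifs
    · exact zero_le_one
    · exact le_refl _
  · unfold pairMat
    rw [if_neg]
    rintro (⟨h1, h2⟩ | ⟨h1, h2⟩)
    · exact hij (h1.symm.trans h2)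
    · exact hij (h2.symm.trans h1)

omit [Fintype V] in
theorem pairMat_left {i j : V} (hij : i ≠ j) (k : V) :
    pairMat i j i k = if k = j then 1 else 0 := by
  unfold pairMat
  by_cases hk : k = j
  · rw [if_pos hk, if_pos (Or.inl ⟨rfl, hk⟩)]
  · rw [if_neg hk, if_neg]
    rintro (⟨_, h2⟩ | ⟨h1, _⟩)
    · exact hk h2
    · exact hij h1

theorem fld_pairMat {i j : V} (hij : i ≠ j) : fld (pairMat i j) i = sp j := by
  funext σ
  unfold fld
  rw [Finset.sum_congr rfl fun k _ => by rw [pairMat_left hij]]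
  simp

theorem row_pairMat {i j : V} (hij : i ≠ j) : ∑ u, pairMat i j i u ≤ 1 := by
  rw [Finset.sum_congr rfl fun k _ => pairMat_left hij k]
  simp

/-- The pair lemma. -/
theorem pair_low {A F : V → V → ℝ} {f : (V → Bool) → ℝ} {x X : V → ℝ} {lam δ : ℝ} (hA : Coup A)
    (hδ0 : 0 ≤ δ) (hδ1 : δ < 1) (hrow : ∀ v, ∑ u, A v u ≤ δ)
    (h : Eig A f lam) (hx0 : ∀ i, 0 ≤ x i) (hx : ∀ i σ, x i ≤ D i f σ)
    (hX : ∀ i σ, D i f σ ≤ X i) (hF : ∀ i k σ, |D k (D i f) σ| ≤ F i k)
    {i j : V} (hij : i ≠ j) :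
    ((1 - δ ^ 2) ^ 2 * (x i * x j) - ∑ k, X k * (2 * δ * A i k * X i + F i k)) *
        ∑ σ, W A σ ≤
      lam * ∑ σ, W A σ * (f σ * (sp j σ * ((1 - tau A i σ ^ 2) * D i f σ))) := by
  rw [eig_pairing hA h (fun σ => sp j σ * ((1 - tau A i σ ^ 2) * D i f σ))]
  have h1 : ((1 - δ ^ 2) ^ 2 * (x i * x j) - ∑ k, X k * (2 * δ * A i k * X i + F i k)) *
        ∑ σ, W A σ =
      ∑ k, ∑ σ, W A σ * ((1 - δ ^ 2) ^ 2 * (pairMat i j i k * x i * x k) -
        1 * (X k * (2 * δ * A i k * X i + F i k))) := by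
    have e1 : ∀ k, ∑ σ, W A σ * ((1 - δ ^ 2) ^ 2 * (pairMat i j i k * x i * x k) -
        1 * (X k * (2 * δ * A i k * X i + F i k))) =
        ((1 - δ ^ 2) ^ 2 * (pairMat i j i k * x i * x k) -
        X k * (2 * δ * A i k * X i + F i k)) * ∑ σ, W A σ := by
      intro k
      rw [Finset.mul_sum]
      exact Finset.sum_congr rfl fun σ _ => by ring
    rw [Finset.sum_congr rfl fun k _ => e1 k, ← Finset.sum_mul]
    congr 1
    rw [Finset.sum_sub_distrib]
    congr 1
    rw [← Finset.mul_sum]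
    congr 1
    rw [Finset.sum_congr rfl fun k _ => by rw [pairMat_left hij]]
    simp
  rw [h1]
  refine Finset.sum_le_sum fun k _ => Finset.sum_le_sum fun σ _ => ?_
  have h2 := term_low hA (coup_pairMat hij) hδ0 hδ1 hrow i k (row_pairMat hij) hx0 hx hX hF σ
  rw [fld_pairMat hij] at h2
  exact mul_le_mul_of_nonneg_left h2 (W_pos A σ).le

omit [Fintype V] in
theorem D_sp_mul_sp {i j : V} (hij : i ≠ j) (k : V) (σ : V → Bool) :
    D k (fun σ => sp i σ * sp j σ) σ =
      (if k = i then sp j σ else 0) + (if k = j then sp i σ else 0) := by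
  rw [D_mul]
  by_cases hki : k = i
  · subst hki
    rw [D_sp_self, M_sp_self, M_sp_ne (Ne.symm hij), if_pos rfl, if_neg hij]
    ring
  · by_cases hkj : k = j
    · subst hkj
      rw [D_sp_self, M_sp_self, M_sp_ne hij, if_neg hki, if_pos rfl]
      ring
    · rw [D_sp_ne (fun h => hki h.symm), D_sp_ne (fun h => hkj h.symm), if_neg hki, if_neg hkj]
      ring

theorem pair_defect_eq {A : V → V → ℝ} (hA : Coup A) (f : (V → Bool) → ℝ) {i j : V}
    (hij : i ≠ j) :
    ∑ σ, W A σ * (sp i σ * sp j σ * defect (W A) f σ) =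
      ∑ σ, W A σ * (f σ * (sp j σ * ((1 - tau A i σ ^ 2) * D i f σ))) +
      ∑ σ, W A σ * (f σ * (sp i σ * ((1 - tau A j σ ^ 2) * D j f σ))) := by
  rw [sum_defect_mul hA f (fun σ => sp i σ * sp j σ)]
  have h1 : ∀ k, ∑ σ, W A σ * (f σ * ((1 - tau A k σ ^ 2) * D k f σ *
      D k (fun σ => sp i σ * sp j σ) σ)) =
      (if k = i then ∑ σ, W A σ * (f σ * (sp j σ * ((1 - tau A i σ ^ 2) * D i f σ))) else 0) +
      (if k = j then ∑ σ, W A σ * (f σ * (sp i σ * ((1 - tau A j σ ^ 2) * D j f σ))) else 0) := by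
    intro k
    by_cases hki : k = i
    · subst hki
      rw [if_pos rfl, if_neg hij, add_zero]
      refine Finset.sum_congr rfl fun σ _ => ?_
      rw [D_sp_mul_sp hij, if_pos rfl, if_neg hij]
      ring
    · by_cases hkj : k = j
      · subst hkj
        rw [if_neg hki, if_pos rfl, zero_add]
        refine Finset.sum_congr rfl fun σ _ => ?_
        rw [D_sp_mul_sp hij, if_neg hki, if_pos rfl]
        ring
      · rw [if_neg hki, if_neg hkj, add_zero]
        refine Finset.sum_eq_zero fun σ _ => ?_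
        rw [D_sp_mul_sp hij, if_neg hki, if_neg hkj]
        ring
  rw [Finset.sum_congr rfl fun k _ => h1 k, Finset.sum_add_distrib]
  simp

/-- Positivity for a pair when all slopes have the same minimum. -/
theorem pair_defect_unif {A : V → V → ℝ} {f : (V → Bool) → ℝ} {lam : ℝ} (hA : Coup A)
    (hrow : ∀ v, ∑ u, A v u ≤ 1 / 3) (hf : Monotone f)
    (h : Eig A f lam) (hlam : 0 < lam) {i j : V} (hij : i ≠ j)
    (hunif : ∀ k l, xx f k = xx f l) :
    0 ≤ ∑ σ, W A σ * (sp i σ * sp j σ * defect (W A) f σ) := by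
  rw [pair_defect_eq hA f hij]
  by_cases hne : ∃ i, XX f i ≠ 0
  · obtain ⟨_, _, h3, h4, _⟩ := bounds_third hA hrow hf h hne
    have hx0 : ∀ k, 0 ≤ xx f k := fun k => xx_nonneg hf k
    have hpair : ∀ a b : V, a ≠ b →
        0 ≤ lam * ∑ σ, W A σ * (f σ * (sp b σ * ((1 - tau A a σ ^ 2) * D a f σ))) := by
      intro a b hab
      have e1 := pair_low (x := xx f) (X := XX f) (F := FF f) hA (by norm_num) (by norm_num) hrow h
        hx0 (fun k σ => xx_le f k σ) (fun k σ => le_XX f k σ)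
        (fun k l σ => abs_DD_le f k l σ) hab
      refine le_trans (mul_nonneg ?_ (Finset.sum_nonneg fun σ _ => (W_pos A σ).le)) e1
      obtain ⟨x, hx⟩ : ∃ x, x = xx f a := ⟨_, rfl⟩
      have ex : ∀ k, xx f k = x := fun k => (hunif k a).trans hx.symm
      have hxn : 0 ≤ x := by rw [hx]; exact hx0 a
      have eX : ∀ k, XX f k ≤ 15 / 11 * x := fun k => by
        have := h4 k
        rwa [ex k] at this
      have eX0 : ∀ k, 0 ≤ XX f k := fun k =>
        (hx0 k).trans ((xx_le f k (fun _ => true)).trans (le_XX f k (fun _ => true)))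
      have e2 : ∑ k, XX f k * (2 * (1 / 3) * A a k * XX f a + FF f a k) ≤
          ∑ k, (15 / 11 * x) * (2 * (1 / 3) * A a k * (15 / 11 * x) + FF f a k) := by
        refine Finset.sum_le_sum fun k _ => ?_
        have g1 : 2 * (1 / 3) * A a k * XX f a ≤ 2 * (1 / 3) * A a k * (15 / 11 * x) :=
          mul_le_mul_of_nonneg_left (eX a) (mul_nonneg (by norm_num) (hA.nonneg a k))
        have g2 : 0 ≤ 2 * (1 / 3) * A a k * XX f a + FF f a k :=
          add_nonneg (mul_nonneg (mul_nonneg (by norm_num) (hA.nonneg a k)) (eX0 a))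
            (FF_nonneg f a k)
        exact mul_le_mul (eX k) (by linarith) g2 (by positivity)
      have e3 : ∑ k, (15 / 11 * x) * (2 * (1 / 3) * A a k * (15 / 11 * x) + FF f a k) =
          (15 / 11 * x) * (2 * (1 / 3) * (15 / 11 * x) * ∑ k, A a k + ∑ k, FF f a k) := by
        rw [← Finset.mul_sum, Finset.sum_add_distrib, Finset.mul_sum (s := univ) (a := 2 * (1 / 3) * (15 / 11 * x))]
        congr 2
        exact Finset.sum_congr rfl fun k _ => by ring
      have e4 : (15 / 11 * x) * (2 * (1 / 3) * (15 / 11 * x) * ∑ k, A a k + ∑ k, FF f a k) ≤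
          (15 / 11 * x) * (2 * (1 / 3) * (15 / 11 * x) * (1 / 3) + 2 / 11 * x) := by
        apply mul_le_mul_of_nonneg_left _ (by positivity)
        apply add_le_add
        · exact mul_le_mul_of_nonneg_left (hrow a) (by positivity)
        · have := h3 a
          rwa [ex a] at this
      rw [ex a, ex b]
      nlinarith [mul_nonneg hxn hxn]
    have g1 := nonneg_of_mul_nonneg_right (hpair i j hij) hlam
    have g2 := nonneg_of_mul_nonneg_right (hpair j i hij.symm) hlam
    exact add_nonneg g1 g2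
  · have hz : ∀ k σ, D k f σ = 0 := by
      intro k σ
      have h1 : XX f k = 0 := by
        by_contra hc
        exact hne ⟨k, hc⟩
      have h2 := le_XX f k σ
      have h3 := D_nonneg hf k σ
      linarith
    apply le_of_eq
    symm
    rw [Finset.sum_eq_zero, Finset.sum_eq_zero, add_zero]
    · intro σ _
      rw [hz]
      ring
    · intro σ _
      rw [hz]
      ring

/-- Positivity for a pair when all slopes have the same bounds. -/
theorem pair_defect {A : V → V → ℝ} {f : (V → Bool) → ℝ} {lam x X : ℝ} (hA : Coup A)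
    (hrow : ∀ v, ∑ u, A v u ≤ 1 / 3) (hf : Monotone f)
    (h : Eig A f lam) (hlam : 0 < lam) {i j : V} (hij : i ≠ j)
    (hx : ∀ v, xx f v = x) (_hX : ∀ v, XX f v = X) :
    0 ≤ ∑ σ, W A σ * (sp i σ * sp j σ * defect (W A) f σ) :=
  pair_defect_unif hA hrow hf h hlam hij fun k l => (hx k).trans (hx l).symm

end Pool.Agent.Lib.MP_f82811_pr.HT
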