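import Pool.Agent.Lib.MP_f82811_pr.HT.Ids

/-!
# Bounds for the slopes and the second differences of an increasing eigenfunction
-/

set_option autoImplicit false

namespace Pool.Agent.Lib.MP_f82811_pr.HT

open Finset

variable {V : Type*} [Fintype V] [DecidableEq V]

/-! ### smallest and largest values -/

theorem lo_le (g : (V → Bool) → ℝ) (σ : V → Bool) : lo g ≤ g σ :=
  Finset.inf'_le _ (Finset.mem_univ σ)

theorem le_hi (g : (V → Bool) → ℝ) (σ : V → Bool) : g σ ≤ hi g :=
  Finset.le_sup' _ (Finset.mem_univ σ)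

theorem exists_lo (g : (V → Bool) → ℝ) : ∃ σ, g σ = lo g := by
  obtain ⟨s, -, hs⟩ := Finset.exists_mem_eq_inf' (s := (Finset.univ : Finset (V → Bool)))
    Finset.univ_nonempty g
  exact ⟨s, hs.symm⟩

theorem exists_hi (g : (V → Bool) → ℝ) : ∃ σ, g σ = hi g := by
  obtain ⟨s, -, hs⟩ := Finset.exists_mem_eq_sup' (s := (Finset.univ : Finset (V → Bool)))
    Finset.univ_nonempty g
  exact ⟨s, hs.symm⟩

/-! ### the maximum principle -/

omit [Fintype V] in
theorem max_principle {g : (V → Bool) → ℝ} {σ : V → Bool} (h : ∀ t, g t ≤ g σ) (v : V) {a : ℝ}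
    (ha : |a| ≤ 1) : 0 ≤ (sp v σ - a) * D v g σ := by
  have ha' := abs_le.1 ha
  unfold D sp
  cases hs : σ v with
  | true =>
    have h1 : Function.update σ v true = σ := by rw [← hs]; exact Function.update_eq_self v σ
    rw [h1]
    have h2 := h (Function.update σ v false)
    simp only [spin, if_true]
    apply mul_nonneg <;> linarith
  | false =>
    have h1 : Function.update σ v false = σ := by rw [← hs]; exact Function.update_eq_self v σ
    rw [h1]
    have h2 := h (Function.update σ v true)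
    simp only [spin, Bool.false_eq_true, if_false]
    have h3 : 0 ≤ (1 + a) * ((g σ - g (Function.update σ v true)) / 2) := by
      apply mul_nonneg <;> linarith
    linarith

omit [Fintype V] in
theorem D_neg (v : V) (g : (V → Bool) → ℝ) (σ : V → Bool) :
    D v (fun t => -g t) σ = -D v g σ := by
  unfold D; ring

omit [Fintype V] in
theorem min_principle {g : (V → Bool) → ℝ} {σ : V → Bool} (h : ∀ t, g σ ≤ g t) (v : V) {a : ℝ}
    (ha : |a| ≤ 1) : (sp v σ - a) * D v g σ ≤ 0 := by
  have h1 := max_principle (g := fun t => -g t) (σ := σ) (fun t => neg_le_neg (h t)) v ha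
  rw [D_neg] at h1
  linarith

section BND

variable {A : V → V → ℝ} {f : (V → Bool) → ℝ} {lam δ : ℝ}

theorem xx_le (f : (V → Bool) → ℝ) (i : V) (σ : V → Bool) : xx f i ≤ D i f σ := lo_le _ _

theorem le_XX (f : (V → Bool) → ℝ) (i : V) (σ : V → Bool) : D i f σ ≤ XX f i := le_hi _ _

theorem xx_nonneg (hf : Monotone f) (i : V) : 0 ≤ xx f i := by
  obtain ⟨σ, hσ⟩ := exists_lo (D i f)
  rw [xx, ← hσ]
  exact D_nonneg hf i σ

theorem xx_le_XX (f : (V → Bool) → ℝ) (i : V) : xx f i ≤ XX f i :=
  (xx_le f i fun _ => true).trans (le_XX f i _)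

theorem XX_nonneg (hf : Monotone f) (i : V) : 0 ≤ XX f i :=
  (xx_nonneg hf i).trans (xx_le_XX f i)

theorem abs_DD_le (f : (V → Bool) → ℝ) (i k : V) (σ : V → Bool) :
    |D k (D i f) σ| ≤ FF f i k := le_hi (fun σ => |D k (D i f) σ|) σ

theorem FF_nonneg (f : (V → Bool) → ℝ) (i k : V) : 0 ≤ FF f i k :=
  (abs_nonneg _).trans (abs_DD_le f i k fun _ => true)

theorem FF_symm (f : (V → Bool) → ℝ) (i k : V) : FF f i k = FF f k i := by
  unfold FF
  rw [D_comm k i]

theorem FF_self (f : (V → Bool) → ℝ) (i : V) : FF f i i = 0 := by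
  obtain ⟨σ, hσ⟩ := exists_hi (fun σ => |D i (D i f) σ|)
  rw [FF, ← hσ, D_self, abs_zero]

theorem abs_M_tau_le (A : V → V → ℝ) (i v : V) (σ : V → Bool) : |M i (tau A v) σ| ≤ 1 :=
  abs_M_le (fun t => (abs_tau_lt_one A v t).le) σ

theorem abs_MM_tau_le (A : V → V → ℝ) (i k v : V) (σ : V → Bool) :
    |M k (M i (tau A v)) σ| ≤ 1 :=
  abs_M_le (fun t => abs_M_tau_le A i v t) σ

omit [Fintype V] in
theorem M_D_nonneg (hf : Monotone f) (i v : V) (σ : V → Bool) : 0 ≤ M i (D v f) σ :=
  le_M (fun t => D_nonneg hf v t) σ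

/-- Harnack inequality, from the minimum of the slope. -/
theorem harnack (hA : Coup A) (hrow : ∀ v, ∑ u, A v u ≤ δ) (hf : Monotone f)
    (h : Eig A f lam) (i : V) :
    (1 - δ ^ 2) * ∑ v, A v i * xx f v ≤ (1 - lam) * xx f i := by
  have hδ0 : 0 ≤ δ := (Finset.sum_nonneg fun u _ => hA.nonneg i u).trans (hrow i)
  obtain ⟨σ, hσ⟩ := exists_lo (D i f)
  have hmin : ∀ t, D i f σ ≤ D i f t := fun t => by rw [hσ]; exact lo_le _ t
  have h1 := id1 hA h i σ
  have h2 : ∑ v ∈ univ.erase i, (sp v σ - M i (tau A v) σ) * D v (D i f) σ ≤ 0 :=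
    Finset.sum_nonpos fun v _ => min_principle hmin v (abs_M_tau_le A i v σ)
  have h3 : (1 - δ ^ 2) * ∑ v, A v i * xx f v ≤
      ∑ v ∈ univ.erase i, D i (tau A v) σ * M i (D v f) σ := by
    rw [← Finset.add_sum_erase _ _ (Finset.mem_univ i), hA.diag, zero_mul, zero_add,
      Finset.mul_sum]
    refine Finset.sum_le_sum fun v _ => ?_
    have e1 := le_D_tau hA hrow v i σ
    have e2 : xx f v ≤ M i (D v f) σ := le_M (fun t => xx_le f v t) σ
    have e3 := xx_nonneg hf v
    have e4 := D_tau_nonneg hA v i σ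
    calc (1 - δ ^ 2) * (A v i * xx f v) = ((1 - δ ^ 2) * A v i) * xx f v := by ring
      _ ≤ D i (tau A v) σ * xx f v := mul_le_mul_of_nonneg_right e1 e3
      _ ≤ D i (tau A v) σ * M i (D v f) σ := mul_le_mul_of_nonneg_left e2 e4
  have h4 : D i f σ = xx f i := hσ
  rw [h4] at h1
  linarith

/-- From the maximum of the slope. -/
theorem max_slope (hA : Coup A) (hf : Monotone f)
    (h : Eig A f lam) (i : V) :
    (1 - lam) * XX f i ≤ ∑ v, A v i * XX f v := by
  obtain ⟨σ, hσ⟩ := exists_hi (D i f)
  have hmax : ∀ t, D i f t ≤ D i f σ := fun t => by rw [hσ]; exact le_hi _ t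
  have h1 := id1 hA h i σ
  have h2 : 0 ≤ ∑ v ∈ univ.erase i, (sp v σ - M i (tau A v) σ) * D v (D i f) σ :=
    Finset.sum_nonneg fun v _ => max_principle hmax v (abs_M_tau_le A i v σ)
  have h3 : ∑ v ∈ univ.erase i, D i (tau A v) σ * M i (D v f) σ ≤ ∑ v, A v i * XX f v := by
    rw [← Finset.add_sum_erase _ (fun v => A v i * XX f v) (Finset.mem_univ i), hA.diag,
      zero_mul, zero_add]
    refine Finset.sum_le_sum fun v _ => ?_
    have e2 : M i (D v f) σ ≤ XX f v := M_le (fun t => le_XX f v t) σ
    exact mul_le_mul (D_tau_le hA v i σ) e2 (M_D_nonneg hf i v σ) (hA.nonneg _ _)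
  have h4 : D i f σ = XX f i := hσ
  rw [h4] at h1
  linarith

omit [Fintype V] in
theorem flip_induction [Finite V] {P : (V → Bool) → Prop} {σ : V → Bool} (h0 : P σ)
    (hstep : ∀ t v, P t → P (flip v t)) (t : V → Bool) : P t := by
  have := Fintype.ofFinite V
  have key : ∀ (S : Finset V) (t : V → Bool), (∀ v, v ∉ S → t v = σ v) → P t := by
    intro S
    induction S using Finset.induction_on with
    | empty =>
      intro t ht
      have : t = σ := funext fun v => ht v (Finset.notMem_empty v)
      rw [this]; exact h0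
    | insert a S ha ih =>
      intro t ht
      by_cases hta : t a = σ a
      · exact ih t fun v hv => by
          by_cases hva : v = a
          · rw [hva]; exact hta
          · exact ht v (by simp [hva, hv])
      · have h1 : P (flip a t) := ih _ fun v hv => by
          by_cases hva : v = a
          · subst hva
            unfold flip
            rw [Function.update_self]
            cases h2 : t v <;> cases h3 : σ v <;> simp_all
          · unfold flip
            rw [Function.update_of_ne hva]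
            exact ht v (by simp [hva, hv])
        have h2 := hstep _ a h1
        rwa [flip_flip] at h2
  exact key Finset.univ t fun v hv => absurd (Finset.mem_univ v) hv

/-- Strong minimum principle. -/
theorem dichotomy (hA : Coup A) (hf : Monotone f) (h : Eig A f lam) (i : V)
    (hx : xx f i = 0) : XX f i = 0 := by
  obtain ⟨σ, hσ⟩ := exists_lo (D i f)
  have hσ0 : D i f σ = 0 := hσ.trans hx
  have hall : ∀ t, D i f t = 0 := by
    refine flip_induction (P := fun t => D i f t = 0) hσ0 fun t v ht => ?_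
    have hmin : ∀ s, D i f t ≤ D i f s := fun s => by rw [ht]; exact D_nonneg hf i s
    by_cases hv : v = i
    · subst hv
      unfold flip
      rw [D_update]
      exact ht
    · have h1 := id1 hA h i t
      rw [ht, mul_zero, zero_add] at h1
      have h2 : 0 ≤ ∑ v ∈ univ.erase i, D i (tau A v) t * M i (D v f) t :=
        Finset.sum_nonneg fun v _ => mul_nonneg (D_tau_nonneg hA v i t) (M_D_nonneg hf i v t)
      have h3 : ∀ v ∈ univ.erase i, (sp v t - M i (tau A v) t) * D v (D i f) t ≤ 0 :=
        fun v _ => min_principle hmin v (abs_M_tau_le A i v t)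
      have h4 : ∑ v ∈ univ.erase i, (sp v t - M i (tau A v) t) * D v (D i f) t = 0 :=
        le_antisymm (Finset.sum_nonpos h3) (by rw [h1]; exact h2)
      have h5 := (Finset.sum_eq_zero_iff_of_nonpos h3).1 h4 v
        (Finset.mem_erase.2 ⟨hv, Finset.mem_univ v⟩)
      have h6 : |M i (tau A v) t| < 1 := by
        have e1 := abs_lt.1 (abs_tau_lt_one A v (Function.update t i true))
        have e2 := abs_lt.1 (abs_tau_lt_one A v (Function.update t i false))
        unfold M
        exact abs_lt.2 ⟨by linarith, by linarith⟩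
      have h7 : sp v t - M i (tau A v) t ≠ 0 := by
        have e1 := abs_lt.1 h6
        unfold sp spin
        split_ifs
        · intro h; linarith
        · intro h; linarith
      have h8 : D v (D i f) t = 0 := (mul_eq_zero.1 h5).resolve_left h7
      have h9 := sub_flip v (D i f) t
      rw [h8, mul_zero, ht] at h9
      linarith
  obtain ⟨τ, hτ⟩ := exists_hi (D i f)
  exact hτ.symm.trans (hall τ)

theorem second (hA : Coup A) (hrow : ∀ v, ∑ u, A v u ≤ δ) (hf : Monotone f)
    (h : Eig A f lam) {i k : V} (hik : i ≠ k) :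
    (2 - lam) * FF f i k ≤
      ∑ v, (A v k * FF f i v + A v i * FF f k v + 2 * δ * A v i * A v k * XX f v) := by
  have hδ0 : 0 ≤ δ := (Finset.sum_nonneg fun u _ => hA.nonneg i u).trans (hrow i)
  obtain ⟨σ, hσ⟩ := exists_hi (fun σ => |D k (D i f) σ|)
  have hσ' : |D k (D i f) σ| = FF f i k := hσ
  -- the right side is bounded termwise
  have h1 := id2 hA h hik σ
  have hR : |∑ v ∈ (univ.erase i).erase k,
        (D k (M i (tau A v)) σ * M k (D v (D i f)) σ +
          D k (D i (tau A v)) σ * M k (M i (D v f)) σ +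
          M k (D i (tau A v)) σ * M i (D k (D v f)) σ)| ≤
      ∑ v, (A v k * FF f i v + A v i * FF f k v + 2 * δ * A v i * A v k * XX f v) := by
    refine (Finset.abs_sum_le_sum_abs _ _).trans ?_
    refine (Finset.sum_le_sum (g := fun v => A v k * FF f i v + A v i * FF f k v +
      2 * δ * A v i * A v k * XX f v) fun v _ => ?_).trans
      (Finset.sum_le_sum_of_subset_of_nonneg (Finset.subset_univ _) fun v _ _ => ?_)
    · have a1 : |D k (M i (tau A v)) σ| ≤ A v k := by
        rw [D_M_comm hik.symm]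
        refine abs_M_le (fun t => ?_) σ
        rw [abs_of_nonneg (D_tau_nonneg hA v k t)]
        exact D_tau_le hA v k t
      have a2 : |M k (D v (D i f)) σ| ≤ FF f i v := abs_M_le (fun t => abs_DD_le f i v t) σ
      have a3 : |D k (D i (tau A v)) σ| ≤ 2 * δ * A v i * A v k :=
        abs_DD_tau_le hA hrow hik v σ
      have a4 : |M k (M i (D v f)) σ| ≤ XX f v := by
        refine abs_M_le (fun t => ?_) σ
        rw [abs_of_nonneg (M_D_nonneg hf i v t)]
        exact M_le (fun s => le_XX f v s) t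
      have a5 : |M k (D i (tau A v)) σ| ≤ A v i := by
        refine abs_M_le (fun t => ?_) σ
        rw [abs_of_nonneg (D_tau_nonneg hA v i t)]
        exact D_tau_le hA v i t
      have a6 : |M i (D k (D v f)) σ| ≤ FF f k v := by
        rw [FF_symm]
        exact abs_M_le (fun t => abs_DD_le f v k t) σ
      have b1 := mul_le_mul a1 a2 (abs_nonneg _) (hA.nonneg _ _)
      have b2 := mul_le_mul a3 a4 (abs_nonneg _)
        (mul_nonneg (mul_nonneg (by linarith) (hA.nonneg _ _)) (hA.nonneg _ _))
      have b3 := mul_le_mul a5 a6 (abs_nonneg _) (hA.nonneg _ _)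
      rw [← abs_mul] at b1 b2 b3
      have c1 := abs_add_le (D k (M i (tau A v)) σ * M k (D v (D i f)) σ +
          D k (D i (tau A v)) σ * M k (M i (D v f)) σ)
          (M k (D i (tau A v)) σ * M i (D k (D v f)) σ)
      have c2 := abs_add_le (D k (M i (tau A v)) σ * M k (D v (D i f)) σ)
          (D k (D i (tau A v)) σ * M k (M i (D v f)) σ)
      linarith
    · have e1 := mul_nonneg (hA.nonneg v k) (FF_nonneg f i v)
      have e2 := mul_nonneg (hA.nonneg v i) (FF_nonneg f k v)
      have e3 : 0 ≤ 2 * δ * A v i * A v k * XX f v :=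
        mul_nonneg (mul_nonneg (mul_nonneg (by linarith) (hA.nonneg _ _)) (hA.nonneg _ _))
          (XX_nonneg hf v)
      linarith
  have hR' := abs_le.1 hR
  rcases le_total 0 (D k (D i f) σ) with hpos | hneg
  · have e1 : D k (D i f) σ = FF f i k := by rw [← hσ', abs_of_nonneg hpos]
    have hmax : ∀ t, D k (D i f) t ≤ D k (D i f) σ := fun t => by
      rw [e1]; exact (le_abs_self _).trans (abs_DD_le f i k t)
    have h2 : 0 ≤ ∑ v ∈ (univ.erase i).erase k,
        (sp v σ - M k (M i (tau A v)) σ) * D v (D k (D i f)) σ :=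
      Finset.sum_nonneg fun v _ => max_principle hmax v (abs_MM_tau_le A i k v σ)
    rw [e1] at h1
    linarith
  · have e1 : D k (D i f) σ = -FF f i k := by rw [← hσ', abs_of_nonpos hneg]; ring
    have hmin : ∀ t, D k (D i f) σ ≤ D k (D i f) t := fun t => by
      rw [e1]; exact (abs_le.1 (abs_DD_le f i k t)).1
    have h2 : ∑ v ∈ (univ.erase i).erase k,
        (sp v σ - M k (M i (tau A v)) σ) * D v (D k (D i f)) σ ≤ 0 :=
      Finset.sum_nonpos fun v _ => min_principle hmin v (abs_MM_tau_le A i k v σ)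
    rw [e1] at h1
    linarith

/-- `lam ≤ 1` and `1 - lam ≤ δ` for a nonconstant `f`. -/
theorem lam_bounds (hA : Coup A) (hδ : δ < 1) (hrow : ∀ v, ∑ u, A v u ≤ δ) (hf : Monotone f)
    (h : Eig A f lam) (hne : ∃ i, XX f i ≠ 0) : lam ≤ 1 ∧ 1 - lam ≤ δ := by
  obtain ⟨j, hj⟩ := hne
  have hδ0 : 0 ≤ δ := (Finset.sum_nonneg fun u _ => hA.nonneg j u).trans (hrow j)
  constructor
  · have h1 : xx f j ≠ 0 := fun h0 => hj (dichotomy hA hf h j h0)
    have h2 : 0 < xx f j := lt_of_le_of_ne (xx_nonneg hf j) h1.symm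
    have h3 := harnack hA hrow hf h j
    have h4 : 0 ≤ ∑ v, A v j * xx f v :=
      Finset.sum_nonneg fun v _ => mul_nonneg (hA.nonneg _ _) (xx_nonneg hf v)
    have h5 : 0 ≤ 1 - δ ^ 2 := by nlinarith
    have h6 : 0 ≤ (1 - lam) * xx f j := (mul_nonneg h5 h4).trans h3
    by_contra h7
    push Not at h7
    have h8 : (1 - lam) * xx f j < 0 := mul_neg_of_neg_of_pos (by linarith) h2
    linarith
  · obtain ⟨i, -, hi⟩ := Finset.exists_max_image Finset.univ (XX f) ⟨j, Finset.mem_univ j⟩
    have h2 : 0 < XX f i :=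
      (lt_of_le_of_ne (XX_nonneg hf j) hj.symm).trans_le (hi j (Finset.mem_univ j))
    have h3 := max_slope hA hf h i
    have h4 : ∑ v, A v i * XX f v ≤ δ * XX f i := by
      calc ∑ v, A v i * XX f v ≤ ∑ v, A i v * XX f i :=
            Finset.sum_le_sum fun v _ => by
              rw [hA.symm v i]
              exact mul_le_mul_of_nonneg_left (hi v (Finset.mem_univ v)) (hA.nonneg _ _)
        _ = (∑ v, A i v) * XX f i := by rw [Finset.sum_mul]
        _ ≤ δ * XX f i := mul_le_mul_of_nonneg_right (hrow i) h2.le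
    exact le_of_mul_le_mul_right (h3.trans h4) h2

end BND

end Pool.Agent.Lib.MP_f82811_pr.HT
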