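import Pool.Agent.Lib.MP_f82811_pr.HT.Defs
import Pool.Agent.Lib.MP_f82811_pr.CompleteGraph

/-!
# High temperature: calculus of half differences and averages
-/

set_option autoImplicit false

namespace Pool.Agent.Lib.MP_f82811_pr.HT

open Finset

variable {V : Type*} [Fintype V] [DecidableEq V]

section NoFin

omit [Fintype V]

theorem spin_true : spin true = 1 := rfl

theorem spin_false : spin false = -1 := by simp [spin]

omit [DecidableEq V] in
theorem abs_sp (v : V) (σ : V → Bool) : |sp v σ| = 1 := by
  unfold sp spin
  cases σ v <;> simp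

theorem D_update (i : V) (g : (V → Bool) → ℝ) (σ : V → Bool) (b : Bool) :
    D i g (Function.update σ i b) = D i g σ := by
  unfold D
  rw [Function.update_idem, Function.update_idem]

theorem M_update (i : V) (g : (V → Bool) → ℝ) (σ : V → Bool) (b : Bool) :
    M i g (Function.update σ i b) = M i g σ := by
  unfold M
  rw [Function.update_idem, Function.update_idem]

theorem D_comm (i k : V) (g : (V → Bool) → ℝ) : D i (D k g) = D k (D i g) := by
  by_cases h : i = k
  · rw [h]
  · funext σ
    unfold D
    rw [Function.update_comm h, Function.update_comm h, Function.update_comm h,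
      Function.update_comm h]
    ring

theorem D_M_comm {i k : V} (h : i ≠ k) (g : (V → Bool) → ℝ) : D i (M k g) = M k (D i g) := by
  funext σ
  unfold D M
  simp only
  rw [Function.update_comm h, Function.update_comm h, Function.update_comm h,
    Function.update_comm h]
  ring

theorem M_comm (i k : V) (g : (V → Bool) → ℝ) : M i (M k g) = M k (M i g) := by
  by_cases h : i = k
  · rw [h]
  · funext σ
    unfold M
    rw [Function.update_comm h, Function.update_comm h, Function.update_comm h,
      Function.update_comm h]
    ring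

/-- If `g` does not depend on the spin `i` then `D i g = 0` and `M i g = g`. -/
theorem indep_DM {i : V} {g : (V → Bool) → ℝ} (h : ∀ σ b, g (Function.update σ i b) = g σ) :
    (∀ σ, D i g σ = 0) ∧ M i g = g := by
  constructor
  · intro σ
    unfold D
    rw [h, h]
    ring
  · funext σ
    unfold M
    rw [h, h]
    ring

theorem D_self (i : V) (g : (V → Bool) → ℝ) (σ : V → Bool) : D i (D i g) σ = 0 :=
  (indep_DM (D_update i g)).1 σ

theorem M_D_self (i : V) (g : (V → Bool) → ℝ) : M i (D i g) = D i g :=
  (indep_DM (D_update i g)).2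

theorem D_mul (i : V) (g h : (V → Bool) → ℝ) (σ : V → Bool) :
    D i (fun σ => g σ * h σ) σ = M i g σ * D i h σ + D i g σ * M i h σ := by
  unfold D M
  ring

theorem M_mul (i : V) (g h : (V → Bool) → ℝ) (σ : V → Bool) :
    M i (fun σ => g σ * h σ) σ = M i g σ * M i h σ + D i g σ * D i h σ := by
  unfold D M
  ring

theorem update_true (i : V) (f : (V → Bool) → ℝ) (σ : V → Bool) :
    f (Function.update σ i true) = M i f σ + D i f σ := by unfold M D; ring

theorem update_false (i : V) (f : (V → Bool) → ℝ) (σ : V → Bool) :
    f (Function.update σ i false) = M i f σ - D i f σ := by unfold M D; ring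

theorem eq_M_add (i : V) (g : (V → Bool) → ℝ) (σ : V → Bool) :
    g σ = M i g σ + sp i σ * D i g σ := by
  have h := Function.update_eq_self i σ
  unfold M D sp
  cases hb : σ i
  · rw [hb] at h
    rw [h, spin_false]
    ring
  · rw [hb] at h
    rw [h, spin_true]
    ring

theorem sp_update_self (i : V) (σ : V → Bool) (b : Bool) :
    sp i (Function.update σ i b) = spin b := by
  unfold sp
  rw [Function.update_self]

theorem sp_update_ne {i v : V} (h : v ≠ i) (σ : V → Bool) (b : Bool) :
    sp v (Function.update σ i b) = sp v σ := by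
  unfold sp
  rw [Function.update_of_ne h]

theorem D_sp_self (i : V) (σ : V → Bool) : D i (sp i) σ = 1 := by
  unfold D
  rw [sp_update_self, sp_update_self, spin_true, spin_false]
  ring

theorem M_sp_self (i : V) (σ : V → Bool) : M i (sp i) σ = 0 := by
  unfold M
  rw [sp_update_self, sp_update_self, spin_true, spin_false]
  ring

theorem D_sp_ne {i v : V} (h : v ≠ i) (σ : V → Bool) : D i (sp v) σ = 0 :=
  (indep_DM (sp_update_ne h)).1 σ

theorem M_sp_ne {i v : V} (h : v ≠ i) : M i (sp v) = sp v :=
  (indep_DM (sp_update_ne h)).2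

theorem D_nonneg {f : (V → Bool) → ℝ} (hf : Monotone f) (i : V) (σ : V → Bool) :
    0 ≤ D i f σ := by
  unfold D
  have h1 : Function.update σ i false ≤ Function.update σ i true := by
    intro j
    by_cases hj : j = i
    · subst hj; simp
    · rw [Function.update_of_ne hj, Function.update_of_ne hj]
  linarith [hf h1]

omit [DecidableEq V] in
theorem sp_sq (v : V) (σ : V → Bool) : sp v σ * sp v σ = 1 := by
  unfold sp
  exact spin_sq _

theorem sp_flip_self (v : V) (σ : V → Bool) : sp v (flip v σ) = -sp v σ := by
  unfold flip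
  rw [sp_update_self]
  unfold sp
  exact spin_not _

/-- A function is recovered from its values at two configurations differing at `v`. -/
theorem sub_flip (v : V) (g : (V → Bool) → ℝ) (σ : V → Bool) :
    g σ - g (flip v σ) = 2 * sp v σ * D v g σ := by
  have h1 := eq_M_add v g σ
  have h2 := eq_M_add v g (flip v σ)
  rw [sp_flip_self] at h2
  have h3 : M v g (flip v σ) = M v g σ := M_update v g σ _
  have h4 : D v g (flip v σ) = D v g σ := D_update v g σ _
  rw [h3, h4] at h2
  rw [h1, h2]
  ring

theorem M_le {i : V} {f : (V → Bool) → ℝ} {B : ℝ} (h : ∀ σ, f σ ≤ B) (σ : V → Bool) :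
    M i f σ ≤ B := by
  unfold M
  linarith [h (Function.update σ i true), h (Function.update σ i false)]

theorem le_M {i : V} {f : (V → Bool) → ℝ} {B : ℝ} (h : ∀ σ, B ≤ f σ) (σ : V → Bool) :
    B ≤ M i f σ := by
  unfold M
  linarith [h (Function.update σ i true), h (Function.update σ i false)]

theorem abs_M_le {i : V} {f : (V → Bool) → ℝ} {B : ℝ} (h : ∀ σ, |f σ| ≤ B) (σ : V → Bool) :
    |M i f σ| ≤ B := by
  rw [abs_le]
  exact ⟨le_M (fun τ => (abs_le.1 (h τ)).1) σ, M_le (fun τ => (abs_le.1 (h τ)).2) σ⟩

end NoFin

omit [Fintype V] in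
theorem D_sum' {ι : Type*} (s : Finset ι) (i : V) (g : ι → (V → Bool) → ℝ)
    (σ : V → Bool) :
    D i (fun σ => ∑ v ∈ s, g v σ) σ = ∑ v ∈ s, D i (g v) σ := by
  unfold D
  rw [← Finset.sum_div, Finset.sum_sub_distrib]

omit [Fintype V] in
theorem M_sum' {ι : Type*} (s : Finset ι) (i : V) (g : ι → (V → Bool) → ℝ)
    (σ : V → Bool) :
    M i (fun σ => ∑ v ∈ s, g v σ) σ = ∑ v ∈ s, M i (g v) σ := by
  unfold M
  rw [← Finset.sum_div, Finset.sum_add_distrib]

theorem D_sum (i : V) (g : V → (V → Bool) → ℝ) (σ : V → Bool) :
    D i (fun σ => ∑ v, g v σ) σ = ∑ v, D i (g v) σ := D_sum' _ i g σ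

theorem M_sum (i : V) (g : V → (V → Bool) → ℝ) (σ : V → Bool) :
    M i (fun σ => ∑ v, g v σ) σ = ∑ v, M i (g v) σ := M_sum' _ i g σ

/-- The oscillation is bounded by twice the sum of the sup norms of the differences. -/
theorem osc_le {g : (V → Bool) → ℝ} {B : V → ℝ} (hB : ∀ v σ, |D v g σ| ≤ B v) (σ τ : V → Bool) :
    g σ - g τ ≤ 2 * ∑ v, B v := by
  have key : ∀ s : Finset V, ∀ σ τ : V → Bool, (∀ v, v ∉ s → σ v = τ v) →
      g σ - g τ ≤ 2 * ∑ v ∈ s, B v := by
    intro s
    induction s using Finset.induction_on with
    | empty =>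
      intro σ τ h
      have : σ = τ := funext fun v => h v (Finset.notMem_empty v)
      rw [this]
      simp
    | insert a s ha ih =>
      intro σ τ h
      have h1 := ih (Function.update σ a (τ a)) τ (by
        intro v hv
        by_cases hva : v = a
        · subst hva
          rw [Function.update_self]
        · rw [Function.update_of_ne hva]
          exact h v (by simp [hva, hv]))
      rw [Finset.sum_insert ha]
      have h2 : g σ - g (Function.update σ a (τ a)) ≤ 2 * B a := by
        have e1 := eq_M_add a g σ
        have e2 := eq_M_add a g (Function.update σ a (τ a))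
        rw [M_update, D_update, sp_update_self] at e2
        have e3 := abs_le.1 (hB a σ)
        rw [e1, e2]
        have e4 : sp a σ = 1 ∨ sp a σ = -1 := by
          unfold sp spin
          cases σ a <;> simp
        have e5 : spin (τ a) = 1 ∨ spin (τ a) = -1 := by
          unfold spin
          cases τ a <;> simp
        rcases e4 with e4 | e4 <;> rcases e5 with e5 | e5 <;> rw [e4, e5] <;>
          linarith [e3.1, e3.2]
      linarith
  exact key univ σ τ fun v hv => absurd (Finset.mem_univ v) hv

/-- Sums over the cube. -/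
theorem sum_M (v : V) (F : (V → Bool) → ℝ) : ∑ σ, M v F σ = ∑ σ, F σ := by
  have h1 : ∀ σ : V → Bool, M v F σ = (F σ + F (flip v σ)) / 2 := by
    intro σ
    have h1 := eq_M_add v F σ
    have h2 := sub_flip v F σ
    linear_combination h2 / 2 - h1
  rw [Finset.sum_congr rfl fun σ _ => h1 σ, ← Finset.sum_div, Finset.sum_add_distrib,
    sum_flip v F]
  ring

end Pool.Agent.Lib.MP_f82811_pr.HT
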