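import Pool.Agent.Lib.MP_f82811_pr.Compare

/-!
# High temperature: definitions

Half differences `D`, averages `M`, local fields and the quadratic weight of a coupling matrix.
-/

set_option autoImplicit false

namespace Pool.Agent.Lib.MP_f82811_pr.HT

open Finset

variable {V : Type*} [Fintype V] [DecidableEq V]

/-- The spin at `v`. -/
def sp (v : V) (σ : V → Bool) : ℝ := spin (σ v)

/-- Half of the difference in direction `i`. -/
noncomputable def D (i : V) (g : (V → Bool) → ℝ) (σ : V → Bool) : ℝ :=
  (g (Function.update σ i true) - g (Function.update σ i false)) / 2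

/-- The average in direction `i`. -/
noncomputable def M (i : V) (g : (V → Bool) → ℝ) (σ : V → Bool) : ℝ :=
  (g (Function.update σ i true) + g (Function.update σ i false)) / 2

/-- The local field at `v`. -/
noncomputable def fld (A : V → V → ℝ) (v : V) (σ : V → Bool) : ℝ := ∑ u, A v u * sp u σ

/-- The conditional mean of the spin at `v`. -/
noncomputable def tau (A : V → V → ℝ) (v : V) (σ : V → Bool) : ℝ := Real.tanh (fld A v σ)

/-- The energy `(1/2) ∑ A u v σ_u σ_v`. -/
noncomputable def en (A : V → V → ℝ) (σ : V → Bool) : ℝ :=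
  (∑ u, ∑ v, A u v * sp u σ * sp v σ) / 2

/-- The unnormalised Gibbs weight. -/
noncomputable def W (A : V → V → ℝ) (σ : V → Bool) : ℝ := Real.exp (en A σ)

/-- Symmetric nonnegative couplings without diagonal. -/
structure Coup (A : V → V → ℝ) : Prop where
  symm : ∀ u v, A u v = A v u
  nonneg : ∀ u v, 0 ≤ A u v
  diag : ∀ v, A v v = 0

/-- The eigenfunction equation `∑_v (σ_v - τ_v) D_v f = lam f`. -/
def Eig (A : V → V → ℝ) (f : (V → Bool) → ℝ) (lam : ℝ) : Prop :=
  ∀ σ, ∑ v, (sp v σ - tau A v σ) * D v f σ = lam * f σ

/-- The smallest value. -/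
noncomputable def lo (g : (V → Bool) → ℝ) : ℝ := Finset.univ.inf' Finset.univ_nonempty g

/-- The largest value. -/
noncomputable def hi (g : (V → Bool) → ℝ) : ℝ := Finset.univ.sup' Finset.univ_nonempty g

/-- The smallest slope of `f` in direction `i`. -/
noncomputable def xx (f : (V → Bool) → ℝ) (i : V) : ℝ := lo (D i f)

/-- The largest slope of `f` in direction `i`. -/
noncomputable def XX (f : (V → Bool) → ℝ) (i : V) : ℝ := hi (D i f)

/-- The largest absolute second difference. -/
noncomputable def FF (f : (V → Bool) → ℝ) (i k : V) : ℝ := hi (fun σ => |D k (D i f) σ|)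

end Pool.Agent.Lib.MP_f82811_pr.HT
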