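import Pool.Agent.Lib.MP_f82811_pr.HT.Defs

/-!
# The Ising model on a graph in matrix form
-/

set_option autoImplicit false

namespace Pool.Agent.Lib.MP_f82811_pr.HT

open Finset

variable {V : Type*} [Fintype V] [DecidableEq V]

/-- The coupling matrix of a graph. -/
noncomputable def mat (G : SimpleGraph V) [DecidableRel G.Adj] (J : Sym2 V → ℝ) (u v : V) : ℝ :=
  if G.Adj u v then J s(u, v) else 0

theorem en_mat (G : SimpleGraph V) [DecidableRel G.Adj] (J : Sym2 V → ℝ) (σ : V → Bool) :
    en (mat G J) σ = ∑ e ∈ G.edgeFinset, J e * bond σ e := by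
  have h1 : ∑ u, ∑ v, mat G J u v * sp u σ * sp v σ =
      ∑ d : G.Dart, J d.edge * bond σ d.edge := by
    have h2 : ∑ d : G.Dart, J d.edge * bond σ d.edge =
        ∑ p ∈ (univ : Finset (V × V)).filter (fun p => G.Adj p.1 p.2),
          J s(p.1, p.2) * bond σ s(p.1, p.2) := by
      refine Finset.sum_bij (fun d _ => d.toProd) ?_ ?_ ?_ ?_
      · intro d _
        simp only [Finset.mem_filter, Finset.mem_univ, true_and]
        exact d.adj
      · intro d _ d' _ h
        exact SimpleGraph.Dart.ext _ _ h
      · intro p hp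
        simp only [Finset.mem_filter, Finset.mem_univ, true_and] at hp
        exact ⟨⟨p, hp⟩, Finset.mem_univ _, rfl⟩
      · intro d _
        rfl
    rw [h2, Finset.sum_filter, ← Finset.univ_product_univ, Finset.sum_product]
    refine Finset.sum_congr rfl fun u _ => Finset.sum_congr rfl fun v _ => ?_
    unfold mat
    split_ifs with h
    · rw [bond_mk]
      unfold sp
      ring
    · ring
  have h3 : ∑ d : G.Dart, J d.edge * bond σ d.edge =
      2 * ∑ e ∈ G.edgeFinset, J e * bond σ e := by
    have h4 : ∀ d ∈ (univ : Finset G.Dart), d.edge ∈ G.edgeFinset := fun d _ => by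
      rw [SimpleGraph.mem_edgeFinset]
      exact d.edge_mem
    rw [← Finset.sum_fiberwise_of_maps_to h4, Finset.mul_sum]
    refine Finset.sum_congr rfl fun e he => ?_
    have h5 : ∑ d ∈ (univ : Finset G.Dart).filter (fun d => d.edge = e), J d.edge * bond σ d.edge =
        ∑ d ∈ (univ : Finset G.Dart).filter (fun d => d.edge = e), J e * bond σ e := by
      refine Finset.sum_congr rfl fun d hd => ?_
      rw [(Finset.mem_filter.1 hd).2]
    rw [h5, Finset.sum_const, G.dart_edge_fiber_card e (SimpleGraph.mem_edgeFinset.1 he),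
      nsmul_eq_mul]
    norm_num
  unfold en
  rw [h1, h3]
  ring

theorem weight_eq_W (G : SimpleGraph V) [DecidableRel G.Adj] (J : Sym2 V → ℝ) :
    weight G J = W (mat G J) := by
  funext σ
  unfold weight W
  rw [en_mat]

omit [Fintype V] [DecidableEq V] in
theorem coup_mat (G : SimpleGraph V) [DecidableRel G.Adj] {J : Sym2 V → ℝ}
    (hJ : ∀ e ∈ G.edgeSet, 0 ≤ J e) : Coup (mat G J) where
  symm u v := by
    unfold mat
    by_cases h : G.Adj u v
    · rw [if_pos h, if_pos h.symm, Sym2.eq_swap]
    · rw [if_neg h, if_neg (fun h' => h h'.symm)]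
  nonneg u v := by
    unfold mat
    split_ifs with h
    · exact hJ _ h
    · exact le_rfl
  diag v := by
    unfold mat
    rw [if_neg (G.irrefl)]

omit [DecidableEq V] in
theorem sum_mat (G : SimpleGraph V) [DecidableRel G.Adj] (J : Sym2 V → ℝ) (v : V) :
    ∑ u, mat G J v u = ∑ u ∈ G.neighborFinset v, J s(v, u) := by
  unfold mat
  rw [← Finset.sum_filter]
  refine Finset.sum_congr ?_ fun _ _ => rfl
  ext u
  simp

end Pool.Agent.Lib.MP_f82811_pr.HT
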