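import Pool.Agent.Lib.MP_f82811_pr.HT.Eig

/-!
# Comparison along a segment of weights `w exp (s Q)`
-/

set_option autoImplicit false

namespace Pool.Agent.Lib.MP_f82811_pr.HT

open Finset

variable {V : Type*} [Fintype V] [DecidableEq V] {w : (V → Bool) → ℝ}

theorem sum_defect_zero (hw : ∀ σ, 0 < w σ) (f : (V → Bool) → ℝ) :
    ∑ σ, w σ * defect w f σ = 0 := by
  have h1 : ∑ σ, w σ * defect w f σ =
      ∑ k, ∑ σ, w σ * (ce w k f σ * (f σ - ce w k f σ)) := by
    rw [Finset.sum_comm]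
    refine Finset.sum_congr rfl fun σ _ => ?_
    unfold defect
    rw [Finset.mul_sum]
  rw [h1]
  refine Finset.sum_eq_zero fun k _ => ?_
  have h2 : ∑ σ, w σ * (ce w k f σ * (f σ - ce w k f σ)) =
      ip w f (ce w k f) - ip w (ce w k f) (ce w k f) := by
    unfold ip
    rw [← Finset.sum_sub_distrib]
    exact Finset.sum_congr rfl fun σ _ => by ring
  rw [h2, ip_ce hw k f f, sub_self]

/-- The gap is nonnegative. -/
theorem gap_nonneg (hw : ∀ σ, 0 < w σ) : 0 ≤ gap (normalize w) := by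
  apply Real.sInf_nonneg
  rintro r ⟨f, hf, rfl⟩
  apply div_nonneg _ hf.le
  rw [dirichlet_eq hw]
  have h1 := dir_nonneg hw f
  have h2 := sum_pos' hw
  positivity

/-- The gap dominates the bottom of the odd spectrum. -/
theorem le_gap_of_odd [Nonempty V] (hw : ∀ σ, 0 < w σ) (hsym : ∀ σ, w (neg σ) = w σ)
    (hfkg : ∀ σ τ, w σ * w τ ≤ w (σ ⊓ τ) * w (σ ⊔ τ)) {ρ : ℝ}
    (hρ : ∀ g : (V → Bool) → ℝ, Odd' g → ip w g (ceSum w g) ≤ ρ * ip w g g) :
    2 * ((Fintype.card V : ℝ) - ρ) ≤ 2 * (Fintype.card V : ℝ) * gap (normalize w) := by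
  apply le_gap hw
  intro g hg
  apply poincare_of_odd hw hsym hfkg _ hg
  intro k hk
  have h1 := hρ k hk
  rw [dir_eq hw]
  linarith

theorem gap_eq [Nonempty V] (hw : ∀ σ, 0 < w σ) (hsym : ∀ σ, w (neg σ) = w σ)
    (hfkg : ∀ σ τ, w σ * w τ ≤ w (σ ⊓ τ) * w (σ ⊔ τ)) {f : (V → Bool) → ℝ} {ρ : ℝ}
    (hodd : Odd' f) (hone : ip w f f = 1) (heig : ceSum w f = fun σ => ρ * f σ)
    (hρ : ∀ g : (V → Bool) → ℝ, Odd' g → ip w g (ceSum w g) ≤ ρ * ip w g g) :
    (Fintype.card V : ℝ) * gap (normalize w) = (Fintype.card V : ℝ) - ρ := by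
  have h1 := le_gap_of_odd hw hsym hfkg hρ
  have h2 := poincare_of_gap hw (g := f) (ip_odd_even hsym hodd (fun _ => rfl))
  have h3 : ip w f (ceSum w f) = ρ := by
    rw [heig, ip_smul_right, hone, mul_one]
  rw [dir_eq hw, h3, hone] at h2
  linarith

/-- The gap is at most `1 / n`. -/
theorem gap_le_inv [Nonempty V] (hw : ∀ σ, 0 < w σ) (hsym : ∀ σ, w (neg σ) = w σ) :
    (Fintype.card V : ℝ) * gap (normalize w) ≤ 1 := by
  obtain ⟨v⟩ := (inferInstance : Nonempty V)
  have hodd : Odd' (sp v) := by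
    intro σ
    unfold sp neg
    rw [spin_not]
  have h2 := poincare_of_gap hw (g := sp v) (ip_odd_even hsym hodd (fun _ => rfl))
  rw [dir_eq hw] at h2
  have hpos : 0 < ip w (sp v) (sp v) := by
    apply ip_self_pos hw (σ := fun _ => true)
    simp [sp, spin]
  have h3 : ((Fintype.card V : ℝ) - 1) * ip w (sp v) (sp v) ≤
      ip w (sp v) (ceSum w (sp v)) := by
    have e1 : ip w (sp v) (ceSum w (sp v)) = ∑ k, ip w (sp v) (ce w k (sp v)) :=
      ip_sum_right _ _
    have e2 : ((Fintype.card V : ℝ) - 1) * ip w (sp v) (sp v) =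
        ∑ k ∈ univ.erase v, ip w (sp v) (sp v) := by
      rw [Finset.sum_const, Finset.card_erase_of_mem (Finset.mem_univ v), Finset.card_univ,
        nsmul_eq_mul]
      have hn : 1 ≤ Fintype.card V := Fintype.card_pos_iff.2 ⟨v⟩
      push_cast [Nat.cast_sub hn]
      ring
    rw [e1, e2, ← Finset.add_sum_erase _ _ (Finset.mem_univ v)]
    have e3 : 0 ≤ ip w (sp v) (ce w v (sp v)) := by
      rw [ip_ce hw]
      exact ip_self_nonneg hw _
    have e4 : ∑ k ∈ univ.erase v, ip w (sp v) (sp v) ≤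
        ∑ k ∈ univ.erase v, ip w (sp v) (ce w k (sp v)) := by
      refine Finset.sum_le_sum fun k hk => le_of_eq ?_
      have hkv : v ≠ k := (Finset.ne_of_mem_erase hk).symm
      congr 1
      funext σ
      unfold ce
      have e5 : sp v (flip k σ) = sp v σ := by
        unfold sp flip
        rw [Function.update_of_ne hkv]
      rw [e5]
      have e6 : w σ + w (flip k σ) ≠ 0 := (add_pos (hw _) (hw _)).ne'
      field_simp
    linarith
  have h4 : ((Fintype.card V : ℝ) * gap (normalize w)) * ip w (sp v) (sp v) ≤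
      1 * ip w (sp v) (sp v) := by nlinarith
  exact le_of_mul_le_mul_right h4 hpos

/-- Comparison of the gaps of comparable weights. -/
theorem gap_ratio [Nonempty V] {w' : (V → Bool) → ℝ} (hw : ∀ σ, 0 < w σ)
    (hsym : ∀ σ, w (neg σ) = w σ)
    (hw' : ∀ σ, 0 < w' σ) (hsym' : ∀ σ, w' (neg σ) = w' σ)
    (hfkg' : ∀ σ τ, w' σ * w' τ ≤ w' (σ ⊓ τ) * w' (σ ⊔ τ)) {c : ℝ} (hc : 0 < c)
    (h1 : ∀ σ, w σ ≤ c * w' σ) (h2 : ∀ σ, w' σ ≤ c * w σ) :
    gap (normalize w) ≤ c ^ 2 * gap (normalize w') := by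
  have hn : (0 : ℝ) < Fintype.card V := by exact_mod_cast Fintype.card_pos
  have hg0 := gap_nonneg hw
  have key : 2 * (Fintype.card V : ℝ) * gap (normalize w) / c ^ 2 ≤
      2 * (Fintype.card V : ℝ) * gap (normalize w') := by
    apply le_gap hw'
    intro g hg
    apply poincare_of_odd hw' hsym' hfkg' _ hg
    intro k hk
    have e1 := poincare_of_gap hw (g := k) (ip_odd_even hsym hk (fun _ => rfl))
    have e2 : dir w k ≤ c * dir w' k := by
      unfold dir
      rw [Finset.mul_sum]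
      refine Finset.sum_le_sum fun σ _ => ?_
      rw [Finset.mul_sum]
      refine Finset.sum_le_sum fun v _ => ?_
      rw [← mul_assoc]
      refine mul_le_mul_of_nonneg_right ?_ (sq_nonneg _)
      have a0 := hw σ
      have b0 := hw (flip v σ)
      have c0 := hw' σ
      have d0 := hw' (flip v σ)
      have a1 := h1 σ
      have b1 := h1 (flip v σ)
      generalize w σ = a at *
      generalize w (flip v σ) = b at *
      generalize w' σ = p at *
      generalize w' (flip v σ) = q at *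
      rw [← mul_div_assoc, div_le_div_iff₀ (add_pos a0 b0) (add_pos c0 d0)]
      have e3 : a * (b * p) ≤ c * (p * q) * a := by nlinarith [mul_pos a0 c0]
      have e4 : a * (b * q) ≤ c * (p * q) * b := by nlinarith [mul_pos b0 d0]
      nlinarith
    have e3 : ip w' k k ≤ c * ip w k k := by
      unfold ip
      rw [Finset.mul_sum]
      refine Finset.sum_le_sum fun σ _ => ?_
      calc w' σ * (k σ * k σ) ≤ c * w σ * (k σ * k σ) :=
            mul_le_mul_of_nonneg_right (h2 σ) (mul_self_nonneg _)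
        _ = _ := by ring
    have e4 : 0 ≤ 2 * (Fintype.card V : ℝ) * gap (normalize w) := by positivity
    rw [div_mul_eq_mul_div, div_le_iff₀ (by positivity)]
    calc 2 * (Fintype.card V : ℝ) * gap (normalize w) * ip w' k k
        ≤ 2 * (Fintype.card V : ℝ) * gap (normalize w) * (c * ip w k k) :=
          mul_le_mul_of_nonneg_left e3 e4
      _ = c * (2 * (Fintype.card V : ℝ) * gap (normalize w) * ip w k k) := by ring
      _ ≤ c * dir w k := mul_le_mul_of_nonneg_left e1 hc.le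
      _ ≤ c * (c * dir w' k) := mul_le_mul_of_nonneg_left e2 hc.le
      _ = dir w' k * c ^ 2 := by ring
  rw [div_le_iff₀ (by positivity)] at key
  have h3 : 2 * (Fintype.card V : ℝ) * gap (normalize w) ≤
      2 * (Fintype.card V : ℝ) * (c ^ 2 * gap (normalize w')) := by
    calc _ ≤ _ := key
      _ = _ := by ring
  exact le_of_mul_le_mul_left h3 (by positivity)

/-- Comparison through the defect of the slowest eigenfunction. -/
theorem gap_le_of_defect [Nonempty V] {w' : (V → Bool) → ℝ} (hw : ∀ σ, 0 < w σ)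
    (hsym : ∀ σ, w (neg σ) = w σ)
    (hfkg : ∀ σ τ, w σ * w τ ≤ w (σ ⊓ τ) * w (σ ⊔ τ))
    (hw' : ∀ σ, 0 < w' σ) (hsym' : ∀ σ, w' (neg σ) = w' σ) {f : (V → Bool) → ℝ} {ρ : ℝ}
    (hodd : Odd' f) (hone : ip w f f = 1) (heig : ceSum w f = fun σ => ρ * f σ)
    (hρ : ∀ g : (V → Bool) → ℝ, Odd' g → ip w g (ceSum w g) ≤ ρ * ip w g g)
    (hd : 0 ≤ ∑ σ, w' σ * defect w f σ) :
    gap (normalize w') ≤ gap (normalize w) := by
  have hn : (0 : ℝ) < Fintype.card V := by exact_mod_cast Fintype.card_pos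
  have hlow := le_gap_of_odd hw hsym hfkg hρ
  have hup := poincare_of_gap hw' (g := f) (ip_odd_even hsym' hodd (fun _ => rfl))
  have h1 := dir_le_of_eigen hw' heig
  have hpos : 0 < ip w' f f := by
    have h3 : ∃ σ, f σ ≠ 0 := by
      by_contra hcon
      push Not at hcon
      have : ip w f f = 0 := by
        unfold ip
        exact Finset.sum_eq_zero fun σ _ => by rw [hcon σ]; ring
      rw [hone] at this
      exact one_ne_zero this
    obtain ⟨σ, hσ⟩ := h3
    exact ip_self_pos hw' hσ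
  have h3 : (2 * (Fintype.card V : ℝ) * gap (normalize w')) * ip w' f f ≤
      (2 * ((Fintype.card V : ℝ) - ρ)) * ip w' f f := by linarith
  have h4 := le_of_mul_le_mul_right h3 hpos
  have h5 : 2 * (Fintype.card V : ℝ) * gap (normalize w') ≤
      2 * (Fintype.card V : ℝ) * gap (normalize w) := h4.trans hlow
  exact le_of_mul_le_mul_left h5 (by positivity)

/-- The local comparison. -/
theorem local_compare_abs [Nonempty V] {Q : (V → Bool) → ℝ} (hw : ∀ σ, 0 < w σ)
    (hsym : ∀ σ, w (neg σ) = w σ)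
    (hfkg : ∀ σ τ, w σ * w τ ≤ w (σ ⊓ τ) * w (σ ⊔ τ)) (hQ : ∀ σ, Q (neg σ) = Q σ)
    {f : (V → Bool) → ℝ} {ρ : ℝ}
    (hodd : Odd' f) (hone : ip w f f = 1) (heig : ceSum w f = fun σ => ρ * f σ)
    (hρ : ∀ g : (V → Bool) → ℝ, Odd' g → ip w g (ceSum w g) ≤ ρ * ip w g g)
    (hpos : 0 < ∑ σ, w σ * (Q σ * defect w f σ)) :
    ∃ h0 : ℝ, 0 < h0 ∧ ∀ h : ℝ, 0 < h → h < h0 →
      gap (normalize fun σ => w σ * Real.exp (h * Q σ)) ≤ gap (normalize w) := by
  have hder : HasDerivAt (fun h : ℝ => ∑ σ, w σ * Real.exp (h * Q σ) * defect w f σ)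
      (∑ σ, w σ * (Q σ * defect w f σ)) 0 := by
    have h1 : ∀ σ ∈ (univ : Finset (V → Bool)),
        HasDerivAt (fun h : ℝ => w σ * Real.exp (h * Q σ) * defect w f σ)
          (w σ * (Q σ * defect w f σ)) 0 := by
      intro σ _
      have h2 : HasDerivAt (fun h : ℝ => h * Q σ) (1 * Q σ) 0 := (hasDerivAt_id 0).mul_const _
      have h3 := h2.exp
      have h4 := (h3.const_mul (w σ)).mul_const (defect w f σ)
      refine h4.congr_deriv ?_
      rw [zero_mul, Real.exp_zero]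
      ring
    exact HasDerivAt.fun_sum h1
  have h0 : ∑ σ, w σ * Real.exp (0 * Q σ) * defect w f σ = 0 := by
    simp only [zero_mul, Real.exp_zero, mul_one]
    exact sum_defect_zero hw f
  have hev : ∀ᶠ h in nhdsWithin (0 : ℝ) (Set.Ioi 0),
      0 < ∑ σ, w σ * Real.exp (h * Q σ) * defect w f σ := by
    have h1 := hder.hasDerivWithinAt (s := Set.Ioi 0)
    rw [hasDerivWithinAt_iff_tendsto_slope' (by simp)] at h1
    have h2 := h1.eventually (lt_mem_nhds hpos)
    filter_upwards [h2, self_mem_nhdsWithin] with h h3 h4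
    rw [slope_def_field, h0, sub_zero, sub_zero] at h3
    have h5 : (0 : ℝ) < h := h4
    rcases div_pos_iff.1 h3 with h6 | h6
    · exact h6.1
    · exact absurd h5 (not_lt.2 h6.2.le)
  rw [eventually_nhdsWithin_iff, Metric.eventually_nhds_iff] at hev
  obtain ⟨r, hr, hr'⟩ := hev
  refine ⟨r, hr, fun h hh hh0 => ?_⟩
  apply gap_le_of_defect hw hsym hfkg (fun σ => mul_pos (hw σ) (Real.exp_pos _))
    (fun σ => by rw [hsym, hQ]) hodd hone heig hρ
  exact (hr' (by rw [Real.dist_eq, sub_zero, abs_of_pos hh]; exact hh0) hh).le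

/-- Comparison along the segment. -/
theorem path_mono_abs [Nonempty V] {Q : (V → Bool) → ℝ} (hw : ∀ σ, 0 < w σ)
    (hsym : ∀ σ, w (neg σ) = w σ) (hQ : ∀ σ, Q (neg σ) = Q σ)
    (hfkg : ∀ s : ℝ, 0 ≤ s → ∀ σ τ, (w σ * Real.exp (s * Q σ)) * (w τ * Real.exp (s * Q τ)) ≤
      (w (σ ⊓ τ) * Real.exp (s * Q (σ ⊓ τ))) * (w (σ ⊔ τ) * Real.exp (s * Q (σ ⊔ τ))))
    (hloc : ∀ s : ℝ, 0 ≤ s → s < 1 → ∃ h0 : ℝ, 0 < h0 ∧ ∀ h : ℝ, 0 < h → h < h0 →
      gap (normalize fun σ => w σ * Real.exp ((s + h) * Q σ)) ≤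
        gap (normalize fun σ => w σ * Real.exp (s * Q σ))) :
    gap (normalize fun σ => w σ * Real.exp (1 * Q σ)) ≤
      gap (normalize fun σ => w σ * Real.exp (0 * Q σ)) := by
  obtain ⟨φ, hφ⟩ : ∃ φ : ℝ → ℝ, φ = fun s => gap (normalize fun σ => w σ * Real.exp (s * Q σ)) :=
    ⟨_, rfl⟩
  have hpos : ∀ (s : ℝ) (σ : V → Bool), 0 < w σ * Real.exp (s * Q σ) :=
    fun s σ => mul_pos (hw σ) (Real.exp_pos _)
  have hsy : ∀ (s : ℝ) (σ : V → Bool), w (neg σ) * Real.exp (s * Q (neg σ)) =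
      w σ * Real.exp (s * Q σ) := fun s σ => by rw [hsym, hQ]
  obtain ⟨b, hb⟩ : ∃ b : ℝ, ∀ σ, |Q σ| ≤ b :=
    ⟨∑ σ, |Q σ|, fun σ => Finset.single_le_sum (f := fun σ => |Q σ|)
      (fun σ _ => abs_nonneg _) (Finset.mem_univ σ)⟩
  -- the basic estimate
  have hest : ∀ s t : ℝ, 0 ≤ s → 0 ≤ t → φ s ≤ Real.exp (|t - s| * b) ^ 2 * φ t := by
    intro s t hs ht
    rw [hφ]
    have hcmp : ∀ (x y : ℝ) (σ : V → Bool), w σ * Real.exp (x * Q σ) ≤
        Real.exp (|y - x| * b) * (w σ * Real.exp (y * Q σ)) := by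
      intro x y σ
      have h1 : Real.exp (x * Q σ) ≤ Real.exp (|y - x| * b) * Real.exp (y * Q σ) := by
        rw [← Real.exp_add]
        apply Real.exp_le_exp.2
        have h2 : (x - y) * Q σ ≤ |y - x| * b := by
          calc (x - y) * Q σ ≤ |(x - y) * Q σ| := le_abs_self _
            _ = |y - x| * |Q σ| := by rw [abs_mul, abs_sub_comm]
            _ ≤ |y - x| * b := mul_le_mul_of_nonneg_left (hb σ) (abs_nonneg _)
        linarith
      calc w σ * Real.exp (x * Q σ)
          ≤ w σ * (Real.exp (|y - x| * b) * Real.exp (y * Q σ)) :=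
            mul_le_mul_of_nonneg_left h1 (hw σ).le
        _ = _ := by ring
    apply gap_ratio (hpos s) (hsy s) (hpos t) (hsy t) (hfkg t ht) (Real.exp_pos _)
    · exact hcmp s t
    · intro σ
      have := hcmp t s σ
      rwa [abs_sub_comm] at this
  have hφ0 : ∀ s, 0 ≤ φ s := fun s => by rw [hφ]; exact gap_nonneg (hpos s)
  -- continuity
  have hcont : ContinuousOn φ (Set.Icc 0 1) := by
    intro s hs
    have hlim : Filter.Tendsto (fun t : ℝ => Real.exp (|t - s| * b) ^ 2) (nhdsWithin s (Set.Icc 0 1))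
        (nhds 1) := by
      have h1 : Continuous (fun t : ℝ => Real.exp (|t - s| * b) ^ 2) := by fun_prop
      have h2 := h1.tendsto s
      simp only [sub_self, abs_zero, zero_mul, Real.exp_zero, one_pow] at h2
      exact h2.mono_left nhdsWithin_le_nhds
    have hup : Filter.Tendsto (fun t : ℝ => Real.exp (|t - s| * b) ^ 2 * φ s)
        (nhdsWithin s (Set.Icc 0 1)) (nhds (φ s)) := by
      have := hlim.mul_const (φ s)
      rwa [one_mul] at this
    have hlo : Filter.Tendsto (fun t : ℝ => (Real.exp (|t - s| * b) ^ 2)⁻¹ * φ s)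
        (nhdsWithin s (Set.Icc 0 1)) (nhds (φ s)) := by
      have := (hlim.inv₀ one_ne_zero).mul_const (φ s)
      rwa [inv_one, one_mul] at this
    refine tendsto_of_tendsto_of_tendsto_of_le_of_le' hlo hup ?_ ?_
    · filter_upwards [self_mem_nhdsWithin] with t ht
      have h1 := hest s t hs.1 ht.1
      have h2 : 0 < Real.exp (|t - s| * b) ^ 2 := by positivity
      rw [inv_mul_le_iff₀ h2]
      exact h1
    · filter_upwards [self_mem_nhdsWithin] with t ht
      have h1 := hest t s ht.1 hs.1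
      rwa [abs_sub_comm] at h1
  have hclosed : IsClosed ({s : ℝ | φ s ≤ φ 0} ∩ Set.Icc 0 1) := by
    have h1 : {s : ℝ | φ s ≤ φ 0} ∩ Set.Icc 0 1 = Set.Icc 0 1 ∩ φ ⁻¹' (Set.Iic (φ 0)) := by
      ext s
      simp only [Set.mem_inter_iff, Set.mem_ofPred_eq, Set.mem_preimage, Set.mem_Iic]
      exact and_comm
    rw [h1]
    exact hcont.preimage_isClosed_of_isClosed isClosed_Icc isClosed_Iic
  have hsub := hclosed.Icc_subset_of_forall_exists_gt (a := 0) (b := 1)
    (show (0 : ℝ) ∈ {s : ℝ | φ s ≤ φ 0} from le_refl (φ 0)) (by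
      rintro x ⟨hx1, hx2⟩ y hy
      obtain ⟨h0, hh0, hh⟩ := hloc x hx2.1 hx2.2
      have hy' : x < y := hy
      obtain ⟨h, hpos', hlt1, hlt2⟩ : ∃ h : ℝ, 0 < h ∧ h < h0 ∧ x + h ≤ y := by
        refine ⟨min (h0 / 2) (y - x), ?_, ?_, ?_⟩
        · exact lt_min (by linarith) (by linarith)
        · exact (min_le_left _ _).trans_lt (by linarith)
        · have := min_le_right (h0 / 2) (y - x)
          linarith
      refine ⟨x + h, ?_, ?_⟩
      · have h1 := hh h hpos' hlt1
        have h2 : φ (x + h) ≤ φ x := by rw [hφ]; exact h1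
        exact h2.trans hx1
      · exact ⟨by linarith, hlt2⟩)
  have hfin : φ 1 ≤ φ 0 := hsub (Set.right_mem_Icc.2 zero_le_one)
  rw [hφ] at hfin
  exact hfin

end Pool.Agent.Lib.MP_f82811_pr.HT
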