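import Pool.Agent.Lib.MP_f82811_pr.HT.Base
import Pool.Agent.Lib.MP_f82811_pr.HT.Num
import Pool.Agent.Lib.MP_f82811_pr.HT.Path
import Pool.Agent.Lib.MP_f82811_pr.HT.Graph

/-!
# Vertex transitive couplings: raising a single coupling
-/

set_option autoImplicit false

namespace Pool.Agent.Lib.MP_f82811_pr.HT

open Finset

variable {V : Type*} [Fintype V] [DecidableEq V]

omit [DecidableEq V] in
theorem en_comp {A : V → V → ℝ} {π : Equiv.Perm V} (hπ : ∀ a b, A (π a) (π b) = A a b)
    (σ : V → Bool) : en A (σ ∘ π) = en A σ := by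
  unfold en
  congr 1
  rw [← Equiv.sum_comp π (fun u => ∑ v, A u v * sp u σ * sp v σ)]
  refine Finset.sum_congr rfl fun u _ => ?_
  rw [← Equiv.sum_comp π (fun v => A (π u) v * sp (π u) σ * sp v σ)]
  refine Finset.sum_congr rfl fun v _ => ?_
  rw [hπ]
  rfl

omit [DecidableEq V] in
theorem W_comp {A : V → V → ℝ} {π : Equiv.Perm V} (hπ : ∀ a b, A (π a) (π b) = A a b)
    (σ : V → Bool) : W A (σ ∘ π) = W A σ := by
  unfold W
  rw [en_comp hπ]

omit [Fintype V] in
theorem ce_comp_one {w f : (V → Bool) → ℝ} {π : Equiv.Perm V} (hw : ∀ σ, w (σ ∘ π) = w σ)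
    (hf : ∀ σ, f (σ ∘ π) = f σ) (v : V) (σ : V → Bool) :
    ce w v f (σ ∘ π) = ce w (π v) f σ := by
  unfold ce
  rw [flip_comp, hw, hw, hf, hf]

theorem ceSum_comp_one {w f : (V → Bool) → ℝ} {π : Equiv.Perm V} (hw : ∀ σ, w (σ ∘ π) = w σ)
    (hf : ∀ σ, f (σ ∘ π) = f σ) (σ : V → Bool) :
    ceSum w f (σ ∘ π) = ceSum w f σ := by
  unfold ceSum
  rw [← Equiv.sum_comp π (fun v => ce w v f σ)]
  exact Finset.sum_congr rfl fun v _ => ce_comp_one hw hf v σ

omit [Fintype V] in
theorem update_comp (π : Equiv.Perm V) (v : V) (b : Bool) (σ : V → Bool) :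
    Function.update (σ ∘ π) v b = (Function.update σ (π v) b) ∘ π := by
  funext i
  by_cases h : i = v
  · subst h; simp
  · have h' : π i ≠ π v := fun hc => h (π.injective hc)
    simp [Function.update_of_ne h, Function.update_of_ne h']

omit [Fintype V] in
theorem D_comp {f : (V → Bool) → ℝ} {π : Equiv.Perm V}
    (hf : ∀ σ, f (σ ∘ π) = f σ) (v : V) (σ : V → Bool) :
    D v f (σ ∘ π) = D (π v) f σ := by
  unfold D
  rw [update_comp, update_comp, hf, hf]

theorem XX_comp {f : (V → Bool) → ℝ} {π : Equiv.Perm V}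
    (hf : ∀ σ, f (σ ∘ π) = f σ) (v : V) : XX f v = XX f (π v) := by
  apply le_antisymm
  · obtain ⟨σ, hσ⟩ := exists_hi (D v f)
    have h1 : D v f σ = D (π v) f (σ ∘ π.symm) := by
      rw [← D_comp hf v (σ ∘ π.symm)]
      congr 1
      funext a
      simp
    calc XX f v = D v f σ := hσ.symm
      _ = _ := h1
      _ ≤ _ := le_XX f (π v) _
  · obtain ⟨σ, hσ⟩ := exists_hi (D (π v) f)
    calc XX f (π v) = D (π v) f σ := hσ.symm
      _ = D v f (σ ∘ π) := (D_comp hf v σ).symm
      _ ≤ _ := le_XX f v _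

theorem xx_comp {f : (V → Bool) → ℝ} {π : Equiv.Perm V}
    (hf : ∀ σ, f (σ ∘ π) = f σ) (v : V) : xx f v = xx f (π v) := by
  apply le_antisymm
  · obtain ⟨σ, hσ⟩ := exists_lo (D (π v) f)
    calc xx f v ≤ D v f (σ ∘ π) := xx_le f v _
      _ = D (π v) f σ := D_comp hf v σ
      _ = xx f (π v) := hσ
  · obtain ⟨σ, hσ⟩ := exists_lo (D v f)
    have h1 : D v f σ = D (π v) f (σ ∘ π.symm) := by
      rw [← D_comp hf v (σ ∘ π.symm)]
      congr 1
      funext a
      simp
    calc xx f (π v) ≤ D (π v) f (σ ∘ π.symm) := xx_le f (π v) _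
      _ = D v f σ := h1.symm
      _ = xx f v := hσ

/-- The slowest eigenfunction may be taken invariant under the symmetries of the couplings. -/
theorem exists_eig_inv [Nonempty V] {A : V → V → ℝ} (hA : Coup A) :
    ∃ (f : (V → Bool) → ℝ) (ρ : ℝ), 0 ≤ ρ ∧ Odd' f ∧ Monotone f ∧
      (∀ π : Equiv.Perm V, (∀ a b, A (π a) (π b) = A a b) → ∀ σ, f (σ ∘ π) = f σ) ∧
      ip (W A) f f = 1 ∧ ceSum (W A) f = (fun σ => ρ * f σ) ∧
      ∀ g : (V → Bool) → ℝ, Odd' g → ip (W A) g (ceSum (W A) g) ≤ ρ * ip (W A) g g := by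
  obtain ⟨f, ρ, h1, ⟨h2, h3, h4⟩, h5, h6, h7⟩ := exists_eig_cone (W_pos A) (fun σ => W_neg σ)
    (W_fkg hA)
    (fun f => Odd' f ∧ Monotone f ∧
      ∀ π : Equiv.Perm V, (∀ a b, A (π a) (π b) = A a b) → ∀ σ, f (σ ∘ π) = f σ)
    (by
      have c1 : IsClosed {f : (V → Bool) → ℝ | Odd' f} := by
        have : {f : (V → Bool) → ℝ | Odd' f} = ⋂ σ : V → Bool, {f | f (neg σ) = -f σ} := by
          ext f; simp [Odd']
        rw [this]
        exact isClosed_iInter fun σ =>
          isClosed_eq (continuous_apply _) (continuous_apply _).neg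
      have c2 : IsClosed {f : (V → Bool) → ℝ | Monotone f} := by
        have : {f : (V → Bool) → ℝ | Monotone f} =
            ⋂ σ : V → Bool, ⋂ τ : V → Bool, ⋂ _ : σ ≤ τ, {f | f σ ≤ f τ} := by
          ext f
          simp only [Set.mem_iInter]
          exact ⟨fun h σ τ hst => h hst, fun h σ τ hst => h σ τ hst⟩
        rw [this]
        exact isClosed_iInter fun σ => isClosed_iInter fun τ => isClosed_iInter fun _ =>
          isClosed_le (continuous_apply _) (continuous_apply _)
      have c3 : IsClosed {f : (V → Bool) → ℝ | ∀ π : Equiv.Perm V,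
          (∀ a b, A (π a) (π b) = A a b) → ∀ σ, f (σ ∘ π) = f σ} := by
        have : {f : (V → Bool) → ℝ | ∀ π : Equiv.Perm V,
            (∀ a b, A (π a) (π b) = A a b) → ∀ σ, f (σ ∘ π) = f σ} =
            ⋂ π : Equiv.Perm V, ⋂ _ : ∀ a b, A (π a) (π b) = A a b, ⋂ σ : V → Bool,
              {f | f (σ ∘ π) = f σ} := by
          ext f
          simp only [Set.mem_iInter]
          exact ⟨fun h => h, fun h => h⟩
        rw [this]
        exact isClosed_iInter fun π => isClosed_iInter fun _ => isClosed_iInter fun σ =>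
          isClosed_eq (continuous_apply _) (continuous_apply _)
      exact c1.inter (c2.inter c3))
    (by
      rintro c f hc ⟨h1, h2, h3⟩
      refine ⟨fun σ => ?_, fun σ τ hst => ?_, fun π hπ σ => ?_⟩
      · show c * f (neg σ) = -(c * f σ)
        rw [h1 σ]; ring
      · exact mul_le_mul_of_nonneg_left (h2 hst) hc
      · show c * f (σ ∘ π) = c * f σ
        rw [h3 π hπ σ])
    (by
      rintro f ⟨h1, h2, h3⟩
      exact ⟨ceSum_odd (fun σ => W_neg σ) h1, ceSum_mono (W_pos A) (W_fkg hA) h2,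
        fun π hπ σ => ceSum_comp_one (fun σ => W_comp hπ σ) (h3 π hπ) σ⟩)
    ⟨mag_odd, fun _ _ h => mag_mono h, fun π _ σ => mag_comp π σ⟩
  exact ⟨f, ρ, h1, h2, h3, h4, h5, h6, h7⟩

omit [Fintype V] [DecidableEq V] in
/-- The exponential of a coupling of two spins. -/
theorem exp_pair {i j : V} (d : ℝ) (σ : V → Bool) :
    Real.exp (d * (sp i σ * sp j σ)) =
      Real.cosh d + Real.sinh d * (sp i σ * sp j σ) := by
  have h : sp i σ * sp j σ = 1 ∨ sp i σ * sp j σ = -1 := by
    unfold sp spin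
    split_ifs <;> norm_num
  rcases h with h | h
  · rw [h, mul_one, mul_one, Real.cosh_add_sinh]
  · rw [h, mul_neg_one, mul_neg_one, ← sub_eq_add_neg, Real.cosh_sub_sinh]

/-- **Raising one coupling of a vertex transitive system**, matrix form. -/
theorem transitive_matrix [Nonempty V] {A : V → V → ℝ} (hA : Coup A)
    (htrans : ∀ u v, ∃ π : Equiv.Perm V, π u = v ∧ ∀ a b, A (π a) (π b) = A a b)
    {i j : V}
    (hcore : ∀ (f : (V → Bool) → ℝ) (lam : ℝ), Monotone f → Eig A f lam →
      (∃ k, XX f k ≠ 0) → (∀ u v, xx f u = xx f v) → (∀ u v, XX f u = XX f v) →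
      0 ≤ ∑ σ, W A σ * (sp i σ * sp j σ * defect (W A) f σ))
    {d : ℝ} (hd : 0 ≤ d) :
    gap (normalize fun σ => W A σ * Real.exp (d * (sp i σ * sp j σ))) ≤
      gap (normalize (W A)) := by
  obtain ⟨f, ρ, h1, h2, h3, h4, h5, h6, h7⟩ := exists_eig_inv hA
  have hE : Eig A f ((Fintype.card V : ℝ) - ρ) := eig_of_ceSum hA h6
  have hne : ∃ k, XX f k ≠ 0 := by
    by_contra hcon
    push Not at hcon
    have hD : ∀ k σ, D k f σ = 0 := fun k σ =>
      le_antisymm ((le_XX f k σ).trans (hcon k).le) (D_nonneg h3 k σ)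
    have hconst : ∀ σ τ, f σ - f τ ≤ 0 := by
      intro σ τ
      have := osc_le (g := f) (B := fun _ => 0) (fun v σ => by rw [hD, abs_zero]) σ τ
      simpa using this
    have h0 : ∀ σ, f σ = 0 := by
      intro σ
      have e1 := hconst σ (neg σ)
      have e2 := hconst (neg σ) σ
      have e3 := h2 σ
      linarith
    have : ip (W A) f f = 0 := by
      unfold ip
      exact Finset.sum_eq_zero fun σ _ => by rw [h0 σ]; ring
    rw [h5] at this
    exact one_ne_zero this
  have hx : ∀ u v, xx f u = xx f v := by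
    intro u v
    obtain ⟨π, hπ, hπ'⟩ := htrans u v
    rw [← hπ]
    exact xx_comp (h4 π hπ') u
  have hX : ∀ u v, XX f u = XX f v := by
    intro u v
    obtain ⟨π, hπ, hπ'⟩ := htrans u v
    rw [← hπ]
    exact XX_comp (h4 π hπ') u
  have hcore' := hcore f _ h3 hE hne hx hX
  refine gap_le_of_defect (W_pos A) (fun σ => W_neg σ) (W_fkg hA)
    (fun σ => mul_pos (W_pos A σ) (Real.exp_pos _)) (fun σ => ?_) h2 h5 h6 h7 ?_
  · rw [W_neg, sp_neg, sp_neg, neg_mul_neg]
  · have e1 : ∑ σ, W A σ * Real.exp (d * (sp i σ * sp j σ)) * defect (W A) f σ =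
        Real.cosh d * ∑ σ, W A σ * defect (W A) f σ +
          Real.sinh d * ∑ σ, W A σ * (sp i σ * sp j σ * defect (W A) f σ) := by
      rw [Finset.mul_sum, Finset.mul_sum, ← Finset.sum_add_distrib]
      refine Finset.sum_congr rfl fun σ _ => ?_
      rw [exp_pair]
      ring
    rw [e1, sum_defect_zero (W_pos A), mul_zero, zero_add]
    exact mul_nonneg (Real.sinh_nonneg_iff.2 hd) hcore'

/-- The weight after a change of the coupling of one pair, which may be a new edge. -/
theorem weight_pair {G G' : SimpleGraph V} [DecidableRel G.Adj] [DecidableRel G'.Adj]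
    {J J' : Sym2 V → ℝ} {e : Sym2 V} (hE : G'.edgeFinset = insert e G.edgeFinset)
    (hJ : ∀ e' ∈ G.edgeFinset, e' ≠ e → J' e' = J e') (σ : V → Bool) :
    weight G' J' σ = weight G J σ *
      Real.exp ((J' e - if e ∈ G.edgeFinset then J e else 0) * bond σ e) := by
  unfold weight
  rw [← Real.exp_add]
  congr 1
  have h1 : ∑ e' ∈ G'.edgeFinset, J' e' * bond σ e' =
      J' e * bond σ e + ∑ e' ∈ G.edgeFinset.erase e, J e' * bond σ e' := by
    rw [hE, ← Finset.add_sum_erase _ _ (Finset.mem_insert_self e G.edgeFinset)]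
    congr 1
    have h2 : (insert e G.edgeFinset).erase e = G.edgeFinset.erase e := by
      ext a
      simp only [Finset.mem_erase, Finset.mem_insert]
      tauto
    rw [h2]
    refine Finset.sum_congr rfl fun e' he' => ?_
    rw [hJ e' (Finset.mem_of_mem_erase he') (Finset.ne_of_mem_erase he')]
  rw [h1]
  by_cases he : e ∈ G.edgeFinset
  · rw [if_pos he, ← Finset.add_sum_erase _ _ he]
    ring
  · rw [if_neg he, Finset.erase_eq_of_notMem he]
    ring

end Pool.Agent.Lib.MP_f82811_pr.HT
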