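import Pool.Agent.Lib.MP_f82811_pr.HT.Pair
import Pool.Agent.Lib.MP_f82811_pr.HT.Sym
import Pool.Agent.Lib.MP_f82811_pr.Bridge

/-!
# High temperature: raising the couplings of the edges one by one

All nonzero couplings are at least `η`, the row sums are at most `δ ≤ 1 / 4`, and
`2 δ ^ 2 ≤ η`.
-/

set_option autoImplicit false

namespace Pool.Agent.Lib.MP_f82811_pr.HT

open Finset

variable {V : Type*} [Fintype V] [DecidableEq V]

section Num

variable {A F : V → V → ℝ} {x X : V → ℝ} {r δ m κ N : ℝ}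

/-- The weighted row sums of the second differences are small compared with the square of the
slope. -/
theorem row_weighted (hA : Coup A) (hδ0 : 0 ≤ δ) (hδ1 : δ < 1)
    (hrow : ∀ v, ∑ u, A v u ≤ δ) (hr : r ≤ δ) (hr0 : 0 ≤ r)
    (hm0 : 0 ≤ m) (hx : ∀ i, 0 ≤ x i) (hX : ∀ i, 0 ≤ X i)
    (hF0 : ∀ i k, 0 ≤ F i k) (hFs : ∀ i k, F i k = F k i) (hFd : ∀ i, F i i = 0)
    (hXx : ∀ i, X i ≤ (1 + 2 * m) * x i)
    (hH : ∀ i, (1 - δ ^ 2) * ∑ v, A v i * x v ≤ r * x i)
    (h2 : ∀ i k, i ≠ k → (1 + r) * F i k ≤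
      ∑ v, (A v k * F i v + A v i * F k v + 2 * δ * A v i * A v k * X v))
    (hsq : ∀ i, ∑ v, A v i * x v ^ 2 ≤ κ * x i ^ 2) (hκ0 : 0 ≤ κ) (hN0 : 0 ≤ N)
    (hN : (1 - δ ^ 2) * κ * N + 2 * δ ^ 2 * (1 + 2 * m) * κ ≤ (1 - δ ^ 2 - δ ^ 3) * N)
    (hδ3 : (1 - δ ^ 2) * δ < 1 - δ ^ 2 - δ ^ 3) (i : V) :
    ∑ k, x k * F i k ≤ N * x i ^ 2 := by
  have hq : 0 < 1 - δ ^ 2 := by nlinarith
  have hW0 : ∀ i, 0 ≤ ∑ k, x k * F i k := fun i =>
    Finset.sum_nonneg fun k _ => mul_nonneg (hx _) (hF0 _ _)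
  have h3 : ∀ i, (1 - δ ^ 2 - δ ^ 3) * ∑ k, x k * F i k ≤
      (1 - δ ^ 2) * ∑ v, A v i * ∑ k, x k * F v k +
        2 * δ ^ 2 * (1 + 2 * m) * κ * x i ^ 2 := by
    intro i
    have h4 := sum_second hA hδ0 hX hF0 hFd h2 hx i
    have hAx : ∀ v, (1 - δ ^ 2) * ∑ k, A v k * x k ≤ r * x v := by
      intro v
      have e2 : ∑ k, A v k * x k = ∑ k, A k v * x k :=
        Finset.sum_congr rfl fun k _ => by rw [hA.symm]
      rw [e2]
      exact hH v
    have t1 : (1 - δ ^ 2) * ∑ v, F i v * ∑ k, A v k * x k ≤ r * ∑ k, x k * F i k := by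
      rw [Finset.mul_sum, Finset.mul_sum]
      refine Finset.sum_le_sum fun v _ => ?_
      have e3 := mul_le_mul_of_nonneg_left (hAx v) (hF0 i v)
      calc _ = F i v * ((1 - δ ^ 2) * ∑ k, A v k * x k) := by ring
        _ ≤ _ := e3
        _ = _ := by ring
    have t2 : ∑ v, A v i * ∑ k, x k * F k v = ∑ v, A v i * ∑ k, x k * F v k :=
      Finset.sum_congr rfl fun v _ => by
        rw [Finset.sum_congr rfl fun k _ => by rw [hFs k v]]
    have t3 : (1 - δ ^ 2) * ∑ v, A v i * X v * ∑ k, A v k * x k ≤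
        (1 + 2 * m) * r * (κ * x i ^ 2) := by
      have e1 : (1 - δ ^ 2) * ∑ v, A v i * X v * ∑ k, A v k * x k ≤
          (1 + 2 * m) * r * ∑ v, A v i * x v ^ 2 := by
        rw [Finset.mul_sum, Finset.mul_sum]
        refine Finset.sum_le_sum fun v _ => ?_
        have e2 : 0 ≤ A v i * X v := mul_nonneg (hA.nonneg _ _) (hX v)
        have e3 := mul_le_mul_of_nonneg_left (hAx v) e2
        have e4 : A v i * X v * (r * x v) ≤ A v i * ((1 + 2 * m) * x v) * (r * x v) :=
          mul_le_mul_of_nonneg_right (mul_le_mul_of_nonneg_left (hXx v) (hA.nonneg _ _))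
            (mul_nonneg hr0 (hx v))
        calc _ = A v i * X v * ((1 - δ ^ 2) * ∑ k, A v k * x k) := by ring
          _ ≤ _ := e3
          _ ≤ _ := e4
          _ = _ := by ring
      exact e1.trans (mul_le_mul_of_nonneg_left (hsq i) (by positivity))
    rw [t2] at h4
    have h5 := mul_le_mul_of_nonneg_left h4 hq.le
    have h6 : (1 - δ ^ 2) * (2 * δ * ∑ v, A v i * X v * ∑ k, A v k * x k) ≤
        2 * δ * ((1 + 2 * m) * r * (κ * x i ^ 2)) := by
      have := mul_le_mul_of_nonneg_left t3 (show (0 : ℝ) ≤ 2 * δ by linarith)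
      calc _ = 2 * δ * ((1 - δ ^ 2) * ∑ v, A v i * X v * ∑ k, A v k * x k) := by ring
        _ ≤ _ := this
    have h7 : 2 * δ * ((1 + 2 * m) * r * (κ * x i ^ 2)) ≤
        2 * δ ^ 2 * (1 + 2 * m) * κ * x i ^ 2 := by
      have e1 : 0 ≤ 2 * δ * (1 + 2 * m) * (κ * x i ^ 2) := by positivity
      have := mul_le_mul_of_nonneg_left hr e1
      calc _ = 2 * δ * (1 + 2 * m) * (κ * x i ^ 2) * r := by ring
        _ ≤ _ := this
        _ = _ := by ring
    have h8 : r * δ ^ 2 * ∑ k, x k * F i k ≤ δ ^ 3 * ∑ k, x k * F i k := by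
      have e1 : r * δ ^ 2 ≤ δ * δ ^ 2 := mul_le_mul_of_nonneg_right hr (sq_nonneg _)
      have e2 := mul_le_mul_of_nonneg_right e1 (hW0 i)
      calc _ ≤ _ := e2
        _ = _ := by ring
    set Wi := ∑ k, x k * F i k with hWi
    set T1 := ∑ v, F i v * ∑ k, A v k * x k with hT1
    set T2 := ∑ v, A v i * ∑ k, x k * F v k with hT2
    set T3 := ∑ v, A v i * X v * ∑ k, A v k * x k with hT3
    have h9 : (1 - δ ^ 2) * ((1 + r) * Wi) ≤ (1 - δ ^ 2) * T1 + (1 - δ ^ 2) * T2 +
        (1 - δ ^ 2) * (2 * δ * T3) := by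
      calc _ ≤ _ := h5
        _ = _ := by ring
    have h10 : (1 - δ ^ 2 - δ ^ 3) * Wi = (1 - δ ^ 2) * ((1 + r) * Wi) - r * Wi +
      (r * δ ^ 2 * Wi - δ ^ 3 * Wi) := by ring
    linarith
  obtain ⟨j, -, hj⟩ := Finset.exists_max_image Finset.univ
    (fun i => ∑ k, x k * F i k - N * x i ^ 2) ⟨i, Finset.mem_univ i⟩
  have hj0 : ∑ k, x k * F j k - N * x j ^ 2 ≤ 0 := by
    by_contra hcon
    push Not at hcon
    set P := ∑ k, x k * F j k - N * x j ^ 2 with hP
    have h4 : ∑ v, A v j * ∑ k, x k * F v k ≤ δ * P + N * (κ * x j ^ 2) := by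
      calc ∑ v, A v j * ∑ k, x k * F v k ≤ ∑ v, (A j v * P + N * (A v j * x v ^ 2)) := by
            refine Finset.sum_le_sum fun v _ => ?_
            have e1 := hj v (Finset.mem_univ v)
            have e2 : ∑ k, x k * F v k ≤ P + N * x v ^ 2 := by linarith
            rw [hA.symm j v]
            calc A v j * ∑ k, x k * F v k ≤ A v j * (P + N * x v ^ 2) :=
                  mul_le_mul_of_nonneg_left e2 (hA.nonneg _ _)
              _ = _ := by ring
        _ = (∑ v, A j v) * P + N * ∑ v, A v j * x v ^ 2 := by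
            rw [Finset.sum_add_distrib, Finset.sum_mul, Finset.mul_sum]
        _ ≤ δ * P + N * (κ * x j ^ 2) := by
            have e1 := mul_le_mul_of_nonneg_right (hrow j) hcon.le
            have e2 := mul_le_mul_of_nonneg_left (hsq j) hN0
            linarith
    have h5 := h3 j
    have h6 : ∑ k, x k * F j k = P + N * x j ^ 2 := by rw [hP]; ring
    rw [h6] at h5
    have h7 := mul_le_mul_of_nonneg_left h4 hq.le
    have h8 := mul_le_mul_of_nonneg_right hN (sq_nonneg (x j))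
    have h9 : (1 - δ ^ 2 - δ ^ 3) * P ≤ (1 - δ ^ 2) * δ * P := by
      nlinarith [h5, h7, h8]
    have h10 := le_of_mul_le_mul_right h9 hcon
    linarith
  have h4 := hj i (Finset.mem_univ i)
  linarith

end Num

/-- Positivity for an edge. -/
theorem edge_defect {A : V → V → ℝ} {f : (V → Bool) → ℝ} {lam δ m R κ N η : ℝ} (hA : Coup A)
    (hδ0 : 0 ≤ δ) (hδ1 : δ < 1) (hrow : ∀ v, ∑ u, A v u ≤ δ) (hη0 : 0 < η)
    (hη : ∀ u v, A u v ≠ 0 → η ≤ A u v) (hf : Monotone f) (h : Eig A f lam)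
    (hne : ∃ i, XX f i ≠ 0)
    (hm0 : 0 ≤ m) (hm : ((1 + 4 * δ ^ 2) * m + 2 * δ ^ 2) * δ ≤ m * (1 - δ ^ 2))
    (hδ2 : (1 + 4 * δ ^ 2) * δ < 1 - δ)
    (hR0 : 0 ≤ R) (hR : δ ≤ R * (1 - δ ^ 2) * η) (hκ0 : 0 ≤ κ) (hκ : R * δ ≤ κ * (1 - δ ^ 2))
    (hN0 : 0 ≤ N)
    (hN : (1 - δ ^ 2) * κ * N + 2 * δ ^ 2 * (1 + 2 * m) * κ ≤ (1 - δ ^ 2 - δ ^ 3) * N)
    (hδ3 : (1 - δ ^ 2) * δ < 1 - δ ^ 2 - δ ^ 3)
    (hfin : R * ((1 + 2 * m) * (2 * δ ^ 2 * (1 + 2 * m) + (1 - δ ^ 2) * N)) ≤ (1 - δ ^ 2) ^ 3)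
    {i j : V} (hij : A i j ≠ 0) :
    0 ≤ ∑ σ, W A σ * (sp i σ * sp j σ * defect (W A) f σ) := by
  have hq : 0 < 1 - δ ^ 2 := by nlinarith
  obtain ⟨hl1, hl2, hΦ, hXx, _⟩ := bounds hA hδ0 hδ1 hrow hf h hne hm0 hm hδ2
  have hx : ∀ i, 0 ≤ xx f i := xx_nonneg hf
  have hX : ∀ i, 0 ≤ XX f i := XX_nonneg hf
  have hH : ∀ i, (1 - δ ^ 2) * ∑ v, A v i * xx f v ≤ (1 - lam) * xx f i :=
    fun i => harnack hA hrow hf h i
  have hHδ : ∀ i, (1 - δ ^ 2) * ∑ v, A v i * xx f v ≤ δ * xx f i := fun i =>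
    (hH i).trans (mul_le_mul_of_nonneg_right hl2 (hx i))
  have h2 : ∀ i k, i ≠ k → (1 + (1 - lam)) * FF f i k ≤
      ∑ v, (A v k * FF f i v + A v i * FF f k v + 2 * δ * A v i * A v k * XX f v) := by
    intro i k hik
    have e := second hA hrow hf h hik
    have e' : (1 + (1 - lam)) * FF f i k = (2 - lam) * FF f i k := by ring
    rw [e']
    exact e
  -- the ratio of the slopes at neighbours
  have hratio : ∀ a b, A b a ≠ 0 → xx f b ≤ R * xx f a := by
    intro a b hab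
    have e1 : η * xx f b ≤ ∑ v, A v a * xx f v := by
      calc η * xx f b ≤ A b a * xx f b := mul_le_mul_of_nonneg_right (hη b a hab) (hx b)
        _ ≤ _ := Finset.single_le_sum (f := fun v => A v a * xx f v)
            (fun v _ => mul_nonneg (hA.nonneg _ _) (hx v)) (Finset.mem_univ b)
    have e2 := mul_le_mul_of_nonneg_left e1 hq.le
    have e3 := hHδ a
    have e4 := mul_le_mul_of_nonneg_right hR (hx a)
    have e5 : (1 - δ ^ 2) * η * xx f b ≤ (1 - δ ^ 2) * η * (R * xx f a) := by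
      calc _ = (1 - δ ^ 2) * (η * xx f b) := by ring
        _ ≤ _ := e2
        _ ≤ _ := e3
        _ ≤ _ := e4
        _ = _ := by ring
    exact le_of_mul_le_mul_left e5 (by positivity)
  have hsq : ∀ i, ∑ v, A v i * xx f v ^ 2 ≤ κ * xx f i ^ 2 := by
    intro a
    have e1 : ∑ v, A v a * xx f v ^ 2 ≤ R * xx f a * ∑ v, A v a * xx f v := by
      rw [Finset.mul_sum]
      refine Finset.sum_le_sum fun v _ => ?_
      by_cases hv : A v a = 0
      · rw [hv]; simp
      · have e2 := mul_le_mul_of_nonneg_left (hratio a v hv)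
          (mul_nonneg (hA.nonneg v a) (hx v))
        calc _ = A v a * xx f v * xx f v := by ring
          _ ≤ _ := e2
          _ = _ := by ring
    have e3 := mul_le_mul_of_nonneg_left (hHδ a) (mul_nonneg hR0 (hx a))
    have e4 := mul_le_mul_of_nonneg_right hκ (sq_nonneg (xx f a))
    have e5 : (1 - δ ^ 2) * ∑ v, A v a * xx f v ^ 2 ≤ (1 - δ ^ 2) * (κ * xx f a ^ 2) := by
      calc _ ≤ (1 - δ ^ 2) * (R * xx f a * ∑ v, A v a * xx f v) :=
            mul_le_mul_of_nonneg_left e1 hq.le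
        _ = R * xx f a * ((1 - δ ^ 2) * ∑ v, A v a * xx f v) := by ring
        _ ≤ _ := e3
        _ = R * δ * xx f a ^ 2 := by ring
        _ ≤ _ := e4
        _ = _ := by ring
    exact le_of_mul_le_mul_left e5 hq
  have hW := fun i => row_weighted hA hδ0 hδ1 hrow hl2 (by linarith) hm0 hx hX
    (FF_nonneg f) (FF_symm f) (FF_self f) hXx hH h2 hsq hκ0 hN0 hN hδ3 i
  -- the error at a vertex
  have herr : ∀ a, (1 - δ ^ 2) * ∑ k, XX f k * (2 * δ * A a k * XX f a + FF f a k) ≤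
      (1 + 2 * m) * (2 * δ ^ 2 * (1 + 2 * m) + (1 - δ ^ 2) * N) * xx f a ^ 2 := by
    intro a
    have e1 : ∑ k, XX f k * (2 * δ * A a k * XX f a + FF f a k) ≤
        (1 + 2 * m) * (2 * δ * (1 + 2 * m) * xx f a * ∑ k, A k a * xx f k +
          ∑ k, xx f k * FF f a k) := by
      rw [Finset.mul_sum (s := univ) (a := 2 * δ * (1 + 2 * m) * xx f a),
        ← Finset.sum_add_distrib, Finset.mul_sum]
      refine Finset.sum_le_sum fun k _ => ?_
      have e2 : 2 * δ * A a k * XX f a + FF f a k ≤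
          2 * δ * A k a * ((1 + 2 * m) * xx f a) + FF f a k := by
        rw [hA.symm a k]
        have := mul_le_mul_of_nonneg_left (hXx a)
          (show 0 ≤ 2 * δ * A k a from mul_nonneg (by linarith) (hA.nonneg _ _))
        linarith
      have e3 : 0 ≤ 2 * δ * A a k * XX f a + FF f a k :=
        add_nonneg (mul_nonneg (mul_nonneg (by linarith) (hA.nonneg _ _)) (hX a))
          (FF_nonneg f a k)
      have e4 : 0 ≤ (1 + 2 * m) * xx f k := by
        have := hx k
        positivity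
      calc _ ≤ (1 + 2 * m) * xx f k * (2 * δ * A k a * ((1 + 2 * m) * xx f a) + FF f a k) :=
            mul_le_mul (hXx k) e2 e3 e4
        _ = _ := by ring
    have e5 := mul_le_mul_of_nonneg_left (hHδ a)
      (show 0 ≤ 2 * δ * (1 + 2 * m) * xx f a from by have := hx a; positivity)
    have e6 := mul_le_mul_of_nonneg_left (hW a) hq.le
    have e7 := mul_le_mul_of_nonneg_left e1 hq.le
    have e8 : 0 ≤ 1 + 2 * m := by linarith
    calc _ ≤ _ := e7
      _ = (1 + 2 * m) * (2 * δ * (1 + 2 * m) * xx f a * ((1 - δ ^ 2) * ∑ k, A k a * xx f k) +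
          (1 - δ ^ 2) * ∑ k, xx f k * FF f a k) := by ring
      _ ≤ (1 + 2 * m) * (2 * δ * (1 + 2 * m) * xx f a * (δ * xx f a) +
          (1 - δ ^ 2) * (N * xx f a ^ 2)) :=
          mul_le_mul_of_nonneg_left (add_le_add e5 e6) e8
      _ = _ := by ring
  have hpos : ∀ a b, A a b ≠ 0 →
      0 ≤ lam * ∑ σ, W A σ * (f σ * (sp b σ * ((1 - tau A a σ ^ 2) * D a f σ))) := by
    intro a b hab
    have hab' : a ≠ b := fun hc => hab (by rw [hc]; exact hA.diag b)
    have e1 := pair_low (x := xx f) (X := XX f) (F := FF f) hA hδ0 hδ1 hrow h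
      hx (fun k σ => xx_le f k σ) (fun k σ => le_XX f k σ)
      (fun k l σ => abs_DD_le f k l σ) hab'
    refine le_trans (mul_nonneg ?_ (Finset.sum_nonneg fun σ _ => (W_pos A σ).le)) e1
    -- `x a ^ 2 ≤ R x a x b`
    have e2 : xx f a ≤ R * xx f b := hratio b a hab
    have e3 : xx f a ^ 2 ≤ R * (xx f a * xx f b) := by
      have := mul_le_mul_of_nonneg_left e2 (hx a)
      calc _ = xx f a * xx f a := by ring
        _ ≤ _ := this
        _ = _ := by ring
    have e4 := herr a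
    have e5 : 0 ≤ (1 + 2 * m) * (2 * δ ^ 2 * (1 + 2 * m) + (1 - δ ^ 2) * N) := by positivity
    have e6 := mul_le_mul_of_nonneg_left e3 e5
    have e7 := mul_le_mul_of_nonneg_right hfin (mul_nonneg (hx a) (hx b))
    have e8 : (1 - δ ^ 2) * ∑ k, XX f k * (2 * δ * A a k * XX f a + FF f a k) ≤
        (1 - δ ^ 2) * ((1 - δ ^ 2) ^ 2 * (xx f a * xx f b)) := by
      calc _ ≤ _ := e4
        _ ≤ _ := e6
        _ = R * ((1 + 2 * m) * (2 * δ ^ 2 * (1 + 2 * m) + (1 - δ ^ 2) * N)) *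
            (xx f a * xx f b) := by ring
        _ ≤ _ := e7
        _ = _ := by ring
    have e9 := le_of_mul_le_mul_left e8 hq
    linarith
  have hlam : 0 < lam := by linarith
  have hij' : i ≠ j := fun hc => hij (by rw [hc]; exact hA.diag j)
  rw [pair_defect_eq hA f hij']
  have g1 := nonneg_of_mul_nonneg_right (hpos i j hij) hlam
  have g2 := nonneg_of_mul_nonneg_right (hpos j i (by rw [hA.symm]; exact hij)) hlam
  exact add_nonneg g1 g2

/-- The numerical version. -/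
theorem edge_defect_num {A : V → V → ℝ} {f : (V → Bool) → ℝ} {lam δ η : ℝ} (hA : Coup A)
    (hδ0 : 0 < δ) (hδ1 : δ ≤ 1 / 4) (hrow : ∀ v, ∑ u, A v u ≤ δ) (hη0 : 0 < η)
    (hδη : 2 * δ ^ 2 ≤ η)
    (hη : ∀ u v, A u v ≠ 0 → η ≤ A u v) (hf : Monotone f) (h : Eig A f lam)
    (hne : ∃ i, XX f i ≠ 0) {i j : V} (hij : A i j ≠ 0) :
    0 ≤ ∑ σ, W A σ * (sp i σ * sp j σ * defect (W A) f σ) := by
  have hc : 15 / 16 ≤ 1 - δ ^ 2 := by nlinarith
  have hc1 : 1 - δ ^ 2 ≤ 1 := by nlinarith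
  have hc0 : 0 < 1 - δ ^ 2 := by linarith
  have hd2 : δ ^ 2 ≤ 1 / 16 := by nlinarith
  have hd3 : δ ^ 3 ≤ 1 / 64 := by
    have : δ ^ 3 = δ * δ ^ 2 := by ring
    rw [this]
    nlinarith [sq_nonneg δ]
  have hR : δ ≤ (8 / 15 / δ) * (1 - δ ^ 2) * η := by
    have e1 : 2 * δ ^ 2 * (15 / 16) ≤ η * (1 - δ ^ 2) :=
      mul_le_mul hδη hc (by norm_num) hη0.le
    have e2 : (8 / 15 / δ) * (1 - δ ^ 2) * η = 8 / 15 * (η * (1 - δ ^ 2)) / δ := by
      field_simp
    rw [e2, le_div_iff₀ hδ0]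
    nlinarith
  refine edge_defect (m := 16 / 5 * δ ^ 3) (R := 8 / 15 / δ) (κ := 128 / 225)
    (N := 13 / 4 * δ ^ 2) hA hδ0.le (by linarith) hrow hη0 hη hf h hne (by positivity) ?_ ?_
    (by positivity) hR (by norm_num) ?_ (by positivity) ?_ ?_ ?_ hij
  · -- `((1 + 4 δ²) m + 2 δ²) δ ≤ m (1 - δ²)`
    have e1 : (1 + 4 * δ ^ 2) * δ ≤ 5 / 16 := by nlinarith
    have e2 : 0 ≤ 16 / 5 * δ ^ 3 := by positivity
    have e3 := mul_le_mul_of_nonneg_left e1 e2
    have e4 := mul_le_mul_of_nonneg_left hc e2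
    nlinarith
  · nlinarith
  · have e1 : 8 / 15 / δ * δ = 8 / 15 := by field_simp
    rw [e1]
    nlinarith
  · have e1 : 1 + 2 * (16 / 5 * δ ^ 3) ≤ 11 / 10 := by nlinarith
    have e2 : 0 ≤ δ ^ 2 := sq_nonneg δ
    have e3 : 2 * (1 + 2 * (16 / 5 * δ ^ 3)) * (128 / 225) ≤
        ((1 - δ ^ 2) * (1 - 128 / 225) - δ ^ 3) * (13 / 4) := by nlinarith
    have e4 := mul_le_mul_of_nonneg_left e3 e2
    nlinarith
  · nlinarith
  · have e1 : 1 + 2 * (16 / 5 * δ ^ 3) ≤ 11 / 10 := by nlinarith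
    have e0 : 0 ≤ 1 + 2 * (16 / 5 * δ ^ 3) := by positivity
    have e2 : 2 * δ ^ 2 * (1 + 2 * (16 / 5 * δ ^ 3)) + (1 - δ ^ 2) * (13 / 4 * δ ^ 2) ≤
        109 / 20 * δ ^ 2 := by
      have := mul_le_mul_of_nonneg_left e1 (show 0 ≤ 2 * δ ^ 2 by positivity)
      have e3 := mul_le_mul_of_nonneg_right hc1 (show 0 ≤ 13 / 4 * δ ^ 2 by positivity)
      linarith
    have e4 : (1 + 2 * (16 / 5 * δ ^ 3)) *
        (2 * δ ^ 2 * (1 + 2 * (16 / 5 * δ ^ 3)) + (1 - δ ^ 2) * (13 / 4 * δ ^ 2)) ≤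
        11 / 10 * (109 / 20 * δ ^ 2) :=
      mul_le_mul e1 e2 (by positivity) (by norm_num)
    have e5 := mul_le_mul_of_nonneg_left e4 (show 0 ≤ 8 / 15 / δ by positivity)
    have e6 : 8 / 15 / δ * (11 / 10 * (109 / 20 * δ ^ 2)) = 8 / 15 * (11 / 10 * (109 / 20)) * δ := by
      field_simp
    rw [e6] at e5
    have e7 : (15 / 16 : ℝ) ^ 3 ≤ (1 - δ ^ 2) ^ 3 := pow_le_pow_left₀ (by norm_num) hc 3
    refine e5.trans (le_trans ?_ e7)
    nlinarith

/-- Raising one coupling of the support. -/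
theorem edge_mono [Nonempty V] (G : SimpleGraph V) [DecidableRel G.Adj] {J : Sym2 V → ℝ}
    {δ η : ℝ} (hδ0 : 0 < δ) (hδ1 : δ ≤ 1 / 4) (hη0 : 0 < η) (hδη : 2 * δ ^ 2 ≤ η)
    (hJ : ∀ e ∈ G.edgeSet, η ≤ J e)
    (hrow : ∀ v, ∑ u ∈ G.neighborFinset v, J s(v, u) ≤ δ)
    {e : Sym2 V} (he : e ∈ G.edgeSet) {y : ℝ} (hy : J e ≤ y) :
    gap (gibbs G (Function.update J e y)) ≤ gap (gibbs G J) := by
  induction e with
  | h i j =>
    have hadj : G.Adj i j := he
    have hA := coup_mat G (J := J) fun e he => hη0.le.trans (hJ e he)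
    have hrow' : ∀ v, ∑ u, mat G J v u ≤ δ := fun v => by rw [sum_mat]; exact hrow v
    have hη : ∀ u v, mat G J u v ≠ 0 → η ≤ mat G J u v := by
      intro u v
      unfold mat
      split_ifs with h
      · exact fun _ => hJ _ h
      · exact fun h0 => absurd rfl h0
    have hij : mat G J i j ≠ 0 := by
      unfold mat
      rw [if_pos hadj]
      exact (hη0.trans_le (hJ _ he)).ne'
    obtain ⟨f, ρ, h1, h2, h3, h4, h5, h6, h7⟩ := exists_eig_inv hA
    have hE : Eig (mat G J) f ((Fintype.card V : ℝ) - ρ) := eig_of_ceSum hA h6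
    have hne : ∃ k, XX f k ≠ 0 := by
      by_contra hcon
      push Not at hcon
      have hD : ∀ k σ, D k f σ = 0 := fun k σ =>
        le_antisymm ((le_XX f k σ).trans (hcon k).le) (D_nonneg h3 k σ)
      have hconst : ∀ σ τ, f σ - f τ ≤ 0 := by
        intro σ τ
        have := osc_le (g := f) (B := fun _ => 0) (fun v σ => by rw [hD, abs_zero]) σ τ
        simpa using this
      have h0 : ∀ σ, f σ = 0 := by
        intro σ
        have e1 := hconst σ (neg σ)
        have e2 := hconst (neg σ) σ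
        have e3 := h2 σ
        linarith
      have : ip (W (mat G J)) f f = 0 := by
        unfold ip
        exact Finset.sum_eq_zero fun σ _ => by rw [h0 σ]; ring
      rw [h5] at this
      exact one_ne_zero this
    have hcore := edge_defect_num hA hδ0 hδ1 hrow' hη0 hδη hη h3 hE hne hij
    have hEq : G.edgeFinset = insert s(i, j) G.edgeFinset :=
      (Finset.insert_eq_of_mem (SimpleGraph.mem_edgeFinset.2 he)).symm
    have hw := weight_pair (G := G) (G' := G) (J := J) (J' := Function.update J s(i, j) y) hEq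
      (fun e _ hne => Function.update_of_ne hne _ _)
    rw [Function.update_self, if_pos (SimpleGraph.mem_edgeFinset.2 he)] at hw
    have h8 : weight G (Function.update J s(i, j) y) = fun σ => W (mat G J) σ *
        Real.exp ((y - J s(i, j)) * (sp i σ * sp j σ)) := by
      funext σ
      rw [hw σ, weight_eq_W]
      rfl
    rw [gibbs_eq, gibbs_eq, h8, weight_eq_W]
    refine gap_le_of_defect (W_pos _) (fun σ => W_neg σ) (W_fkg hA)
      (fun σ => mul_pos (W_pos _ σ) (Real.exp_pos _)) (fun σ => ?_) h2 h5 h6 h7 ?_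
    · rw [W_neg, sp_neg, sp_neg, neg_mul_neg]
    · have e1 : ∑ σ, W (mat G J) σ * Real.exp ((y - J s(i, j)) * (sp i σ * sp j σ)) *
          defect (W (mat G J)) f σ =
          Real.cosh (y - J s(i, j)) * ∑ σ, W (mat G J) σ * defect (W (mat G J)) f σ +
            Real.sinh (y - J s(i, j)) *
              ∑ σ, W (mat G J) σ * (sp i σ * sp j σ * defect (W (mat G J)) f σ) := by
        rw [Finset.mul_sum, Finset.mul_sum, ← Finset.sum_add_distrib]
        refine Finset.sum_congr rfl fun σ _ => ?_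
        rw [exp_pair]
        ring
      rw [e1, sum_defect_zero (W_pos _), mul_zero, zero_add]
      exact mul_nonneg (Real.sinh_nonneg_iff.2 (by linarith)) hcore

/-- **Monotonicity in every coupling of the support in a box at high temperature.** -/
theorem box_mono [Nonempty V] (G : SimpleGraph V) [DecidableRel G.Adj] {J J' : Sym2 V → ℝ}
    {δ η : ℝ} (hδ1 : δ ≤ 1 / 4) (hη0 : 0 < η) (hδη : 2 * δ ^ 2 ≤ η)
    (hJ : ∀ e ∈ G.edgeSet, η ≤ J e) (hJJ' : ∀ e ∈ G.edgeSet, J e ≤ J' e)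
    (hrow : ∀ v, ∑ u ∈ G.neighborFinset v, J' s(v, u) ≤ δ) :
    gap (gibbs G J') ≤ gap (gibbs G J) := by
  have main : ∀ s : Finset (Sym2 V), s ⊆ G.edgeFinset →
      gap (gibbs G (fun e => if e ∈ s then J' e else J e)) ≤ gap (gibbs G J) := by
    intro s
    induction s using Finset.induction with
    | empty =>
      intro _
      simp
    | insert e s hes ih =>
      intro hsub
      have he : e ∈ G.edgeSet := SimpleGraph.mem_edgeFinset.1 (hsub (Finset.mem_insert_self _ _))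
      have hs : s ⊆ G.edgeFinset := fun x hx => hsub (Finset.mem_insert_of_mem hx)
      refine le_trans ?_ (ih hs)
      have e1 : (fun e' => if e' ∈ insert e s then J' e' else J e') =
          Function.update (fun e' => if e' ∈ s then J' e' else J e') e (J' e) := by
        funext e'
        by_cases h : e' = e
        · subst h
          simp
        · rw [Function.update_of_ne h]
          simp [Finset.mem_insert, h]
      rw [e1]
      have hle : ∀ e ∈ G.edgeSet, (if e ∈ s then J' e else J e) ≤ J' e := by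
        intro e he
        split_ifs
        · exact le_rfl
        · exact hJJ' e he
      have hrow' : ∀ v, ∑ u ∈ G.neighborFinset v,
          (if s(v, u) ∈ s then J' s(v, u) else J s(v, u)) ≤ δ := by
        intro v
        refine le_trans (Finset.sum_le_sum fun u hu => ?_) (hrow v)
        exact hle _ ((SimpleGraph.mem_neighborFinset G v u).1 hu)
      have hge : ∀ e ∈ G.edgeSet, η ≤ (if e ∈ s then J' e else J e) := by
        intro e he
        split_ifs
        · exact (hJ e he).trans (hJJ' e he)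
        · exact hJ e he
      have hδ0 : 0 < δ := by
        induction e with
        | h i j =>
          have hadj : G.Adj i j := he
          have h1 : η ≤ ∑ u ∈ G.neighborFinset i, J' s(i, u) := by
            calc η ≤ J' s(i, j) := (hJ _ he).trans (hJJ' _ he)
              _ ≤ _ := Finset.single_le_sum (f := fun u => J' s(i, u)) (fun u hu => by
                  have hu' : G.Adj i u := (SimpleGraph.mem_neighborFinset G i u).1 hu
                  exact hη0.le.trans ((hJ _ hu').trans (hJJ' _ hu')))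
                ((SimpleGraph.mem_neighborFinset G i j).2 hadj)
          linarith [hrow i]
      refine edge_mono G hδ0 hδ1 hη0 hδη hge hrow' he ?_
      rw [if_neg hes]
      exact hJJ' e he
  have h1 := main G.edgeFinset (Finset.Subset.refl _)
  have h2 : weight G (fun e => if e ∈ G.edgeFinset then J' e else J e) = weight G J' := by
    apply weight_congr
    intro e he
    simp only [SimpleGraph.mem_edgeFinset, he, if_true]
  have h3 : gibbs G (fun e => if e ∈ G.edgeFinset then J' e else J e) = gibbs G J' := by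
    rw [gibbs_eq, gibbs_eq, h2]
  rw [h3] at h1
  exact h1

end Pool.Agent.Lib.MP_f82811_pr.HT
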