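import Pool.Agent.Lib.MP_f82811_pr.HT.Defs

/-!
# The slowest odd eigenfunction in an invariant cone
-/

set_option autoImplicit false

namespace Pool.Agent.Lib.MP_f82811_pr.HT

open Finset

variable {V : Type*} [Fintype V] [DecidableEq V] {w : (V → Bool) → ℝ}

theorem exists_max_cone [Nonempty V] (hw : ∀ σ, 0 < w σ) (P : ((V → Bool) → ℝ) → Prop)
    (hclosed : IsClosed {f : (V → Bool) → ℝ | P f})
    (hscale : ∀ (c : ℝ) (f : (V → Bool) → ℝ), 0 ≤ c → P f → P (fun σ => c * f σ))
    (hmag : P mag) :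
    ∃ f : (V → Bool) → ℝ, P f ∧ ip w f f = 1 ∧
      ∀ g : (V → Bool) → ℝ, P g →
        ip w g (ceSum w g) ≤ ip w f (ceSum w f) * ip w g g := by
  obtain ⟨S, hS⟩ : ∃ S : Set ((V → Bool) → ℝ), S = {f | P f ∧ ip w f f = 1} := ⟨_, rfl⟩
  have hclosedS : IsClosed S := by
    rw [hS]
    have h3 : IsClosed {f : (V → Bool) → ℝ | ip w f f = 1} :=
      isClosed_eq continuous_ip_self continuous_const
    exact hclosed.inter h3
  have hbdd : ∃ B : ℝ, ∀ f ∈ S, ∀ σ, |f σ| ≤ B := by
    refine ⟨∑ σ, (1 / w σ + 1), fun f hf σ => ?_⟩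
    rw [hS] at hf
    have h1 : w σ * (f σ * f σ) ≤ 1 := by
      rw [← hf.2]
      exact Finset.single_le_sum (f := fun σ => w σ * (f σ * f σ))
        (fun σ _ => mul_nonneg (hw σ).le (mul_self_nonneg _)) (Finset.mem_univ σ)
    have h2 : f σ * f σ ≤ 1 / w σ := by
      rw [le_div_iff₀ (hw σ)]
      linarith
    have h3 : |f σ| ≤ 1 / w σ + 1 := by
      have h4 : 0 ≤ 1 / w σ := (one_div_pos.2 (hw σ)).le
      apply abs_le_of_sq_le_sq
      · nlinarith
      · linarith
    refine h3.trans ?_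
    exact Finset.single_le_sum (f := fun σ => 1 / w σ + 1)
      (fun σ _ => by have := one_div_pos.2 (hw σ); linarith) (Finset.mem_univ σ)
  obtain ⟨B, hB⟩ := hbdd
  have hcompact : IsCompact S := by
    apply IsCompact.of_isClosed_subset
      (isCompact_Icc (a := fun _ : V → Bool => -B) (b := fun _ : V → Bool => B)) hclosedS
    intro f hf
    rw [Set.mem_Icc]
    exact ⟨fun σ => (abs_le.1 (hB f hf σ)).1, fun σ => (abs_le.1 (hB f hf σ)).2⟩
  have hscaleS : ∀ g : (V → Bool) → ℝ, P g → ip w g g ≠ 0 →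
      (fun σ => (1 / Real.sqrt (ip w g g)) * g σ) ∈ S := by
    intro g hg1 hg3
    have hpos : 0 < ip w g g := lt_of_le_of_ne (ip_self_nonneg hw g) (Ne.symm hg3)
    have hs : 0 < Real.sqrt (ip w g g) := Real.sqrt_pos.2 hpos
    rw [hS]
    refine ⟨hscale _ _ (one_div_pos.2 hs).le hg1, ?_⟩
    rw [ip_smul_left, ip_smul_right]
    have h1 : Real.sqrt (ip w g g) * Real.sqrt (ip w g g) = ip w g g :=
      Real.mul_self_sqrt hpos.le
    field_simp
    nlinarith [h1]
  have hne : S.Nonempty := by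
    refine ⟨_, hscaleS mag hmag ?_⟩
    have h1 : mag (V := V) (fun _ => true) ≠ 0 := by
      unfold mag
      simp
    exact (ip_self_pos hw h1).ne'
  obtain ⟨f, hfS, hmax⟩ := hcompact.exists_isMaxOn hne
    (continuous_ip_ceSum (w := w)).continuousOn
  have hfS' := hfS
  rw [hS] at hfS'
  refine ⟨f, hfS'.1, hfS'.2, fun g hg1 => ?_⟩
  by_cases hg3 : ip w g g = 0
  · have h0 : ∀ σ, g σ = 0 := by
      intro σ
      by_contra hcon
      exact (ip_self_pos hw hcon).ne' hg3
    have h1 : ip w g (ceSum w g) = 0 := by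
      unfold ip
      exact Finset.sum_eq_zero fun σ _ => by rw [h0 σ]; ring
    rw [h1, hg3, mul_zero]
  · have hpos : 0 < ip w g g := lt_of_le_of_ne (ip_self_nonneg hw g) (Ne.symm hg3)
    have h1 := hmax (hscaleS g hg1 hg3)
    have h1' : ip w (fun σ => (1 / Real.sqrt (ip w g g)) * g σ)
        (ceSum w (fun σ => (1 / Real.sqrt (ip w g g)) * g σ)) ≤ ip w f (ceSum w f) := h1
    have h2 : ceSum w (fun σ => (1 / Real.sqrt (ip w g g)) * g σ) =
        fun σ => (1 / Real.sqrt (ip w g g)) * ceSum w g σ := by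
      have := ceSum_lin (w := w) (1 / Real.sqrt (ip w g g)) 0 g g
      simpa using this
    rw [h2, ip_smul_left, ip_smul_right] at h1'
    have hs : 0 < Real.sqrt (ip w g g) := Real.sqrt_pos.2 hpos
    have h3 : Real.sqrt (ip w g g) * Real.sqrt (ip w g g) = ip w g g :=
      Real.mul_self_sqrt hpos.le
    have h4 : 1 / Real.sqrt (ip w g g) * (1 / Real.sqrt (ip w g g) * ip w g (ceSum w g)) =
        ip w g (ceSum w g) / (Real.sqrt (ip w g g) * Real.sqrt (ip w g g)) := by
      field_simp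
    rw [h4, h3, div_le_iff₀ hpos] at h1'
    exact h1'

/-- In a closed cone of odd nondecreasing functions which is preserved by the dynamics and
contains the magnetisation there is an eigenfunction for the largest eigenvalue on all odd
functions. -/
theorem exists_eig_cone [Nonempty V] (hw : ∀ σ, 0 < w σ) (hsym : ∀ σ, w (neg σ) = w σ)
    (hfkg : ∀ σ τ, w σ * w τ ≤ w (σ ⊓ τ) * w (σ ⊔ τ)) (P : ((V → Bool) → ℝ) → Prop)
    (hclosed : IsClosed {f : (V → Bool) → ℝ | P f})
    (hscale : ∀ (c : ℝ) (f : (V → Bool) → ℝ), 0 ≤ c → P f → P (fun σ => c * f σ))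
    (hce : ∀ f, P f → P (ceSum w f)) (hmag : P mag) :
    ∃ (f : (V → Bool) → ℝ) (ρ : ℝ), 0 ≤ ρ ∧ P f ∧ ip w f f = 1 ∧
      ceSum w f = (fun σ => ρ * f σ) ∧
      ∀ g : (V → Bool) → ℝ, Odd' g → ip w g (ceSum w g) ≤ ρ * ip w g g := by
  obtain ⟨f, hP, hone, hmax⟩ := exists_max_cone hw P hclosed hscale hmag
  refine ⟨f, ip w f (ceSum w f), ip_ceSum_nonneg hw f, hP, hone, ?_, ?_⟩
  · set ρ := ip w f (ceSum w f) with hρ
    have hρ0 : 0 ≤ ρ := ip_ceSum_nonneg hw f
    set a2 := ip w (ceSum w f) (ceSum w f) with ha2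
    have ha2' : ip w f (ceSum w (ceSum w f)) = a2 := by rw [ip_ceSum_symm hw]
    have h1 := ip_ceSum_sq_le hw f (ceSum w f)
    rw [ha2'] at h1
    have h2 := hmax (ceSum w f) (hce f hP)
    have ha20 : 0 ≤ a2 := ip_self_nonneg hw _
    have h3 : a2 ≤ ρ ^ 2 := by
      have h4 : ρ * ip w (ceSum w f) (ceSum w (ceSum w f)) ≤ ρ * (ρ * a2) :=
        mul_le_mul_of_nonneg_left h2 hρ0
      rcases ha20.lt_or_eq with h | h
      · have : a2 * a2 ≤ ρ ^ 2 * a2 := by nlinarith
        exact le_of_mul_le_mul_right this h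
      · rw [← h]; positivity
    have h4 := ip_sq_le hw f (ceSum w f)
    rw [hone, one_mul] at h4
    have h5 : a2 = ρ ^ 2 := le_antisymm h3 h4
    have h6 : ip w (fun σ => ceSum w f σ + (-ρ) * f σ)
        (fun σ => ceSum w f σ + (-ρ) * f σ) = 0 := by
      rw [ip_add_left, ip_add_right, ip_add_right, ip_smul_left, ip_smul_left, ip_smul_right,
        ip_smul_right, ip_comm (ceSum w f) f, ← hρ, ← ha2, hone, h5]
      ring
    funext σ
    by_contra hcon
    have h7 : ceSum w f σ + (-ρ) * f σ ≠ 0 := by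
      intro h
      apply hcon
      linarith
    exact (ip_self_pos hw (g := fun σ => ceSum w f σ + (-ρ) * f σ) h7).ne' h6
  · have hρ0 : 0 ≤ ip w f (ceSum w f) := ip_ceSum_nonneg hw f
    generalize ip w f (ceSum w f) = ρ at hmax hρ0
    intro g hg
    have hmm : ∀ k, P (iter w k (mag (V := V))) := by
      intro k
      induction k with
      | zero => exact hmag
      | succ k ih => rw [iter_succ]; exact hce _ ih
    have hstep : ∀ h : (V → Bool) → ℝ, P h →
        ip w (ceSum w h) (ceSum w h) ≤ ρ ^ 2 * ip w h h := by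
      intro h h2
      set N := ip w (ceSum w h) (ceSum w h) with hN
      have e1 : ip w h (ceSum w (ceSum w h)) = N := by rw [ip_ceSum_symm hw]
      have e2 := ip_ceSum_sq_le hw h (ceSum w h)
      rw [e1] at e2
      have e3 := hmax h h2
      have e4 := hmax (ceSum w h) (hce _ h2)
      have e5 : 0 ≤ ip w h h := ip_self_nonneg hw h
      have e6 : 0 ≤ N := ip_self_nonneg hw _
      have e7 : 0 ≤ ip w h (ceSum w h) := ip_ceSum_nonneg hw h
      have e8 : ip w h (ceSum w h) * ip w (ceSum w h) (ceSum w (ceSum w h)) ≤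
          (ρ * ip w h h) * (ρ * N) :=
        mul_le_mul e3 e4 (ip_ceSum_nonneg hw _) (mul_nonneg hρ0 e5)
      have e9 : N * N ≤ (ρ ^ 2 * ip w h h) * N := by nlinarith
      rcases e6.lt_or_eq with h | h
      · exact le_of_mul_le_mul_right e9 h
      · rw [← h]; positivity
    have hmagk : ∀ k, ip w (iter w k (mag (V := V))) (iter w k mag) ≤
        ip w (mag (V := V)) mag * (ρ ^ 2) ^ k := by
      intro k
      induction k with
      | zero => simp [iter_zero]
      | succ k ih =>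
        rw [iter_succ]
        have h1 := hstep _ (hmm k)
        calc _ ≤ ρ ^ 2 * ip w (iter w k (mag (V := V))) (iter w k mag) := h1
          _ ≤ ρ ^ 2 * (ip w (mag (V := V)) mag * (ρ ^ 2) ^ k) :=
              mul_le_mul_of_nonneg_left ih (sq_nonneg ρ)
          _ = _ := by ring
    obtain ⟨K, hK1, hK2⟩ := exists_monotone g
    have hm0 : ip w (mag (V := V)) (fun _ => 1) = 0 := ip_odd_even hsym mag_odd (fun _ => rfl)
    have hg0 : ip w g (fun _ => 1) = 0 := ip_odd_even hsym hg (fun _ => rfl)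
    have hf0 : ip w (fun σ => K * mag σ + 1 * g σ) (fun _ => 1) = 0 := by
      rw [ip_add_left, ip_smul_left, ip_smul_left, hm0, hg0]; ring
    have hdom : ∀ k, ip w (iter w k g) (iter w k g) ≤
        (K ^ 2 * ip w (mag (V := V)) mag) * (ρ ^ 2) ^ k := by
      intro k
      have h1 := fkg_ip hw hfkg (iter_mono hw hfkg hK1 k) (iter_mono hw hfkg hK2 k)
        (iter_mean hw k _ hf0)
      rw [iter_lin, iter_lin] at h1
      have h2 : ip w (fun σ => K * iter w k mag σ + 1 * iter w k g σ)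
          (fun σ => K * iter w k mag σ + (-1) * iter w k g σ) =
          K ^ 2 * ip w (iter w k mag) (iter w k mag) - ip w (iter w k g) (iter w k g) := by
        rw [ip_add_left, ip_add_right, ip_add_right, ip_smul_left, ip_smul_left, ip_smul_left,
          ip_smul_left, ip_smul_right, ip_smul_right, ip_smul_right, ip_smul_right,
          ip_comm (iter w k g) (iter w k mag)]
        ring
      rw [h2] at h1
      have h4 : K ^ 2 * ip w (iter w k mag) (iter w k mag) ≤
          K ^ 2 * (ip w (mag (V := V)) mag * (ρ ^ 2) ^ k) :=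
        mul_le_mul_of_nonneg_left (hmagk k) (sq_nonneg K)
      linarith
    have hlc : ∀ k, ip w (iter w (k + 1) g) (iter w (k + 1) g) ^ 2 ≤
        ip w (iter w k g) (iter w k g) * ip w (iter w (k + 2) g) (iter w (k + 2) g) := by
      intro k
      have h1 : ip w (iter w (k + 1) g) (iter w (k + 1) g) =
          ip w (iter w k g) (iter w (k + 2) g) := by
        rw [iter_succ (k + 1) g, ip_ceSum_symm hw, iter_succ k g]
      rw [h1]
      exact ip_sq_le hw _ _
    have h1 := log_convex_bound (fun k => ip w (iter w k g) (iter w k g))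
      (fun k => ip_self_nonneg hw _) hlc _ (ρ ^ 2) (sq_nonneg ρ) hdom
    simp only [iter_zero] at h1
    have h1' : ip w (ceSum w g) (ceSum w g) ≤ ρ ^ 2 * ip w g g := h1
    have h2 := ip_sq_le hw g (ceSum w g)
    have h3 : 0 ≤ ip w g g := ip_self_nonneg hw g
    have h4 : ip w g (ceSum w g) ^ 2 ≤ (ρ * ip w g g) ^ 2 := by
      calc _ ≤ ip w g g * ip w (ceSum w g) (ceSum w g) := h2
        _ ≤ ip w g g * (ρ ^ 2 * ip w g g) := mul_le_mul_of_nonneg_left h1' h3
        _ = _ := by ring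
    exact le_of_abs_le (abs_le_of_sq_le_sq h4 (mul_nonneg hρ0 h3))

omit [Fintype V] [DecidableEq V] in
theorem isClosed_odd_mono :
    IsClosed {f : (V → Bool) → ℝ | Odd' f ∧ Monotone f} := by
  have h1 : IsClosed {f : (V → Bool) → ℝ | Odd' f} := by
    unfold Odd'
    rw [Set.ofPred_forall]
    refine isClosed_iInter fun σ => ?_
    exact isClosed_eq (continuous_apply _) (continuous_apply _).neg
  have h2 : IsClosed {f : (V → Bool) → ℝ | Monotone f} := by
    unfold Monotone
    simp only [Set.ofPred_forall]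
    refine isClosed_iInter fun σ => isClosed_iInter fun τ => isClosed_iInter fun _ => ?_
    exact isClosed_le (continuous_apply _) (continuous_apply _)
  exact h1.inter h2

/-- The odd nondecreasing eigenfunction. -/
theorem exists_eig [Nonempty V] (hw : ∀ σ, 0 < w σ)
    (hsym : ∀ σ, w (neg σ) = w σ)
    (hfkg : ∀ σ τ, w σ * w τ ≤ w (σ ⊓ τ) * w (σ ⊔ τ)) :
    ∃ (f : (V → Bool) → ℝ) (ρ : ℝ), 0 ≤ ρ ∧ Odd' f ∧ Monotone f ∧ ip w f f = 1 ∧
      ceSum w f = (fun σ => ρ * f σ) ∧
      ∀ g : (V → Bool) → ℝ, Odd' g → ip w g (ceSum w g) ≤ ρ * ip w g g := by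
  obtain ⟨f, ρ, h1, h2, h3, h4, h5⟩ := exists_eig_cone hw hsym hfkg
    (fun f => Odd' f ∧ Monotone f) isClosed_odd_mono
    (fun c f hc hf => ⟨fun σ => by simp only; rw [hf.1 σ]; ring,
      fun σ τ h => mul_le_mul_of_nonneg_left (hf.2 h) hc⟩)
    (fun f hf => ⟨ceSum_odd hsym hf.1, ceSum_mono hw hfkg hf.2⟩)
    ⟨mag_odd, mag_magMono.monotone⟩
  exact ⟨f, ρ, h1, h2.1, h2.2, h3, h4, h5⟩

end Pool.Agent.Lib.MP_f82811_pr.HT
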