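import Pool.Agent.Lib.MP_f82811_pr.HT.Base

/-!
# The equations of the first and second differences of an eigenfunction
-/

set_option autoImplicit false

namespace Pool.Agent.Lib.MP_f82811_pr.HT

open Finset

variable {V : Type*} [Fintype V] [DecidableEq V]

omit [Fintype V] in
theorem sp_update_true (i : V) (σ : V → Bool) : sp i (Function.update σ i true) = 1 := by
  unfold sp
  rw [Function.update_self]
  rfl

omit [Fintype V] in
theorem sp_update_false (i : V) (σ : V → Bool) : sp i (Function.update σ i false) = -1 := by
  unfold sp
  rw [Function.update_self]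
  rfl

/-- The equation of the first differences of an eigenfunction. -/
theorem id1 {A : V → V → ℝ} (hA : Coup A) {f : (V → Bool) → ℝ} {lam : ℝ} (h : Eig A f lam)
    (i : V) (σ : V → Bool) :
    (1 - lam) * D i f σ + ∑ v ∈ univ.erase i, (sp v σ - M i (tau A v) σ) * D v (D i f) σ =
      ∑ v ∈ univ.erase i, D i (tau A v) σ * M i (D v f) σ := by
  have h1 := h (Function.update σ i true)
  have h2 := h (Function.update σ i false)
  rw [← Finset.add_sum_erase _ _ (Finset.mem_univ i)] at h1 h2
  rw [sp_update_true, D_update, tau_update_self hA] at h1
  rw [sp_update_false, D_update, tau_update_self hA] at h2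
  have h4 : ∀ b, ∀ v ∈ Finset.univ.erase i, (sp v (Function.update σ i b) -
      tau A v (Function.update σ i b)) * D v f (Function.update σ i b) =
      (sp v σ - tau A v (Function.update σ i b)) * D v f (Function.update σ i b) := by
    intro b v hv
    rw [sp_update_ne (Finset.ne_of_mem_erase hv)]
  rw [Finset.sum_congr rfl (h4 true)] at h1
  rw [Finset.sum_congr rfl (h4 false)] at h2
  have h5 : ∑ v ∈ Finset.univ.erase i, (sp v σ - M i (tau A v) σ) * D v (D i f) σ -
      ∑ v ∈ Finset.univ.erase i, D i (tau A v) σ * M i (D v f) σ =
      (∑ v ∈ Finset.univ.erase i, (sp v σ - tau A v (Function.update σ i true)) *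
        D v f (Function.update σ i true) -
      ∑ v ∈ Finset.univ.erase i, (sp v σ - tau A v (Function.update σ i false)) *
        D v f (Function.update σ i false)) / 2 := by
    rw [← Finset.sum_sub_distrib, ← Finset.sum_sub_distrib, Finset.sum_div]
    refine Finset.sum_congr rfl fun v _ => ?_
    rw [D_comm v i]
    generalize D v f = g
    unfold D M
    ring
  have h6 : lam * D i f σ = (lam * f (Function.update σ i true) -
      lam * f (Function.update σ i false)) / 2 := by unfold D; ring
  linear_combination h5 - h6 + h1 / 2 - h2 / 2

/-- The equation of the second differences of an eigenfunction. -/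
theorem id2 {A : V → V → ℝ} (hA : Coup A) {f : (V → Bool) → ℝ} {lam : ℝ} (h : Eig A f lam)
    {i k : V} (hik : i ≠ k) (σ : V → Bool) :
    (2 - lam) * D k (D i f) σ +
      ∑ v ∈ (univ.erase i).erase k,
        (sp v σ - M k (M i (tau A v)) σ) * D v (D k (D i f)) σ =
      ∑ v ∈ (univ.erase i).erase k,
        (D k (M i (tau A v)) σ * M k (D v (D i f)) σ +
          D k (D i (tau A v)) σ * M k (M i (D v f)) σ +
          M k (D i (tau A v)) σ * M i (D k (D v f)) σ) := by
  have hk : k ∈ Finset.univ.erase i := Finset.mem_erase.2 ⟨hik.symm, Finset.mem_univ k⟩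
  have h1 := id1 hA h i (Function.update σ k true)
  have h2 := id1 hA h i (Function.update σ k false)
  rw [← Finset.add_sum_erase _ _ hk, ← Finset.add_sum_erase _ _ hk] at h1 h2
  have hTk : ∀ b, D i (tau A k) (Function.update σ k b) = D i (tau A k) σ := by
    intro b
    unfold D
    rw [Function.update_comm hik.symm b true σ, Function.update_comm hik.symm b false σ,
      tau_update_self hA, tau_update_self hA]
  have hTk' : ∀ b, M i (tau A k) (Function.update σ k b) = M i (tau A k) σ := by
    intro b
    unfold M
    rw [Function.update_comm hik.symm b true σ, Function.update_comm hik.symm b false σ,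
      tau_update_self hA, tau_update_self hA]
  have hg : ∀ b, M i (D k f) (Function.update σ k b) = M i (D k f) σ := by
    intro b
    rw [← D_M_comm hik.symm, D_update]
  rw [sp_update_true, D_update, hTk', hTk, hg] at h1
  rw [sp_update_false, D_update, hTk', hTk, hg] at h2
  have h4 : ∀ b, ∀ v ∈ (Finset.univ.erase i).erase k, (sp v (Function.update σ k b) -
      M i (tau A v) (Function.update σ k b)) * D v (D i f) (Function.update σ k b) =
      (sp v σ - M i (tau A v) (Function.update σ k b)) *
        D v (D i f) (Function.update σ k b) := by
    intro b v hv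
    rw [sp_update_ne (Finset.ne_of_mem_erase hv)]
  rw [Finset.sum_congr rfl (h4 true)] at h1
  rw [Finset.sum_congr rfl (h4 false)] at h2
  have h5 : ∑ v ∈ (Finset.univ.erase i).erase k,
        (sp v σ - M k (M i (tau A v)) σ) * D v (D k (D i f)) σ -
      ∑ v ∈ (Finset.univ.erase i).erase k, (D k (M i (tau A v)) σ * M k (D v (D i f)) σ +
          D k (D i (tau A v)) σ * M k (M i (D v f)) σ +
          M k (D i (tau A v)) σ * M i (D k (D v f)) σ) =
      (∑ v ∈ (Finset.univ.erase i).erase k, (sp v σ - M i (tau A v) (Function.update σ k true)) *
        D v (D i f) (Function.update σ k true) -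
      ∑ v ∈ (Finset.univ.erase i).erase k,
        D i (tau A v) (Function.update σ k true) * M i (D v f) (Function.update σ k true) -
      (∑ v ∈ (Finset.univ.erase i).erase k,
        (sp v σ - M i (tau A v) (Function.update σ k false)) *
        D v (D i f) (Function.update σ k false) -
      ∑ v ∈ (Finset.univ.erase i).erase k,
        D i (tau A v) (Function.update σ k false) * M i (D v f) (Function.update σ k false)))
        / 2 := by
    rw [← Finset.sum_sub_distrib, ← Finset.sum_sub_distrib, ← Finset.sum_sub_distrib,
      ← Finset.sum_sub_distrib, Finset.sum_div]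
    refine Finset.sum_congr rfl fun v _ => ?_
    have e1 : D v (D k (D i f)) = D k (D v (D i f)) := D_comm v k _
    have e3 : M i (D k (D v f)) = D k (M i (D v f)) := (D_M_comm hik.symm _).symm
    rw [e1, e3]
    generalize D v (D i f) = g
    generalize M i (D v f) = g'
    generalize M i (tau A v) = T'
    generalize D i (tau A v) = T''
    unfold D M
    ring
  have h9 : D k (D i f) σ =
      (D i f (Function.update σ k true) - D i f (Function.update σ k false)) / 2 := rfl
  linear_combination h5 + h1 / 2 - h2 / 2 + (1 - lam) * h9

end Pool.Agent.Lib.MP_f82811_pr.HT
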