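import Pool.Agent.Lib.MP_f82811_pr.HT.Base

/-!
# High temperature: lower bound for the derivative in a direction `K`
-/

set_option autoImplicit false

namespace Pool.Agent.Lib.MP_f82811_pr.HT

open Finset

variable {V : Type*} [Fintype V] [DecidableEq V]

section Term

variable {A K F : V → V → ℝ} {f : (V → Bool) → ℝ} {x X : V → ℝ} {δ κ : ℝ}

/-- The bound of the difference of `(1 - τ_i ^ 2) D_i f`. -/
theorem abs_D_rho_le (hA : Coup A) (hδ0 : 0 ≤ δ) (hrow : ∀ v, ∑ u, A v u ≤ δ)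
    (hx0 : ∀ i, 0 ≤ x i) (hx : ∀ i σ, x i ≤ D i f σ)
    (hX : ∀ i σ, D i f σ ≤ X i) (hF : ∀ i k σ, |D k (D i f) σ| ≤ F i k) (i k : V)
    (σ : V → Bool) :
    |D k (fun σ => (1 - tau A i σ ^ 2) * D i f σ) σ| ≤ 2 * δ * A i k * X i + F i k := by
  have h0 := D_mul k (fun σ => 1 - tau A i σ ^ 2) (D i f) σ
  have e1 : |M k (fun σ => 1 - tau A i σ ^ 2) σ| ≤ 1 := by
    apply abs_M_le
    intro τ
    rw [abs_le]
    constructor
    · linarith [tau_sq_lt_one A i τ]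
    · linarith [sq_nonneg (tau A i τ)]
  have e2 := abs_D_sech_le hA hrow k i σ
  have e3 : |M k (D i f) σ| ≤ X i := by
    apply abs_M_le
    intro τ
    rw [abs_of_nonneg ((hx0 i).trans (hx i τ))]
    exact hX i τ
  rw [h0]
  refine (abs_add_le _ _).trans ?_
  rw [abs_mul, abs_mul]
  have h1 : |M k (fun σ => 1 - tau A i σ ^ 2) σ| * |D k (D i f) σ| ≤ 1 * F i k :=
    mul_le_mul e1 (hF i k σ) (abs_nonneg _) zero_le_one
  have h2 : |D k (fun σ => 1 - tau A i σ ^ 2) σ| * |M k (D i f) σ| ≤ 2 * δ * A i k * X i :=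
    mul_le_mul e2 e3 (abs_nonneg _) (mul_nonneg (by positivity) (hA.nonneg i k))
  linarith

/-- The bound of one term. -/
theorem term_low (hA : Coup A) (hK : Coup K) (hδ0 : 0 ≤ δ) (hδ1 : δ < 1)
    (hrow : ∀ v, ∑ u, A v u ≤ δ) (i k : V) (hκ : ∑ u, K i u ≤ κ)
    (hx0 : ∀ i, 0 ≤ x i) (hx : ∀ i σ, x i ≤ D i f σ)
    (hX : ∀ i σ, D i f σ ≤ X i) (hF : ∀ i k σ, |D k (D i f) σ| ≤ F i k) (σ : V → Bool) :
    (1 - δ ^ 2) ^ 2 * (K i k * x i * x k) - κ * (X k * (2 * δ * A i k * X i + F i k)) ≤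
      (1 - tau A k σ ^ 2) * D k f σ *
        D k (fun σ => fld K i σ * ((1 - tau A i σ ^ 2) * D i f σ)) σ := by
  have h0 := D_mul k (fld K i) (fun σ => (1 - tau A i σ ^ 2) * D i f σ) σ
  rw [D_fld] at h0
  rw [h0]
  have hδ2 : 0 ≤ 1 - δ ^ 2 := by nlinarith
  -- the prefactor
  have p1 : (1 - δ ^ 2) * x k ≤ (1 - tau A k σ ^ 2) * D k f σ := by
    apply mul_le_mul _ (hx k σ) (hx0 k) (by linarith [tau_sq_lt_one A k σ])
    linarith [tau_sq_le hA hrow k σ]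
  have p2 : (1 - tau A k σ ^ 2) * D k f σ ≤ X k := by
    have e1 : 0 ≤ D k f σ := (hx0 k).trans (hx k σ)
    have e2 := hX k σ
    nlinarith [sq_nonneg (tau A k σ)]
  have p0 : 0 ≤ (1 - tau A k σ ^ 2) * D k f σ := le_trans (mul_nonneg hδ2 (hx0 k)) p1
  -- the error
  have hκ0 : 0 ≤ κ := le_trans (Finset.sum_nonneg fun u _ => hK.nonneg i u) hκ
  have q1 : |M k (fld K i) σ| ≤ κ := by
    apply abs_M_le
    intro τ
    unfold fld
    refine (Finset.abs_sum_le_sum_abs _ _).trans (le_trans ?_ hκ)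
    refine Finset.sum_le_sum fun u _ => ?_
    rw [abs_mul, abs_sp, mul_one, abs_of_nonneg (hK.nonneg i u)]
  have q2 := abs_D_rho_le hA hδ0 hrow hx0 hx hX hF i k σ
  have q3 : |M k (fld K i) σ * D k (fun σ => (1 - tau A i σ ^ 2) * D i f σ) σ| ≤
      κ * (2 * δ * A i k * X i + F i k) := by
    rw [abs_mul]
    exact mul_le_mul q1 q2 (abs_nonneg _) hκ0
  have q4 : 0 ≤ κ * (2 * δ * A i k * X i + F i k) := le_trans (abs_nonneg _) q3
  have q5 := (abs_le.1 q3).1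
  have hXk : 0 ≤ X k := p0.trans p2
  have r1 : -(X k * (κ * (2 * δ * A i k * X i + F i k))) ≤
      (1 - tau A k σ ^ 2) * D k f σ *
        (M k (fld K i) σ * D k (fun σ => (1 - tau A i σ ^ 2) * D i f σ) σ) := by
    have s1 : (1 - tau A k σ ^ 2) * D k f σ * (-(κ * (2 * δ * A i k * X i + F i k))) ≤
        (1 - tau A k σ ^ 2) * D k f σ *
        (M k (fld K i) σ * D k (fun σ => (1 - tau A i σ ^ 2) * D i f σ) σ) :=
      mul_le_mul_of_nonneg_left q5 p0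
    have s2 : (1 - tau A k σ ^ 2) * D k f σ * (κ * (2 * δ * A i k * X i + F i k)) ≤
        X k * (κ * (2 * δ * A i k * X i + F i k)) := mul_le_mul_of_nonneg_right p2 q4
    linarith
  -- the main term
  have m1 : (1 - δ ^ 2) * x i ≤ M k (fun σ => (1 - tau A i σ ^ 2) * D i f σ) σ := by
    apply le_M
    intro τ
    apply mul_le_mul _ (hx i τ) (hx0 i) (by linarith [tau_sq_lt_one A i τ])
    linarith [tau_sq_le hA hrow i τ]
  have m2 : (1 - δ ^ 2) * x k * (K i k * ((1 - δ ^ 2) * x i)) ≤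
      (1 - tau A k σ ^ 2) * D k f σ *
        (K i k * M k (fun σ => (1 - tau A i σ ^ 2) * D i f σ) σ) :=
    mul_le_mul p1 (mul_le_mul_of_nonneg_left m1 (hK.nonneg i k))
      (mul_nonneg (hK.nonneg i k) (mul_nonneg hδ2 (hx0 i))) p0
  linarith

end Term

/-- `λ ∑_i E[(Kσ)_i ρ_i f]` from below, with individual row sums of `K`. -/
theorem low' {A K F : V → V → ℝ} {f : (V → Bool) → ℝ} {x X κ : V → ℝ} {lam δ : ℝ} (hA : Coup A)
    (hK : Coup K) (hδ0 : 0 ≤ δ) (hδ1 : δ < 1) (hrow : ∀ v, ∑ u, A v u ≤ δ)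
    (hκ : ∀ v, ∑ u, K v u ≤ κ v)
    (h : Eig A f lam) (hx0 : ∀ i, 0 ≤ x i) (hx : ∀ i σ, x i ≤ D i f σ)
    (hX : ∀ i σ, D i f σ ≤ X i) (hF : ∀ i k σ, |D k (D i f) σ| ≤ F i k) :
    ((1 - δ ^ 2) ^ 2 * ∑ i, ∑ k, K i k * x i * x k -
        ∑ i, κ i * ∑ k, X k * (2 * δ * A i k * X i + F i k)) * ∑ σ, W A σ ≤
      lam * ∑ σ, W A σ * ∑ i, fld K i σ * ((1 - tau A i σ ^ 2) * D i f σ) * f σ := by
  have h1 : lam * ∑ σ, W A σ * ∑ i, fld K i σ * ((1 - tau A i σ ^ 2) * D i f σ) * f σ =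
      ∑ i, ∑ k, ∑ σ, W A σ * ((1 - tau A k σ ^ 2) * D k f σ *
        D k (fun σ => fld K i σ * ((1 - tau A i σ ^ 2) * D i f σ)) σ) := by
    have e1 : ∑ σ, W A σ * ∑ i, fld K i σ * ((1 - tau A i σ ^ 2) * D i f σ) * f σ =
        ∑ i, ∑ σ, W A σ * (f σ * (fld K i σ * ((1 - tau A i σ ^ 2) * D i f σ))) := by
      rw [Finset.sum_comm]
      refine Finset.sum_congr rfl fun σ _ => ?_
      rw [Finset.mul_sum]
      exact Finset.sum_congr rfl fun i _ => by ring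
    rw [e1, Finset.mul_sum]
    exact Finset.sum_congr rfl fun i _ => eig_pairing hA h _
  rw [h1]
  have h2 : ((1 - δ ^ 2) ^ 2 * ∑ i, ∑ k, K i k * x i * x k -
        ∑ i, κ i * ∑ k, X k * (2 * δ * A i k * X i + F i k)) * ∑ σ, W A σ =
      ∑ i, ∑ k, ∑ σ, W A σ * ((1 - δ ^ 2) ^ 2 * (K i k * x i * x k) -
        κ i * (X k * (2 * δ * A i k * X i + F i k))) := by
    have e1 : ∀ i k, ∑ σ, W A σ * ((1 - δ ^ 2) ^ 2 * (K i k * x i * x k) -
        κ i * (X k * (2 * δ * A i k * X i + F i k))) =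
        ((1 - δ ^ 2) ^ 2 * (K i k * x i * x k) -
        κ i * (X k * (2 * δ * A i k * X i + F i k))) * ∑ σ, W A σ := by
      intro i k
      rw [Finset.mul_sum]
      exact Finset.sum_congr rfl fun σ _ => mul_comm _ _
    rw [Finset.sum_congr rfl fun i _ => Finset.sum_congr rfl fun k _ => e1 i k]
    rw [Finset.sum_congr rfl fun i _ => (Finset.sum_mul _ _ _).symm, ← Finset.sum_mul]
    congr 1
    rw [Finset.mul_sum, ← Finset.sum_sub_distrib]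
    refine Finset.sum_congr rfl fun i _ => ?_
    rw [Finset.mul_sum, Finset.mul_sum, ← Finset.sum_sub_distrib]
  rw [h2]
  refine Finset.sum_le_sum fun i _ => Finset.sum_le_sum fun k _ => Finset.sum_le_sum fun σ _ => ?_
  exact mul_le_mul_of_nonneg_left
    (term_low hA hK hδ0 hδ1 hrow i k (hκ i) hx0 hx hX hF σ) (W_pos A σ).le

/-- `λ ∑_i E[(Kσ)_i ρ_i f]` from below. -/
theorem low {A K F : V → V → ℝ} {f : (V → Bool) → ℝ} {x X : V → ℝ} {lam δ κ : ℝ} (hA : Coup A)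
    (hK : Coup K) (hδ0 : 0 ≤ δ) (hδ1 : δ < 1) (hrow : ∀ v, ∑ u, A v u ≤ δ)
    (hκ : ∀ v, ∑ u, K v u ≤ κ)
    (h : Eig A f lam) (hx0 : ∀ i, 0 ≤ x i) (hx : ∀ i σ, x i ≤ D i f σ)
    (hX : ∀ i σ, D i f σ ≤ X i) (hF : ∀ i k σ, |D k (D i f) σ| ≤ F i k) :
    ((1 - δ ^ 2) ^ 2 * ∑ i, ∑ k, K i k * x i * x k -
        κ * ∑ i, ∑ k, X k * (2 * δ * A i k * X i + F i k)) * ∑ σ, W A σ ≤
      lam * ∑ σ, W A σ * ∑ i, fld K i σ * ((1 - tau A i σ ^ 2) * D i f σ) * f σ := by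
  have h1 := low' (κ := fun _ => κ) hA hK hδ0 hδ1 hrow hκ h hx0 hx hX hF
  rw [Finset.mul_sum (s := univ) (a := κ)]
  exact h1

end Pool.Agent.Lib.MP_f82811_pr.HT
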