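import Pool.Agent.Lib.MP_f82811_pr.HT.Low
import Pool.Agent.Lib.MP_f82811_pr.HT.Num
import Pool.Agent.Lib.MP_f82811_pr.HT.Path
import Pool.Agent.Lib.MP_f82811_pr.HT.Graph
import Pool.Agent.Lib.MP_f82811_pr.Bridge

/-!
# High temperature: comparison along segments

The derivative of the gap in a direction `K` is negative when `K` is at least `c0 κ A` entrywise,
`κ` being the largest row sum of `K`. Integrated along a segment this gives the comparison of two
Gibbs measures.
-/

set_option autoImplicit false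

namespace Pool.Agent.Lib.MP_f82811_pr.HT

open Finset

section
variable {V : Type*} [Fintype V] [DecidableEq V]

/-- Strict positivity of the derivative under the numerical conditions. -/
theorem deriv_pos {A K : V → V → ℝ} {f : (V → Bool) → ℝ} {lam δ κ c0 m y : ℝ} (hA : Coup A)
    (hK : Coup K) (hδ0 : 0 ≤ δ) (hδ1 : δ < 1) (hrow : ∀ v, ∑ u, A v u ≤ δ)
    (hκ : ∀ v, ∑ u, K v u ≤ κ) (hκ0 : 0 < κ) (hKA : ∀ u v, c0 * κ * A u v ≤ K u v)
    (hf : Monotone f) (h : Eig A f lam) (hne : ∃ i, XX f i ≠ 0) (hlam : lam < 1)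
    (hm0 : 0 ≤ m) (hm : ((1 + 4 * δ ^ 2) * m + 2 * δ ^ 2) * δ ≤ m * (1 - δ ^ 2))
    (hδ2 : (1 + 4 * δ ^ 2) * δ < 1 - δ) (hpos : 0 < (1 - δ ^ 2) * (1 - δ) - δ ^ 3)
    (hy : 2 * δ ^ 2 * (1 + 2 * m) * (1 - δ ^ 2) ≤ y * ((1 - δ ^ 2) * (1 - δ) - δ ^ 3))
    (hnum : 2 * δ * (1 + 2 * m) ^ 2 + (1 + 2 * m) * y < (1 - δ ^ 2) ^ 2 * c0) :
    0 < ∑ σ, W A σ * (en K σ * defect (W A) f σ) := by
  obtain ⟨hl1, hl2, -, hXx, hY⟩ := bounds hA hδ0 hδ1 hrow hf h hne hm0 hm hδ2
  set S := ∑ i, ∑ k, A i k * xx f i * xx f k with hS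
  set Y := ∑ i, ∑ k, xx f k * FF f i k with hYdef
  have hx0 : ∀ i, 0 ≤ xx f i := xx_nonneg hf
  have hS0 : 0 < S := by
    obtain ⟨i, hi⟩ := hne
    have hXi : 0 < XX f i := lt_of_le_of_ne (XX_nonneg hf i) (Ne.symm hi)
    have h1 := max_slope hA hf h i
    have h2 : 0 < ∑ v, A v i * XX f v :=
      lt_of_lt_of_le (mul_pos (by linarith) hXi) h1
    obtain ⟨v, -, hv⟩ := Finset.exists_lt_of_sum_lt
      (show ∑ v : V, (0 : ℝ) < ∑ v, A v i * XX f v by simpa using h2)
    have hAv : 0 < A v i := by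
      rcases (hA.nonneg v i).lt_or_eq with h3 | h3
      · exact h3
      · rw [← h3, zero_mul] at hv
        exact absurd hv (lt_irrefl _)
    have hXv : XX f v ≠ 0 := by
      intro h3
      rw [h3, mul_zero] at hv
      exact absurd hv (lt_irrefl _)
    have hxi : 0 < xx f i :=
      lt_of_le_of_ne (hx0 i) (fun h3 => hi (dichotomy hA hf h i h3.symm))
    have hxv : 0 < xx f v :=
      lt_of_le_of_ne (hx0 v) (fun h3 => hXv (dichotomy hA hf h v h3.symm))
    have h4 : ∀ a b, 0 ≤ A a b * xx f a * xx f b := fun a b =>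
      mul_nonneg (mul_nonneg (hA.nonneg a b) (hx0 a)) (hx0 b)
    calc (0 : ℝ) < A v i * xx f v * xx f i := by positivity
      _ ≤ ∑ k, A v k * xx f v * xx f k :=
        Finset.single_le_sum (f := fun k => A v k * xx f v * xx f k) (fun k _ => h4 v k)
          (Finset.mem_univ i)
      _ ≤ S := Finset.single_le_sum (f := fun a => ∑ k, A a k * xx f a * xx f k)
        (fun a _ => Finset.sum_nonneg fun k _ => h4 a k) (Finset.mem_univ v)
  have hYS : Y ≤ y * S := by
    have h1 : ((1 - δ ^ 2) * (1 - δ) - δ ^ 3) * Y ≤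
        ((1 - δ ^ 2) * (1 - δ) - δ ^ 3) * (y * S) := by
      calc _ ≤ _ := hY
        _ ≤ y * ((1 - δ ^ 2) * (1 - δ) - δ ^ 3) * S := mul_le_mul_of_nonneg_right hy hS0.le
        _ = _ := by ring
    exact le_of_mul_le_mul_left h1 hpos
  have hlow := low hA hK hδ0 hδ1 hrow hκ h hx0 (xx_le f) (le_XX f) (abs_DD_le f)
  rw [sum_en_defect hA hK]
  -- the subtracted term
  have hT : ∑ i, ∑ k, XX f k * (2 * δ * A i k * XX f i + FF f i k) ≤
      (2 * δ * (1 + 2 * m) ^ 2 + (1 + 2 * m) * y) * S := by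
    have h1 : ∀ i k, XX f k * (2 * δ * A i k * XX f i + FF f i k) ≤
        2 * δ * (1 + 2 * m) ^ 2 * (A i k * xx f i * xx f k) +
          (1 + 2 * m) * (xx f k * FF f i k) := by
      intro i k
      have e1 : XX f k * XX f i ≤ ((1 + 2 * m) * xx f k) * ((1 + 2 * m) * xx f i) :=
        mul_le_mul (hXx k) (hXx i) (XX_nonneg hf i)
          (mul_nonneg (by linarith) (hx0 k))
      have e2 : XX f k * FF f i k ≤ ((1 + 2 * m) * xx f k) * FF f i k :=
        mul_le_mul_of_nonneg_right (hXx k) (FF_nonneg f i k)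
      have e3 := mul_le_mul_of_nonneg_left e1
        (show 0 ≤ 2 * δ * A i k from mul_nonneg (by linarith) (hA.nonneg i k))
      calc XX f k * (2 * δ * A i k * XX f i + FF f i k) =
          2 * δ * A i k * (XX f k * XX f i) + XX f k * FF f i k := by ring
        _ ≤ 2 * δ * A i k * (((1 + 2 * m) * xx f k) * ((1 + 2 * m) * xx f i)) +
            ((1 + 2 * m) * xx f k) * FF f i k := add_le_add e3 e2
        _ = _ := by ring
    calc _ ≤ ∑ i, ∑ k, (2 * δ * (1 + 2 * m) ^ 2 * (A i k * xx f i * xx f k) +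
          (1 + 2 * m) * (xx f k * FF f i k)) :=
        Finset.sum_le_sum fun i _ => Finset.sum_le_sum fun k _ => h1 i k
      _ = 2 * δ * (1 + 2 * m) ^ 2 * S + (1 + 2 * m) * Y := by
        rw [hS, hYdef]
        simp only [Finset.sum_add_distrib, Finset.mul_sum]
      _ ≤ 2 * δ * (1 + 2 * m) ^ 2 * S + (1 + 2 * m) * (y * S) := by
        have := mul_le_mul_of_nonneg_left hYS (show 0 ≤ 1 + 2 * m by linarith)
        linarith
      _ = _ := by ring
  have hM : c0 * κ * S ≤ ∑ i, ∑ k, K i k * xx f i * xx f k := by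
    rw [hS, Finset.mul_sum]
    refine Finset.sum_le_sum fun i _ => ?_
    rw [Finset.mul_sum]
    refine Finset.sum_le_sum fun k _ => ?_
    have e1 := mul_le_mul_of_nonneg_right (hKA i k) (mul_nonneg (hx0 i) (hx0 k))
    calc _ = c0 * κ * A i k * (xx f i * xx f k) := by ring
      _ ≤ _ := e1
      _ = _ := by ring
  have hbr : 0 < (1 - δ ^ 2) ^ 2 * ∑ i, ∑ k, K i k * xx f i * xx f k -
      κ * ∑ i, ∑ k, XX f k * (2 * δ * A i k * XX f i + FF f i k) := by
    have e1 := mul_le_mul_of_nonneg_left hM (sq_nonneg (1 - δ ^ 2))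
    have e2 := mul_le_mul_of_nonneg_left hT hκ0.le
    have e3 : 0 < κ * S * ((1 - δ ^ 2) ^ 2 * c0 -
        (2 * δ * (1 + 2 * m) ^ 2 + (1 + 2 * m) * y)) :=
      mul_pos (mul_pos hκ0 hS0) (by linarith)
    nlinarith [e1, e2, e3]
  have hW : 0 < ∑ σ, W A σ := Finset.sum_pos (fun σ _ => W_pos A σ) Finset.univ_nonempty
  have hfin := lt_of_lt_of_le (mul_pos hbr hW) hlow
  have hl0 : 0 < lam := by linarith
  exact (pos_iff_pos_of_mul_pos hfin).1 hl0

/-- A function with no slope is constant. -/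
theorem const_of_XX {f : (V → Bool) → ℝ} (hf : Monotone f) (h : ∀ i, XX f i = 0)
    (σ τ : V → Bool) : f σ = f τ := by
  have h1 : ∀ i σ, D i f σ = 0 := fun i σ =>
    le_antisymm ((le_XX f i σ).trans (h i).le) (D_nonneg hf i σ)
  have h2 : ∀ i σ, f (flip i σ) = f σ := fun i σ => by
    have := sub_flip i f σ
    rw [h1, mul_zero] at this
    linarith
  -- change the coordinates one after the other
  have h3 : ∀ s : Finset V, f (fun i => if i ∈ s then τ i else σ i) = f σ := by
    intro s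
    induction s using Finset.induction_on with
    | empty => simp
    | insert a s ha ih =>
      rw [← ih]
      by_cases hc : σ a = τ a
      · congr 1
        funext i
        by_cases hi : i = a
        · subst hi; simp [ha, hc]
        · simp [hi]
      · have h4 : (fun i => if i ∈ insert a s then τ i else σ i) =
            flip a (fun i => if i ∈ s then τ i else σ i) := by
          funext i
          unfold flip
          by_cases hi : i = a
          · subst hi
            simp only [Finset.mem_insert_self, if_true, Function.update_self, if_neg ha]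
            revert hc
            cases σ i <;> cases τ i <;> simp
          · simp [hi]
        rw [h4, h2]
  have h5 := h3 Finset.univ
  simp only [Finset.mem_univ, if_true] at h5
  exact h5.symm

/-- The comparison along a segment. -/
theorem segment [Nonempty V] {A K : V → V → ℝ}
    {δ κ c0 m y : ℝ} (hA : Coup A)
    (hK : Coup K) (hδ0 : 0 ≤ δ) (hδ1 : δ < 1) (hrow : ∀ v, ∑ u, (A v u + K v u) ≤ δ)
    (hκ : ∀ v, ∑ u, K v u ≤ κ) (hκ0 : 0 < κ)
    (hKA : ∀ u v, c0 * κ * (A u v + K u v) ≤ K u v) (hc0 : 0 ≤ c0)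
    (hm0 : 0 ≤ m) (hm : ((1 + 4 * δ ^ 2) * m + 2 * δ ^ 2) * δ ≤ m * (1 - δ ^ 2))
    (hδ2 : (1 + 4 * δ ^ 2) * δ < 1 - δ) (hpos : 0 < (1 - δ ^ 2) * (1 - δ) - δ ^ 3)
    (hy : 2 * δ ^ 2 * (1 + 2 * m) * (1 - δ ^ 2) ≤ y * ((1 - δ ^ 2) * (1 - δ) - δ ^ 3))
    (hnum : 2 * δ * (1 + 2 * m) ^ 2 + (1 + 2 * m) * y < (1 - δ ^ 2) ^ 2 * c0) :
    gap (normalize (W fun u v => A u v + K u v)) ≤ gap (normalize (W A)) := by
  have hn : (0 : ℝ) < Fintype.card V := by exact_mod_cast Fintype.card_pos
  have hW : ∀ s : ℝ, (fun σ => W A σ * Real.exp (s * en K σ)) =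
      W (fun u v => A u v + s * K u v) := fun s => by
    funext σ
    rw [W_add]
  have hB : ∀ s : ℝ, 0 ≤ s → Coup (fun u v => A u v + s * K u v) := fun s hs =>
    ⟨fun u v => by rw [hA.symm, hK.symm], fun u v => add_nonneg (hA.nonneg u v)
      (mul_nonneg hs (hK.nonneg u v)), fun v => by rw [hA.diag, hK.diag]; ring⟩
  have hfin := path_mono_abs (w := W A) (Q := en K) (W_pos A) (fun σ => W_neg σ) (en_neg K)
    (fun s hs σ τ => by
      have h1 := W_fkg (hB s hs) σ τ
      rw [← hW s] at h1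
      exact h1)
    (by
      intro s hs hs1
      have hC := hB s hs
      have hle : ∀ u v, A u v + s * K u v ≤ A u v + K u v := fun u v => by
        have := hK.nonneg u v
        nlinarith
      obtain ⟨f, ρ, hρ0, hodd, hmono, hone, heig, hρ⟩ := exists_eig
        (w := W (fun u v => A u v + s * K u v)) (W_pos _) (fun σ => W_neg σ) (W_fkg hC)
      have hEig := eig_of_ceSum hC heig
      have hg := gap_eq (W_pos _) (fun σ => W_neg σ) (W_fkg hC) hodd hone heig hρ
      have hshift : ∀ h : ℝ, (fun σ => W (fun u v => A u v + s * K u v) σ *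
          Real.exp (h * en K σ)) = (fun σ => W A σ * Real.exp ((s + h) * en K σ)) := fun h => by
        funext σ
        have h1 := congrFun (hW s) σ
        rw [← h1, mul_assoc, ← Real.exp_add]
        congr 2
        ring
      rcases lt_or_ge ((Fintype.card V : ℝ) - ρ) 1 with hlam | hlam
      · -- the derivative is negative
        have hne : ∃ i, XX f i ≠ 0 := by
          by_contra hcon
          push Not at hcon
          have h1 := const_of_XX hmono hcon
          have h2 : ∀ σ, f σ = 0 := fun σ => by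
            have h3 := hodd σ
            have h4 := h1 (neg σ) σ
            linarith
          have h3 : ip (W (fun u v => A u v + s * K u v)) f f = 0 := by
            unfold ip
            exact Finset.sum_eq_zero fun σ _ => by rw [h2 σ]; ring
          rw [hone] at h3
          exact one_ne_zero h3
        have hd := deriv_pos (c0 := c0) hC hK hδ0 hδ1
          (fun v => (Finset.sum_le_sum fun u _ => hle v u).trans (hrow v)) hκ hκ0
          (fun u v => by
            have h1 := hle u v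
            have h2 : 0 ≤ c0 * κ := mul_nonneg hc0 hκ0.le
            exact (mul_le_mul_of_nonneg_left h1 h2).trans (hKA u v))
          hmono hEig hne hlam hm0 hm hδ2 hpos hy hnum
        obtain ⟨h0, hh0, hh⟩ := local_compare_abs (W_pos _) (fun σ => W_neg σ) (W_fkg hC)
          (en_neg K) hodd hone heig hρ hd
        refine ⟨h0, hh0, fun h hh1 hh2 => ?_⟩
        have h3 := hh h hh1 hh2
        rw [hshift h, ← hW s] at h3
        exact h3
      · -- the gap is maximal
        refine ⟨1, one_pos, fun h hh1 _ => ?_⟩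
        have h1 := gap_le_inv (w := W (fun u v => A u v + (s + h) * K u v)) (W_pos _)
          (fun σ => W_neg σ)
        rw [← hg, ← hW s] at hlam
        rw [← hW (s + h)] at h1
        exact le_of_mul_le_mul_left (h1.trans hlam) hn)
  rw [hW, hW] at hfin
  have e1 : (fun u v => A u v + 1 * K u v) = fun u v => A u v + K u v := by
    funext u v
    rw [one_mul]
  have e2 : (fun u v => A u v + 0 * K u v) = A := by
    funext u v
    rw [zero_mul, add_zero]
  rw [e1, e2] at hfin
  exact hfin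

omit [DecidableEq V] in
/-- Zero row sums. -/
theorem coup_eq_zero {K : V → V → ℝ} (hK : Coup K) {κ : ℝ} (hκ : ∀ v, ∑ u, K v u ≤ κ)
    (h0 : κ ≤ 0) (u v : V) : K u v = 0 := by
  have h1 := (Finset.single_le_sum (f := fun w => K u w) (fun w _ => hK.nonneg u w)
    (Finset.mem_univ v)).trans ((hκ u).trans h0)
  exact le_antisymm h1 (hK.nonneg u v)

/-- The comparison for coupling matrices. -/
theorem compare [Nonempty V] {A K : V → V → ℝ} {δ κ : ℝ} (hA : Coup A) (hK : Coup K)
    (hδ : δ ≤ 1 / 3) (hrow : ∀ v, ∑ u, (A v u + K v u) ≤ δ) (hκ : ∀ v, ∑ u, K v u ≤ κ)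
    (hKA : ∀ u v, 15 / 2 * δ * κ * (A u v + K u v) ≤ K u v) :
    gap (normalize (W fun u v => A u v + K u v)) ≤ gap (normalize (W A)) := by
  have hS : Coup (fun u v => A u v + K u v) :=
    ⟨fun u v => by rw [hA.symm, hK.symm], fun u v => add_nonneg (hA.nonneg u v)
      (hK.nonneg u v), fun v => by rw [hA.diag, hK.diag]; ring⟩
  -- trivial cases
  have htriv : (∀ u v, K u v = 0) →
      gap (normalize (W fun u v => A u v + K u v)) ≤ gap (normalize (W A)) := by
    intro h
    have h1 : (fun u v => A u v + K u v) = A := by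
      funext u v
      rw [h u v, add_zero]
    rw [h1]
  rcases le_or_gt κ 0 with hκ0 | hκ0
  · exact htriv (coup_eq_zero hK hκ hκ0)
  rcases le_or_gt δ 0 with hδ0 | hδ0
  · refine htriv fun u v => ?_
    have h1 := coup_eq_zero hS hrow hδ0 u v
    have h2 := hA.nonneg u v
    have h3 := hK.nonneg u v
    linarith
  -- the general case
  have hδ2 : δ ^ 2 ≤ 1 / 9 := by nlinarith
  have hδ2' : 0 < δ ^ 2 := by positivity
  have hδ3 : δ ^ 3 = δ * δ ^ 2 := by ring
  have hδ4 : δ ^ 4 = δ ^ 2 * δ ^ 2 := by ring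
  refine segment (δ := δ) (κ := κ) (c0 := 15 / 2 * δ) (m := 18 / 11 * δ ^ 2)
    (y := 48 / 11 * δ ^ 2) hA hK hδ0.le (by linarith) hrow hκ hκ0
    (fun u v => by
      have := hKA u v
      linarith) (by positivity) (by positivity) ?_ ?_ ?_ ?_ ?_
  · -- m
    have h2 : ((1 + 4 * δ ^ 2) * (18 / 11) + 2) * δ ≤ 18 / 11 * (1 - δ ^ 2) := by nlinarith
    calc ((1 + 4 * δ ^ 2) * (18 / 11 * δ ^ 2) + 2 * δ ^ 2) * δ =
        δ ^ 2 * (((1 + 4 * δ ^ 2) * (18 / 11) + 2) * δ) := by ring
      _ ≤ δ ^ 2 * (18 / 11 * (1 - δ ^ 2)) := mul_le_mul_of_nonneg_left h2 hδ2'.le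
      _ = _ := by ring
  · nlinarith
  · nlinarith
  · -- y
    have h2 : 2 * (1 + 2 * (18 / 11 * δ ^ 2)) * (1 - δ ^ 2) ≤
        48 / 11 * ((1 - δ ^ 2) * (1 - δ) - δ ^ 3) := by nlinarith
    calc 2 * δ ^ 2 * (1 + 2 * (18 / 11 * δ ^ 2)) * (1 - δ ^ 2) =
        δ ^ 2 * (2 * (1 + 2 * (18 / 11 * δ ^ 2)) * (1 - δ ^ 2)) := by ring
      _ ≤ δ ^ 2 * (48 / 11 * ((1 - δ ^ 2) * (1 - δ) - δ ^ 3)) :=
        mul_le_mul_of_nonneg_left h2 hδ2'.le
      _ = _ := by ring
  · -- the numerical condition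
    have e1 : 1 + 2 * (18 / 11 * δ ^ 2) ≤ 15 / 11 := by linarith
    have e0 : 0 ≤ 1 + 2 * (18 / 11 * δ ^ 2) := by positivity
    have e2 : (1 + 2 * (18 / 11 * δ ^ 2)) ^ 2 ≤ (15 / 11) ^ 2 := pow_le_pow_left₀ e0 e1 2
    have e3 : (8 / 9 : ℝ) ^ 2 ≤ (1 - δ ^ 2) ^ 2 := pow_le_pow_left₀ (by norm_num) (by linarith) 2
    have e4 : (1 + 2 * (18 / 11 * δ ^ 2)) * (48 / 11 * δ) ≤ 15 / 11 * (16 / 11) := by
      apply mul_le_mul e1 (by linarith) (by positivity) (by norm_num)
    calc 2 * δ * (1 + 2 * (18 / 11 * δ ^ 2)) ^ 2 +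
          (1 + 2 * (18 / 11 * δ ^ 2)) * (48 / 11 * δ ^ 2) =
        δ * (2 * (1 + 2 * (18 / 11 * δ ^ 2)) ^ 2 +
          (1 + 2 * (18 / 11 * δ ^ 2)) * (48 / 11 * δ)) := by ring
      _ ≤ δ * (2 * (15 / 11) ^ 2 + 15 / 11 * (16 / 11)) := by
        apply mul_le_mul_of_nonneg_left _ hδ0.le
        linarith
      _ < δ * ((8 / 9) ^ 2 * (15 / 2)) := by
        apply mul_lt_mul_of_pos_left _ hδ0
        norm_num
      _ ≤ δ * ((1 - δ ^ 2) ^ 2 * (15 / 2)) := by
        apply mul_le_mul_of_nonneg_left _ hδ0.le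
        linarith
      _ = _ := by ring

/-- The comparison on a graph. -/
theorem high_temp (G : SimpleGraph V) [DecidableRel G.Adj] (J J' : Sym2 V → ℝ) (δ κ : ℝ)
    (hδ : δ ≤ 1 / 3) (hJ : ∀ e ∈ G.edgeSet, 0 ≤ J e ∧ J e ≤ J' e)
    (hrow : ∀ v, ∑ u ∈ G.neighborFinset v, J' s(v, u) ≤ δ)
    (hκ : ∀ v, ∑ u ∈ G.neighborFinset v, (J' s(v, u) - J s(v, u)) ≤ κ)
    (hinc : ∀ e ∈ G.edgeSet, 15 / 2 * δ * κ * J' e ≤ J' e - J e) :
    gap (gibbs G J') ≤ gap (gibbs G J) := by
  rcases isEmpty_or_nonempty V with hV | hV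
  · rw [gap_of_isEmpty, gap_of_isEmpty]
  have hA : Coup (mat G J) := coup_mat G fun e he => (hJ e he).1
  have hK : Coup (mat G fun e => J' e - J e) := coup_mat G fun e he => by
    have := (hJ e he).2
    linarith
  have hsum : (fun u v => mat G J u v + mat G (fun e => J' e - J e) u v) = mat G J' := by
    funext u v
    unfold mat
    split_ifs
    · ring
    · ring
  have h1 := compare (δ := δ) (κ := κ) hA hK hδ
    (fun v => by
      have h2 : ∑ u, (mat G J v u + mat G (fun e => J' e - J e) v u) = ∑ u, mat G J' v u :=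
        Finset.sum_congr rfl fun u _ => congrFun (congrFun hsum v) u
      rw [h2, sum_mat]
      exact hrow v)
    (fun v => by
      rw [sum_mat]
      exact hκ v)
    (fun u v => by
      rw [congrFun (congrFun hsum u) v]
      unfold mat
      split_ifs with h
      · exact hinc _ h
      · linarith [mul_zero (15 / 2 * δ * κ)])
  rw [hsum] at h1
  rw [gibbs_eq, gibbs_eq, weight_eq_W, weight_eq_W]
  exact h1

end

end Pool.Agent.Lib.MP_f82811_pr.HT
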