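import Pool.Agent.Lib.MP_f82811_pr.HT.Sym
import Pool.Agent.Lib.MP_f82811_pr.HT.Pair

/-!
# Vertex transitive couplings at high temperature: raising or adding one coupling
-/

set_option autoImplicit false

namespace Pool.Agent.Lib.MP_f82811_pr.HT

open Finset

variable {V : Type*} [Fintype V] [DecidableEq V]

/-- Raising the coupling of one pair in a vertex transitive matrix with row sums at most
`1 / 3`. -/
theorem transitive_pair {A : V → V → ℝ} (hA : Coup A)
    (hrow : ∀ v, ∑ u, A v u ≤ 1 / 3)
    (htrans : ∀ u v, ∃ π : Equiv.Perm V, π u = v ∧ ∀ a b, A (π a) (π b) = A a b)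
    {i j : V} (hij : i ≠ j) {d : ℝ} (hd : 0 ≤ d) :
    gap (normalize fun σ => W A σ * Real.exp (d * (sp i σ * sp j σ))) ≤
      gap (normalize (W A)) := by
  have : Nonempty V := ⟨i⟩
  refine transitive_matrix hA htrans (fun f lam hf hE hne hx hX => ?_) hd
  have hlam := lam_bounds hA (by norm_num) hrow hf hE hne
  exact pair_defect hA hrow hf hE (by linarith [hlam.2]) hij (fun v => hx v i)
    (fun v => hX v i)

/-- **Raising one coupling, or adding one edge, in a vertex transitive graph at high
temperature.** -/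
theorem transitive_graph (G G' : SimpleGraph V) [DecidableRel G.Adj] [DecidableRel G'.Adj]
    (J J' : Sym2 V → ℝ) (hJ : ∀ e ∈ G.edgeSet, 0 ≤ J e)
    (hrow : ∀ v, ∑ u ∈ G.neighborFinset v, J s(v, u) ≤ 1 / 3)
    (htrans : ∀ u v, ∃ π : Equiv.Perm V, π u = v ∧
      ∀ a b, mat G J (π a) (π b) = mat G J a b)
    {i j : V} (hij : i ≠ j) (hG : ∀ u v, G'.Adj u v ↔ G.Adj u v ∨ s(u, v) = s(i, j))
    (hJ' : ∀ e ∈ G.edgeSet, e ≠ s(i, j) → J' e = J e) (hinc : mat G J i j ≤ J' s(i, j)) :
    gap (gibbs G' J') ≤ gap (gibbs G J) := by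
  have hE : G'.edgeFinset = insert s(i, j) G.edgeFinset := by
    ext e
    induction e with
    | h u v =>
      rw [Finset.mem_insert, SimpleGraph.mem_edgeFinset, SimpleGraph.mem_edgeFinset,
        SimpleGraph.mem_edgeSet, SimpleGraph.mem_edgeSet, hG]
      tauto
  have hw := weight_pair (J := J) (J' := J') hE
    (fun e he hne => hJ' e (SimpleGraph.mem_edgeFinset.1 he) hne)
  have hm : (if s(i, j) ∈ G.edgeFinset then J s(i, j) else 0) = mat G J i j := by
    unfold mat
    simp only [SimpleGraph.mem_edgeFinset, SimpleGraph.mem_edgeSet]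
  have hA := coup_mat G hJ
  have h1 := transitive_pair hA (fun v => by rw [sum_mat]; exact hrow v) htrans hij
    (d := J' s(i, j) - mat G J i j) (by linarith)
  have h2 : weight G' J' = fun σ => W (mat G J) σ *
      Real.exp ((J' s(i, j) - mat G J i j) * (sp i σ * sp j σ)) := by
    funext σ
    rw [hw σ, hm, weight_eq_W]
    rfl
  rw [gibbs_eq, gibbs_eq, h2, weight_eq_W]
  exact h1

/-- The version with an existing edge. -/
theorem transitive_edge (G : SimpleGraph V) [DecidableRel G.Adj]
    (J : Sym2 V → ℝ) (hJ : ∀ e ∈ G.edgeSet, 0 ≤ J e)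
    (hrow : ∀ v, ∑ u ∈ G.neighborFinset v, J s(v, u) ≤ 1 / 3)
    (htrans : ∀ u v, ∃ π : Equiv.Perm V, π u = v ∧
      ∀ a b, mat G J (π a) (π b) = mat G J a b)
    {e : Sym2 V} (he : e ∈ G.edgeSet) {x : ℝ} (hx : J e ≤ x) :
    gap (gibbs G (Function.update J e x)) ≤ gap (gibbs G J) := by
  induction e with
  | h i j =>
    have hadj : G.Adj i j := he
    refine transitive_graph G G J _ hJ hrow htrans hadj.ne (fun u v => ?_)
      (fun e _ hne => Function.update_of_ne hne _ _) ?_
    · constructor
      · exact Or.inl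
      · rintro (h | h)
        · exact h
        · rw [← SimpleGraph.mem_edgeSet, h]
          exact he
    · rw [Function.update_self]
      unfold mat
      rw [if_pos hadj]
      exact hx

end Pool.Agent.Lib.MP_f82811_pr.HT
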