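import Mathlib

/-!
# First and second differences of the hyperbolic tangent
-/

set_option autoImplicit false

namespace Pool.Agent.Lib.MP_f82811_pr

theorem hasDerivAt_tanh (x : ℝ) : HasDerivAt Real.tanh (1 - Real.tanh x ^ 2) x := by
  have h : Real.tanh = fun x => Real.sinh x / Real.cosh x :=
    funext Real.tanh_eq_sinh_div_cosh
  have h1 := (Real.hasDerivAt_sinh x).div (Real.hasDerivAt_cosh x) (Real.cosh_pos x).ne'
  have h2 : HasDerivAt Real.tanh ((Real.cosh x * Real.cosh x - Real.sinh x * Real.sinh x) /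
      Real.cosh x ^ 2) x := by
    rw [h]
    exact h1
  convert h2 using 1
  rw [Real.tanh_eq_sinh_div_cosh]
  have h3 := (Real.cosh_pos x).ne'
  field_simp

theorem hasDerivAt_tanh_sq (x : ℝ) : HasDerivAt (fun x => 1 - Real.tanh x ^ 2)
    (-(2 * Real.tanh x * (1 - Real.tanh x ^ 2))) x := by
  have h1 : HasDerivAt (fun x => 1 - Real.tanh x ^ 2)
      (-(((2 : ℕ) : ℝ) * Real.tanh x ^ (2 - 1) * (1 - Real.tanh x ^ 2))) x :=
    ((hasDerivAt_tanh x).pow 2).const_sub 1
  have h2 : -(2 * Real.tanh x * (1 - Real.tanh x ^ 2)) =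
      -(((2 : ℕ) : ℝ) * Real.tanh x ^ (2 - 1) * (1 - Real.tanh x ^ 2)) := by norm_num
  rw [h2]
  exact h1

theorem tanh_sq_lt_one (x : ℝ) : Real.tanh x ^ 2 < 1 := by
  have h1 := Real.neg_one_lt_tanh x
  have h2 := Real.tanh_lt_one x
  nlinarith

theorem continuous_tanh' : Continuous Real.tanh :=
  continuous_iff_continuousAt.2 fun x => (hasDerivAt_tanh x).continuousAt

theorem tanh_mono : Monotone Real.tanh := by
  refine monotone_of_deriv_nonneg (fun x => (hasDerivAt_tanh x).differentiableAt) fun x => ?_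
  rw [(hasDerivAt_tanh x).deriv]
  linarith [tanh_sq_lt_one x]

theorem tanh_sub_le {x y : ℝ} (h : x ≤ y) : Real.tanh y - Real.tanh x ≤ y - x := by
  have h1 : Monotone fun x => x - Real.tanh x := by
    refine monotone_of_deriv_nonneg
      (fun x => ((hasDerivAt_id x).sub (hasDerivAt_tanh x)).differentiableAt) fun x => ?_
    have h2 : HasDerivAt (fun x => x - Real.tanh x) (1 - (1 - Real.tanh x ^ 2)) x :=
      (hasDerivAt_id x).sub (hasDerivAt_tanh x)
    rw [h2.deriv]
    nlinarith [sq_nonneg (Real.tanh x)]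
  have h2 := h1 h
  simp only at h2
  linarith

theorem abs_tanh_le (x : ℝ) : |Real.tanh x| ≤ |x| := by
  rcases le_total 0 x with h | h
  · have h1 := tanh_sub_le h
    have h2 := tanh_mono h
    rw [Real.tanh_zero] at h1 h2
    rw [abs_of_nonneg h2, abs_of_nonneg h]
    linarith
  · have h1 := tanh_sub_le h
    have h2 := tanh_mono h
    rw [Real.tanh_zero] at h1 h2
    rw [abs_of_nonpos h2, abs_of_nonpos h]
    linarith

theorem tanh_sq_le {x δ : ℝ} (h : |x| ≤ δ) : Real.tanh x ^ 2 ≤ δ ^ 2 := by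
  have h1 := abs_tanh_le x
  rw [← sq_abs (Real.tanh x)]
  exact pow_le_pow_left₀ (abs_nonneg _) (h1.trans h) 2

/-- Lower bound for a difference of `tanh` on `[-δ, δ]`. -/
theorem tanh_sub_ge {x y δ : ℝ} (hx : -δ ≤ x) (hxy : x ≤ y) (hy : y ≤ δ) :
    (1 - δ ^ 2) * (y - x) ≤ Real.tanh y - Real.tanh x := by
  refine (convex_Icc (-δ) δ).mul_sub_le_image_sub_of_le_deriv
    continuous_tanh'.continuousOn
    (fun z _ => (hasDerivAt_tanh z).differentiableAt.differentiableWithinAt)
    (fun z hz => ?_) x ⟨hx, hxy.trans hy⟩ y ⟨hx.trans hxy, hy⟩ hxy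
  rw [(hasDerivAt_tanh z).deriv]
  have h1 := interior_subset hz
  have h2 := tanh_sq_le (abs_le.2 ⟨h1.1, h1.2⟩)
  linarith

/-- The derivative of `tanh` is Lipschitz on `[-δ, δ]`. -/
theorem sech_sub_le {x y δ : ℝ} (hx : |x| ≤ δ) (hy : |y| ≤ δ) :
    |(1 - Real.tanh y ^ 2) - (1 - Real.tanh x ^ 2)| ≤ 2 * δ * |y - x| := by
  have h1 : ∀ z ∈ Set.Icc (-δ) δ, HasDerivWithinAt (fun x => 1 - Real.tanh x ^ 2)
      (-(2 * Real.tanh z * (1 - Real.tanh z ^ 2))) (Set.Icc (-δ) δ) z :=
    fun z _ => (hasDerivAt_tanh_sq z).hasDerivWithinAt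
  have h2 := (convex_Icc (-δ) δ).norm_image_sub_le_of_norm_hasDerivWithin_le
    (C := 2 * δ) h1 (fun z hz => ?_) (abs_le.1 hx) (abs_le.1 hy)
  · rw [Real.norm_eq_abs, Real.norm_eq_abs] at h2
    exact h2
  · rw [Real.norm_eq_abs, abs_neg, abs_mul, abs_mul]
    have h3 := abs_tanh_le z
    have h4 : |z| ≤ δ := abs_le.2 hz
    have h5 : |1 - Real.tanh z ^ 2| ≤ 1 := by
      rw [abs_le]
      constructor
      · linarith [tanh_sq_lt_one z]
      · linarith [sq_nonneg (Real.tanh z)]
    have h6 : |(2 : ℝ)| = 2 := abs_of_pos (by norm_num)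
    rw [h6]
    have h7 : 0 ≤ |Real.tanh z| := abs_nonneg _
    have h8 : 0 ≤ |1 - Real.tanh z ^ 2| := abs_nonneg _
    calc 2 * |Real.tanh z| * |1 - Real.tanh z ^ 2| ≤ 2 * |Real.tanh z| * 1 := by
          apply mul_le_mul_of_nonneg_left h5; positivity
      _ ≤ 2 * δ := by linarith

/-- Second differences of `tanh`. -/
theorem tanh_second {a b c δ : ℝ} (hb : 0 ≤ b) (hc : 0 ≤ c) (h : |a| + b + c ≤ δ) :
    |(Real.tanh (a + b + c) - Real.tanh (a + b - c)) -
      (Real.tanh (a - b + c) - Real.tanh (a - b - c))| ≤ 8 * δ * b * c := by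
  have ha := abs_le.1 (show |a| ≤ δ - b - c by linarith)
  -- as a function of `t = c`
  have h1 : ∀ t ∈ Set.Icc (-c) c, HasDerivWithinAt
      (fun t => Real.tanh (a + b + t) - Real.tanh (a - b + t))
      ((1 - Real.tanh (a + b + t) ^ 2) - (1 - Real.tanh (a - b + t) ^ 2)) (Set.Icc (-c) c) t := by
    intro t _
    have e1 : HasDerivAt (fun t => Real.tanh (a + b + t)) (1 - Real.tanh (a + b + t) ^ 2) t := by
      have := (hasDerivAt_tanh (a + b + t)).comp_const_add (a + b) t
      exact this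
    have e2 : HasDerivAt (fun t => Real.tanh (a - b + t)) (1 - Real.tanh (a - b + t) ^ 2) t := by
      have := (hasDerivAt_tanh (a - b + t)).comp_const_add (a - b) t
      exact this
    exact (e1.sub e2).hasDerivWithinAt
  have h2 := (convex_Icc (-c) c).norm_image_sub_le_of_norm_hasDerivWithin_le
    (C := 4 * δ * b) h1 (fun t ht => ?_) (x := -c) (y := c) ⟨le_refl _, by linarith⟩
    ⟨by linarith, le_refl _⟩
  · rw [Real.norm_eq_abs, Real.norm_eq_abs] at h2
    have h3 : |c - -c| = 2 * c := by rw [abs_of_nonneg (by linarith)]; ring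
    rw [h3] at h2
    have h4 : (Real.tanh (a + b + c) - Real.tanh (a + b - c)) -
      (Real.tanh (a - b + c) - Real.tanh (a - b - c)) =
      Real.tanh (a + b + c) - Real.tanh (a - b + c) -
      (Real.tanh (a + b + -c) - Real.tanh (a - b + -c)) := by
      rw [show a + b - c = a + b + -c by ring, show a - b - c = a - b + -c by ring]
      ring
    rw [h4]
    calc _ ≤ 4 * δ * b * (2 * c) := h2
      _ = 8 * δ * b * c := by ring
  · rw [Real.norm_eq_abs]
    have h3 := sech_sub_le (x := a - b + t) (y := a + b + t) (δ := δ)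
      (abs_le.2 ⟨by linarith [ht.1], by linarith [ht.2]⟩)
      (abs_le.2 ⟨by linarith [ht.1], by linarith [ht.2]⟩)
    have h4 : |a + b + t - (a - b + t)| = 2 * b := by
      rw [show a + b + t - (a - b + t) = 2 * b by ring, abs_of_nonneg (by linarith)]
    rw [h4] at h3
    linarith

end Pool.Agent.Lib.MP_f82811_pr
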