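import Pool.Agent.Lib.MP_f82811_pr.HT.Calc
import Pool.Agent.Lib.MP_f82811_pr.HT.Tanh

/-!
# High temperature: local fields and conditional means
-/

set_option autoImplicit false

namespace Pool.Agent.Lib.MP_f82811_pr.HT

open Finset

variable {V : Type*} [Fintype V] [DecidableEq V]

theorem fld_update (A : V → V → ℝ) (v i : V) (b : Bool) (σ : V → Bool) :
    fld A v (Function.update σ i b) = fld A v σ + A v i * (spin b - sp i σ) := by
  unfold fld
  rw [← Finset.add_sum_erase _ _ (Finset.mem_univ i),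
    ← Finset.add_sum_erase (a := i) univ (fun u => A v u * sp u σ) (Finset.mem_univ i)]
  have h1 : ∑ x ∈ univ.erase i, A v x * sp x (Function.update σ i b) =
      ∑ x ∈ univ.erase i, A v x * sp x σ := by
    refine Finset.sum_congr rfl fun x hx => ?_
    rw [sp_update_ne (Finset.ne_of_mem_erase hx)]
  rw [h1, sp_update_self]
  ring

theorem fld_update_self {A : V → V → ℝ} (hA : Coup A) (v : V) (σ : V → Bool) (b : Bool) :
    fld A v (Function.update σ v b) = fld A v σ := by
  rw [fld_update, hA.diag]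
  ring

theorem tau_update_self {A : V → V → ℝ} (hA : Coup A) (v : V) (σ : V → Bool) (b : Bool) :
    tau A v (Function.update σ v b) = tau A v σ := by
  unfold tau
  rw [fld_update_self hA]

theorem D_fld (A : V → V → ℝ) (v k : V) (σ : V → Bool) : D k (fld A v) σ = A v k := by
  unfold D
  rw [fld_update, fld_update, spin_true, spin_false]
  ring

omit [DecidableEq V] in
theorem abs_fld_le {A : V → V → ℝ} (hA : Coup A) {δ : ℝ} (hrow : ∀ v, ∑ u, A v u ≤ δ)
    (v : V) (σ : V → Bool) : |fld A v σ| ≤ δ := by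
  unfold fld
  refine (Finset.abs_sum_le_sum_abs _ _).trans (le_trans ?_ (hrow v))
  refine Finset.sum_le_sum fun u _ => ?_
  rw [abs_mul, abs_sp, mul_one, abs_of_nonneg (hA.nonneg v u)]

theorem abs_M_fld_le {A : V → V → ℝ} (hA : Coup A) {δ : ℝ} (hrow : ∀ v, ∑ u, A v u ≤ δ)
    (v k : V) (σ : V → Bool) : |M k (fld A v) σ| ≤ δ :=
  abs_M_le (abs_fld_le hA hrow v) σ

omit [DecidableEq V] in
theorem abs_tau_le {A : V → V → ℝ} (hA : Coup A) {δ : ℝ} (hrow : ∀ v, ∑ u, A v u ≤ δ)
    (v : V) (σ : V → Bool) : |tau A v σ| ≤ δ :=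
  (abs_tanh_le _).trans (abs_fld_le hA hrow v σ)

omit [DecidableEq V] in
theorem abs_tau_lt_one (A : V → V → ℝ) (v : V) (σ : V → Bool) : |tau A v σ| < 1 :=
  Real.abs_tanh_lt_one _

omit [DecidableEq V] in
theorem tau_sq_le {A : V → V → ℝ} (hA : Coup A) {δ : ℝ} (hrow : ∀ v, ∑ u, A v u ≤ δ)
    (v : V) (σ : V → Bool) : tau A v σ ^ 2 ≤ δ ^ 2 :=
  tanh_sq_le (abs_fld_le hA hrow v σ)

omit [DecidableEq V] in
theorem tau_sq_lt_one (A : V → V → ℝ) (v : V) (σ : V → Bool) : tau A v σ ^ 2 < 1 :=
  tanh_sq_lt_one _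

theorem fld_true_sub_false (A : V → V → ℝ) (v i : V) (σ : V → Bool) :
    fld A v (Function.update σ i true) - fld A v (Function.update σ i false) = 2 * A v i := by
  rw [fld_update, fld_update, spin_true, spin_false]
  ring

theorem D_tau_le {A : V → V → ℝ} (hA : Coup A) (v i : V) (σ : V → Bool) :
    D i (tau A v) σ ≤ A v i := by
  have h1 := fld_true_sub_false A v i σ
  have h2 : fld A v (Function.update σ i false) ≤ fld A v (Function.update σ i true) := by
    linarith [hA.nonneg v i]
  have h3 := tanh_sub_le h2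
  unfold D tau
  linarith

theorem D_tau_nonneg {A : V → V → ℝ} (hA : Coup A) (v i : V) (σ : V → Bool) :
    0 ≤ D i (tau A v) σ := by
  have h1 := fld_true_sub_false A v i σ
  have h2 : fld A v (Function.update σ i false) ≤ fld A v (Function.update σ i true) := by
    linarith [hA.nonneg v i]
  have h3 := tanh_mono h2
  unfold D tau
  linarith

theorem abs_D_tau_le {A : V → V → ℝ} (hA : Coup A) (v i : V) (σ : V → Bool) :
    |D i (tau A v) σ| ≤ A v i := by
  rw [abs_of_nonneg (D_tau_nonneg hA v i σ)]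
  exact D_tau_le hA v i σ

theorem le_D_tau {A : V → V → ℝ} (hA : Coup A) {δ : ℝ} (hrow : ∀ v, ∑ u, A v u ≤ δ)
    (v i : V) (σ : V → Bool) : (1 - δ ^ 2) * A v i ≤ D i (tau A v) σ := by
  have h1 := fld_true_sub_false A v i σ
  have h2 : fld A v (Function.update σ i false) ≤ fld A v (Function.update σ i true) := by
    linarith [hA.nonneg v i]
  have h3 := abs_le.1 (abs_fld_le hA hrow v (Function.update σ i false))
  have h4 := abs_le.1 (abs_fld_le hA hrow v (Function.update σ i true))
  have h5 := tanh_sub_ge h3.1 h2 h4.2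
  rw [h1] at h5
  unfold D tau
  linarith

theorem abs_DD_tau_le {A : V → V → ℝ} (hA : Coup A) {δ : ℝ} (hrow : ∀ v, ∑ u, A v u ≤ δ)
    {i k : V} (hik : i ≠ k) (v : V) (σ : V → Bool) :
    |D k (D i (tau A v)) σ| ≤ 2 * δ * A v i * A v k := by
  obtain ⟨a, ha⟩ : ∃ a : ℝ, a = fld A v σ - A v i * sp i σ - A v k * sp k σ := ⟨_, rfl⟩
  have hki : k ≠ i := fun h => hik h.symm
  have e : ∀ b c : Bool, fld A v (Function.update (Function.update σ k b) i c) =
      a + A v i * spin c + A v k * spin b := by
    intro b c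
    rw [fld_update, fld_update, sp_update_ne hik, ha]
    ring
  have e11 := e true true
  have e12 := e true false
  have e21 := e false true
  have e22 := e false false
  rw [spin_true] at e11 e12 e21
  rw [spin_false] at e12 e21 e22
  have h1 := abs_le.1 (abs_fld_le hA hrow v (Function.update (Function.update σ k true) i true))
  have h2 := abs_le.1 (abs_fld_le hA hrow v
    (Function.update (Function.update σ k false) i false))
  rw [e11] at h1
  rw [e22] at h2
  have h3 : |a| + A v i + A v k ≤ δ := by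
    rcases abs_cases a with h | h <;> rw [h.1] <;> linarith [h1.2, h2.1]
  have h4 := tanh_second (hA.nonneg v i) (hA.nonneg v k) h3
  have h5 : D k (D i (tau A v)) σ =
      ((Real.tanh (a + A v i + A v k) - Real.tanh (a + A v i - A v k)) -
      (Real.tanh (a - A v i + A v k) - Real.tanh (a - A v i - A v k))) / 4 := by
    unfold D tau
    rw [e11, e12, e21, e22,
      show a + A v i * 1 + A v k * 1 = a + A v i + A v k by ring,
      show a + A v i * -1 + A v k * 1 = a - A v i + A v k by ring,
      show a + A v i * 1 + A v k * -1 = a + A v i - A v k by ring,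
      show a + A v i * -1 + A v k * -1 = a - A v i - A v k by ring]
    ring
  rw [h5, abs_div, abs_of_pos (show (0 : ℝ) < 4 by norm_num), div_le_iff₀ (by norm_num)]
  linarith

theorem abs_D_sech_le {A : V → V → ℝ} (hA : Coup A) {δ : ℝ} (hrow : ∀ v, ∑ u, A v u ≤ δ)
    (k v : V) (σ : V → Bool) :
    |D k (fun σ => 1 - tau A v σ ^ 2) σ| ≤ 2 * δ * A v k := by
  have h1 := fld_true_sub_false A v k σ
  have h2 := sech_sub_le (abs_fld_le hA hrow v (Function.update σ k false))
    (abs_fld_le hA hrow v (Function.update σ k true))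
  rw [h1, abs_of_nonneg (show 0 ≤ 2 * A v k by linarith [hA.nonneg v k])] at h2
  unfold D tau
  rw [abs_div, abs_of_pos (show (0 : ℝ) < 2 by norm_num), div_le_iff₀ (by norm_num)]
  linarith

end Pool.Agent.Lib.MP_f82811_pr.HT
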