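import Pool.Agent.Lib.MP_f82811_pr.HT.Tau

/-!
# High temperature: the quadratic weight and integration by parts
-/

set_option autoImplicit false

namespace Pool.Agent.Lib.MP_f82811_pr.HT

open Finset

variable {V : Type*} [Fintype V] [DecidableEq V]

omit [DecidableEq V] in
theorem W_pos (A : V → V → ℝ) (σ : V → Bool) : 0 < W A σ := Real.exp_pos _

omit [Fintype V] [DecidableEq V] in
theorem sp_neg (v : V) (σ : V → Bool) : sp v (neg σ) = -sp v σ := by
  unfold sp neg
  exact spin_not _

omit [DecidableEq V] in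
theorem en_neg (A : V → V → ℝ) (σ : V → Bool) : en A (neg σ) = en A σ := by
  unfold en
  congr 1
  refine Finset.sum_congr rfl fun u _ => Finset.sum_congr rfl fun v _ => ?_
  rw [sp_neg, sp_neg]
  ring

omit [DecidableEq V] in
theorem W_neg {A : V → V → ℝ} (σ : V → Bool) : W A (neg σ) = W A σ := by
  unfold W
  rw [en_neg]

omit [DecidableEq V] in
theorem W_fkg {A : V → V → ℝ} (hA : Coup A) (σ τ : V → Bool) :
    W A σ * W A τ ≤ W A (σ ⊓ τ) * W A (σ ⊔ τ) := by
  unfold W
  rw [← Real.exp_add, ← Real.exp_add]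
  apply Real.exp_le_exp.2
  unfold en
  rw [← add_div, ← add_div]
  apply div_le_div_of_nonneg_right _ (by norm_num)
  rw [← Finset.sum_add_distrib, ← Finset.sum_add_distrib]
  refine Finset.sum_le_sum fun u _ => ?_
  rw [← Finset.sum_add_distrib, ← Finset.sum_add_distrib]
  refine Finset.sum_le_sum fun v _ => ?_
  have h1 := bond_supermodular σ τ s(u, v)
  rw [bond_mk, bond_mk, bond_mk, bond_mk] at h1
  have h2 := mul_le_mul_of_nonneg_left h1 (hA.nonneg u v)
  unfold sp
  linarith

theorem D_en {A : V → V → ℝ} (hA : Coup A) (i : V) (σ : V → Bool) :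
    D i (en A) σ = fld A i σ := by
  have h1 : ∀ u v : V, D i (fun σ => A u v * sp u σ * sp v σ) σ =
      (if v = i then A u i * sp u σ else 0) + (if u = i then A i v * sp v σ else 0) := by
    intro u v
    have e : D i (fun σ => A u v * sp u σ * sp v σ) σ =
        A u v * (M i (sp u) σ * D i (sp v) σ + D i (sp u) σ * M i (sp v) σ) := by
      unfold D M
      ring
    rw [e]
    by_cases hu : u = i
    · by_cases hv : v = i
      · rw [hu, hv, hA.diag]
        simp
      · rw [hu, D_sp_self, D_sp_ne hv, M_sp_ne hv, if_neg hv, if_pos rfl]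
        ring
    · by_cases hv : v = i
      · rw [hv, D_sp_self, D_sp_ne hu, M_sp_ne hu, if_neg hu, if_pos rfl]
        ring
      · rw [D_sp_ne hu, D_sp_ne hv, if_neg hu, if_neg hv]
        ring
  have h2 : D i (en A) σ = (∑ u, ∑ v, D i (fun σ => A u v * sp u σ * sp v σ) σ) / 2 := by
    have e1 : ∀ u, D i (fun σ => ∑ v, A u v * sp u σ * sp v σ) σ =
        ∑ v, D i (fun σ => A u v * sp u σ * sp v σ) σ :=
      fun u => D_sum i (fun v σ => A u v * sp u σ * sp v σ) σ
    have e2 := D_sum i (fun u σ => ∑ v, A u v * sp u σ * sp v σ) σ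
    rw [Finset.sum_congr rfl fun u _ => e1 u] at e2
    rw [← e2]
    unfold D en
    ring
  rw [h2]
  have h3 : ∑ u, ∑ v, D i (fun σ => A u v * sp u σ * sp v σ) σ =
      ∑ u, A u i * sp u σ + ∑ v, A i v * sp v σ := by
    rw [Finset.sum_congr rfl fun u _ => Finset.sum_congr rfl fun v _ => h1 u v]
    rw [Finset.sum_congr rfl fun u _ => Finset.sum_add_distrib, Finset.sum_add_distrib]
    congr 1
    · refine Finset.sum_congr rfl fun u _ => ?_
      rw [Finset.sum_ite_eq' univ i (fun _ => A u i * sp u σ), if_pos (Finset.mem_univ i)]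
    · rw [Finset.sum_comm]
      refine Finset.sum_congr rfl fun v _ => ?_
      rw [Finset.sum_ite_eq' univ i (fun _ => A i v * sp v σ), if_pos (Finset.mem_univ i)]
  rw [h3]
  have h4 : ∑ u, A u i * sp u σ = ∑ v, A i v * sp v σ :=
    Finset.sum_congr rfl fun u _ => by rw [hA.symm]
  rw [h4]
  unfold fld
  ring

theorem local_tanh {A : V → V → ℝ} (hA : Coup A) (v : V) (σ : V → Bool) :
    W A (Function.update σ v true) - W A (Function.update σ v false) =
      tau A v σ * (W A (Function.update σ v true) + W A (Function.update σ v false)) := by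
  have h1 := update_true v (en A) σ
  have h2 := update_false v (en A) σ
  rw [D_en hA] at h1 h2
  unfold tau W
  have h3 : Real.exp (fld A v σ) + Real.exp (-fld A v σ) ≠ 0 :=
    (add_pos (Real.exp_pos _) (Real.exp_pos _)).ne'
  have h4 : Real.exp (M v (en A) σ - fld A v σ) =
      Real.exp (M v (en A) σ) * Real.exp (-fld A v σ) := by
    rw [← Real.exp_add]
    rfl
  rw [h1, h2, h4, Real.exp_add, Real.tanh_eq]
  field_simp

/-- The conditional expectation. -/
theorem ce_W {A : V → V → ℝ} (hA : Coup A) (v : V) (f : (V → Bool) → ℝ) (σ : V → Bool) :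
    ce (W A) v f σ = M v f σ + tau A v σ * D v f σ := by
  rw [ce_eq_update, update_true v f, update_false v f]
  have hpos : W A (Function.update σ v true) + W A (Function.update σ v false) ≠ 0 :=
    (add_pos (W_pos _ _) (W_pos _ _)).ne'
  rw [div_eq_iff hpos]
  linear_combination (D v f σ) * local_tanh hA v σ

theorem sub_ce_W {A : V → V → ℝ} (hA : Coup A) (v : V) (f : (V → Bool) → ℝ) (σ : V → Bool) :
    f σ - ce (W A) v f σ = (sp v σ - tau A v σ) * D v f σ := by
  rw [ce_W hA]
  linear_combination eq_M_add v f σ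

theorem eig_of_ceSum {A : V → V → ℝ} (hA : Coup A) {f : (V → Bool) → ℝ} {ρ : ℝ}
    (h : ceSum (W A) f = fun σ => ρ * f σ) : Eig A f ((Fintype.card V : ℝ) - ρ) := by
  intro σ
  have h1 : ∑ v, ce (W A) v f σ = ρ * f σ := congrFun h σ
  have h2 : ∑ v, (f σ - ce (W A) v f σ) = ∑ v, (sp v σ - tau A v σ) * D v f σ :=
    Finset.sum_congr rfl fun v _ => sub_ce_W hA v f σ
  rw [← h2, Finset.sum_sub_distrib, h1, Finset.sum_const, Finset.card_univ, nsmul_eq_mul]
  ring

theorem sum_sp_sub_tau {A : V → V → ℝ} (hA : Coup A) {k : V} {φ : (V → Bool) → ℝ}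
    (hφ : ∀ σ b, φ (Function.update σ k b) = φ σ) :
    ∑ σ, W A σ * ((sp k σ - tau A k σ) * φ σ) = 0 := by
  rw [← sum_M k]
  refine Finset.sum_eq_zero fun σ _ => ?_
  unfold M
  simp only
  rw [hφ, hφ, tau_update_self hA, tau_update_self hA, sp_update_self, sp_update_self,
    spin_true, spin_false]
  linear_combination (φ σ / 2) * local_tanh hA k σ

/-- Integration by parts at one site. -/
theorem ibp {A : V → V → ℝ} (hA : Coup A) (k : V) (u Ψ : (V → Bool) → ℝ)
    (hu : ∀ σ b, u (Function.update σ k b) = u σ) :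
    ∑ σ, W A σ * ((sp k σ - tau A k σ) * u σ * Ψ σ) =
      ∑ σ, W A σ * ((1 - tau A k σ ^ 2) * u σ * D k Ψ σ) := by
  have h1 := sum_sp_sub_tau hA (k := k) (φ := fun σ => u σ * M k Ψ σ) (by
    intro σ b
    rw [hu, M_update])
  have h2 := sum_sp_sub_tau hA (k := k) (φ := fun σ => u σ * D k Ψ σ * tau A k σ) (by
    intro σ b
    rw [hu, D_update, tau_update_self hA])
  have h3 : ∀ σ : V → Bool, W A σ * ((sp k σ - tau A k σ) * u σ * Ψ σ) =
      W A σ * ((1 - tau A k σ ^ 2) * u σ * D k Ψ σ) +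
      (W A σ * ((sp k σ - tau A k σ) * (u σ * M k Ψ σ)) -
      W A σ * ((sp k σ - tau A k σ) * (u σ * D k Ψ σ * tau A k σ))) := by
    intro σ
    have e1 := eq_M_add k Ψ σ
    have e2 := sp_sq k σ
    linear_combination (W A σ * (sp k σ - tau A k σ) * u σ) * e1 +
      (W A σ * u σ * D k Ψ σ) * e2
  rw [Finset.sum_congr rfl fun σ _ => h3 σ, Finset.sum_add_distrib, Finset.sum_sub_distrib,
    h1, h2]
  ring

/-- The spectral identity: an eigenfunction paired with any function. -/
theorem eig_pairing {A : V → V → ℝ} (hA : Coup A) {f : (V → Bool) → ℝ} {lam : ℝ}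
    (h : Eig A f lam) (Ψ : (V → Bool) → ℝ) :
    lam * ∑ σ, W A σ * (f σ * Ψ σ) =
      ∑ k, ∑ σ, W A σ * ((1 - tau A k σ ^ 2) * D k f σ * D k Ψ σ) := by
  have h1 : lam * ∑ σ, W A σ * (f σ * Ψ σ) =
      ∑ σ, ∑ k, W A σ * ((sp k σ - tau A k σ) * D k f σ * Ψ σ) := by
    rw [Finset.mul_sum]
    refine Finset.sum_congr rfl fun σ _ => ?_
    rw [← Finset.mul_sum, ← Finset.sum_mul, h σ]
    ring
  rw [h1, Finset.sum_comm]
  exact Finset.sum_congr rfl fun k _ => ibp hA k (D k f) Ψ (D_update k f)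

omit [DecidableEq V] in
theorem en_add (A K : V → V → ℝ) (h : ℝ) (σ : V → Bool) :
    en (fun u v => A u v + h * K u v) σ = en A σ + h * en K σ := by
  unfold en
  rw [mul_div_assoc', ← add_div, Finset.mul_sum, ← Finset.sum_add_distrib]
  congr 1
  refine Finset.sum_congr rfl fun u _ => ?_
  rw [Finset.mul_sum, ← Finset.sum_add_distrib]
  exact Finset.sum_congr rfl fun v _ => by ring

omit [DecidableEq V] in
theorem W_add (A K : V → V → ℝ) (h : ℝ) (σ : V → Bool) :
    W (fun u v => A u v + h * K u v) σ = W A σ * Real.exp (h * en K σ) := by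
  unfold W
  rw [en_add, Real.exp_add]

/-- The defect tested against any function. -/
theorem sum_defect_mul {A : V → V → ℝ} (hA : Coup A) (f g : (V → Bool) → ℝ) :
    ∑ σ, W A σ * (g σ * defect (W A) f σ) =
      ∑ k, ∑ σ, W A σ * (f σ * ((1 - tau A k σ ^ 2) * D k f σ * D k g σ)) := by
  have h1 : ∀ σ : V → Bool, W A σ * (g σ * defect (W A) f σ) =
      ∑ k, W A σ * ((sp k σ - tau A k σ) * (D k f σ * ce (W A) k f σ) * g σ) := by
    intro σ
    unfold defect
    rw [Finset.mul_sum, Finset.mul_sum]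
    refine Finset.sum_congr rfl fun k _ => ?_
    rw [sub_ce_W hA]
    ring
  rw [Finset.sum_congr rfl fun σ _ => h1 σ, Finset.sum_comm]
  refine Finset.sum_congr rfl fun k _ => ?_
  have hu : ∀ (σ : V → Bool) (b : Bool),
      (fun σ => D k f σ * ce (W A) k f σ) (Function.update σ k b) =
      (fun σ => D k f σ * ce (W A) k f σ) σ := by
    intro σ b
    simp only
    rw [ce_W hA, ce_W hA, D_update, M_update, tau_update_self hA]
  have h2 := ibp hA k (fun σ => D k f σ * ce (W A) k f σ) g hu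
  rw [h2]
  have h3 := sum_sp_sub_tau hA (k := k)
    (φ := fun σ => (1 - tau A k σ ^ 2) * D k f σ * D k g σ * D k f σ) (by
    intro σ b
    rw [tau_update_self hA, D_update, D_update])
  rw [← sub_eq_zero, ← Finset.sum_sub_distrib, ← neg_eq_zero, ← h3, ← Finset.sum_neg_distrib]
  refine Finset.sum_congr rfl fun σ _ => ?_
  have e1 := eq_M_add k f σ
  rw [ce_W hA]
  linear_combination (W A σ * ((1 - tau A k σ ^ 2) * D k f σ * D k g σ)) * e1

/-- The sum of the energy times the defect. -/
theorem sum_en_defect {A K : V → V → ℝ} {f : (V → Bool) → ℝ} (hA : Coup A) (hK : Coup K) :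
    ∑ σ, W A σ * (en K σ * defect (W A) f σ) =
      ∑ σ, W A σ * ∑ i, fld K i σ * ((1 - tau A i σ ^ 2) * D i f σ) * f σ := by
  rw [sum_defect_mul hA, Finset.sum_comm]
  refine Finset.sum_congr rfl fun σ _ => ?_
  rw [Finset.mul_sum]
  refine Finset.sum_congr rfl fun i _ => ?_
  rw [D_en hK]
  ring

end Pool.Agent.Lib.MP_f82811_pr.HT
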